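import Pool.Agent.H33.AA.Transfer

set_option autoImplicit false

namespace Pool.Agent.H33.AA

open Finset

def F1 : Fam := ⟨10, 1, 0, 3, 1, 15, 100, 250, 1, 10, 1, 40⟩
def F2 : Fam := ⟨10, 2, 1, 7, 8, 60, 200, 250, 2, 10, 1, 40⟩

theorem prime_25 (p a b : ℕ) (hp : p.Prime) (h : (p : ℤ) ∣ ((2 ^ a * 5 ^ b : ℕ) : ℤ)) :
    p = 2 ∨ p = 5 := by
  have h1 : p ∣ 2 ^ a * 5 ^ b := by exact_mod_cast h
  rcases (Nat.Prime.dvd_mul hp).mp h1 with h2 | h2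
  · left
    exact (Nat.prime_dvd_prime_iff_eq hp Nat.prime_two).mp (hp.dvd_of_dvd_pow h2)
  · right
    exact (Nat.prime_dvd_prime_iff_eq hp Nat.prime_five).mp (hp.dvd_of_dvd_pow h2)

theorem F1_ok : F1.Ok where
  hb := by norm_num [F1]
  hc := by norm_num [F1]
  he := by norm_num [F1]
  hu := by norm_num [F1]
  hk := by norm_num [F1]
  hm := by norm_num [F1]
  hnu := by norm_num [F1]
  hM := by norm_num [F1]
  e1 := by norm_num [F1]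
  e2 := by norm_num [F1]
  e3 := by norm_num [F1]
  e4 := by norm_num [F1]
  loc := by
    intro p hp h
    left
    have h1 : (p : ℤ) ∣ ((2 ^ 6 * 5 ^ 3 : ℕ) : ℤ) := by
      refine dvd_trans h ?_
      norm_num [F1]
    rcases prime_25 p 6 3 hp h1 with rfl | rfl <;> norm_num [F1]

theorem F2_ok : F2.Ok where
  hb := by norm_num [F2]
  hc := by norm_num [F2]
  he := by norm_num [F2]
  hu := by norm_num [F2]
  hk := by norm_num [F2]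
  hm := by norm_num [F2]
  hnu := by norm_num [F2]
  hM := by norm_num [F2]
  e1 := by norm_num [F2]
  e2 := by norm_num [F2]
  e3 := by norm_num [F2]
  e4 := by norm_num [F2]
  loc := by
    intro p hp h
    left
    have h1 : (p : ℤ) ∣ ((2 ^ 7 * 5 ^ 3 : ℕ) : ℤ) := by
      refine dvd_trans h ?_
      norm_num [F2]
    rcases prime_25 p 7 3 hp h1 with rfl | rfl <;> norm_num [F2]

open Classical in
theorem q1 (ε : ℝ) (hε : 0 < ε) : ∃ N0 : ℕ, ∀ N : ℕ, N0 ≤ N →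
    (#((range N).filter (fun n : ℕ => ¬ ∃ x y z : ℤ, 0 < z ∧
      8 * (n : ℤ) + 1 = x ^ 2 + y ^ 2 + z ^ 2 ∧ ∃ k : ℤ, x + 3 * y = k ^ 2)) : ℝ) ≤ ε * N := by
  obtain ⟨N0, h⟩ := almost_all F1 F1_ok (ε / 2) (by positivity)
  refine ⟨N0, fun N hN => ?_⟩
  have h1 := h (2 * N) (by omega)
  have hle : #((range N).filter (fun n : ℕ => ¬ ∃ x y z : ℤ, 0 < z ∧
      8 * (n : ℤ) + 1 = x ^ 2 + y ^ 2 + z ^ 2 ∧ ∃ k : ℤ, x + 3 * y = k ^ 2)) ≤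
      #((range (2 * N)).filter (fun v : ℕ => ¬ F1.Rep (v : ℤ))) := by
    refine Finset.card_le_card_of_injOn (fun n => 2 * n) ?_ ?_
    · intro n hn
      have hn' := Finset.mem_filter.mp (Finset.mem_coe.mp hn)
      rw [mem_range] at hn'
      refine Finset.mem_coe.mpr (Finset.mem_filter.mpr ⟨mem_range.mpr ?_, ?_⟩)
      · show 2 * n < 2 * N
        omega
      · intro hrep
        apply hn'.2
        obtain ⟨k, w, s, hk, hw, hs, hv⟩ := hrep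
        refine ⟨(1 + 10 * k) ^ 2 - 3 * (6 * k + 30 * k ^ 2 - 2 * s), 6 * k + 30 * k ^ 2 - 2 * s,
          2 * w, by omega, ?_, 1 + 10 * k, by ring⟩
        simp only [Fam.h, Fam.ph, Fam.ps, F1] at hv
        push_cast at hv
        linear_combination (-4) * hv
    · intro a _ b _ hab
      have : 2 * a = 2 * b := hab
      omega
  calc (#((range N).filter (fun n : ℕ => ¬ ∃ x y z : ℤ, 0 < z ∧
      8 * (n : ℤ) + 1 = x ^ 2 + y ^ 2 + z ^ 2 ∧ ∃ k : ℤ, x + 3 * y = k ^ 2)) : ℝ)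
      ≤ (#((range (2 * N)).filter (fun v : ℕ => ¬ F1.Rep (v : ℤ))) : ℝ) := by exact_mod_cast hle
    _ ≤ ε / 2 * ((2 * N : ℕ) : ℝ) := h1
    _ = ε * N := by push_cast; ring

open Classical in
theorem q2 (ε : ℝ) (hε : 0 < ε) : ∃ N0 : ℕ, ∀ N : ℕ, N0 ≤ N →
    (#((range N).filter (fun n : ℕ => ¬ ∃ x : ℤ, ∃ y z : ℕ, z % 2 = 1 ∧
      8 * (n : ℤ) + 6 = x ^ 2 + (y : ℤ) ^ 2 + (z : ℤ) ^ 2 ∧
      ∃ k : ℤ, x + 2 * (y : ℤ) = k ^ 2)) : ℝ) ≤ ε * N := by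
  obtain ⟨N0, h⟩ := class_bad F2 F2_ok 1 1 le_rfl
    (fun n : ℕ => ∃ x : ℤ, ∃ y z : ℕ, z % 2 = 1 ∧
      8 * (n : ℤ) + 6 = x ^ 2 + (y : ℤ) ^ 2 + (z : ℤ) ^ 2 ∧
      ∃ k : ℤ, x + 2 * (y : ℤ) = k ^ 2) (by
    intro v hrep
    obtain ⟨k, w, s, hk, hw, hs, hv⟩ := hrep
    have hy : 0 ≤ 3 + 4 * s + 16 * k + 40 * k ^ 2 := by nlinarith [sq_nonneg k]
    refine ⟨(2 + 10 * k) ^ 2 - 2 * (3 + 4 * s + 16 * k + 40 * k ^ 2),
      (3 + 4 * s + 16 * k + 40 * k ^ 2).toNat, (1 + 4 * w).toNat, by omega, ?_, 2 + 10 * k, ?_⟩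
    · rw [Int.toNat_of_nonneg hy, Int.toNat_of_nonneg (by omega)]
      simp only [Fam.h, Fam.ph, Fam.ps, F2] at hv
      push_cast
      linear_combination (-8) * hv
    · rw [Int.toNat_of_nonneg hy]
      ring) ε hε
  refine ⟨N0, fun N hN => ?_⟩
  refine le_trans ?_ (h N hN)
  have hsub : ((range N).filter (fun n : ℕ => ¬ ∃ x : ℤ, ∃ y z : ℕ, z % 2 = 1 ∧
      8 * (n : ℤ) + 6 = x ^ 2 + (y : ℤ) ^ 2 + (z : ℤ) ^ 2 ∧
      ∃ k : ℤ, x + 2 * (y : ℤ) = k ^ 2)) ⊆ ((range N).filter (fun n : ℕ => n % 1 = 1 % 1 ∧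
      ¬ ∃ x : ℤ, ∃ y z : ℕ, z % 2 = 1 ∧
      8 * (n : ℤ) + 6 = x ^ 2 + (y : ℤ) ^ 2 + (z : ℤ) ^ 2 ∧
      ∃ k : ℤ, x + 2 * (y : ℤ) = k ^ 2)) := by
    intro n hn
    rw [mem_filter] at hn ⊢
    exact ⟨hn.1, by omega, hn.2⟩
  exact_mod_cast Finset.card_le_card hsub

end Pool.Agent.H33.AA
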