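import Pool.Agent.H33.AA.Defs

/-!
# Job AA-AXIS: the terms with `a = 0` (~80 lines)

With `a = 0` the equation is `h - h' + x (c (w + w') + e) = 0`, `w = w' + x`, `s` free in `(S,2S]`.

`axis_ne` (`h ≠ h'`): then `x ≠ 0`, `|x| (c (w+w') + e) = |h - h'| ≤ S` and `w + w' ≥ |x|`, so
`x² ≤ S ≤ R²`, `|x| ≤ R`; for each such `x` the value `w'` is unique (the equation
`2 c x w' + c x² + e x = h' - h` is linear in `w'` with `2 c x ≠ 0`) and `s` has `S` values, so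
`NN ≤ S`.  There are at most `2R` nonzero `x` with `|x| ≤ R`.

`axis_eq` (`h = h'`): `x (c(w+w')+e) = 0` and `c (w+w') + e ≥ 2 > 0`, so `x = 0`; then `r` ranges over
all of the box, `Z S` pairs.
-/

set_option autoImplicit false

namespace Pool.Agent.H33.AA

open Finset

theorem axis_key (F : Fam) (_ : F.Ok) (h h' x w s : ℤ) (hw : 1 ≤ w) (hwx : 1 ≤ w + x)
    (heq : h + F.ph (w + x) + F.ps s + 0 = h' + F.ph w + F.ps (s + 0)) :
    x * (F.c * (2 * w + x) + F.e) = h' - h ∧ |x| + 2 ≤ 2 * w + x := by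
  constructor
  · unfold Fam.ph at heq
    rw [add_zero s] at heq
    linarith [heq]
  · rcases abs_cases x with ⟨h1, _⟩ | ⟨h1, _⟩ <;> rw [h1] <;> linarith

theorem axis_card (F : Fam) (hF : F.Ok) (Z S h h' x : ℤ) (hS : 1 ≤ S) (hx : x ≠ 0) :
    (F.NN Z S h h' 0 x 0 : ℝ) ≤ S := by
  have h1 : F.NN Z S h h' 0 x 0 ≤ (Ioc S (2 * S)).card := by
    unfold Fam.NN
    refine card_le_card_of_injOn (fun r => r.2) ?_ ?_
    · intro r hr
      have hr' := (mem_filter.1 (mem_coe.1 hr)).1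
      exact mem_coe.2 (mem_product.1 hr').2
    · intro r hr q hq hrq
      obtain ⟨hr1, ⟨⟨hr2, hr3⟩, hr4⟩⟩ := mem_filter.1 (mem_coe.1 hr)
      obtain ⟨hq1, ⟨⟨hq2, hq3⟩, hq4⟩⟩ := mem_filter.1 (mem_coe.1 hq)
      have a1 := (axis_key F hF h h' x r.1 r.2 (mem_Icc.1 (mem_product.1 hr1).1).1
        (mem_Icc.1 hr2).1 hr4).1
      have a2 := (axis_key F hF h h' x q.1 q.2 (mem_Icc.1 (mem_product.1 hq1).1).1
        (mem_Icc.1 hq2).1 hq4).1
      have a3 : x * (F.c * (2 * r.1 + x) + F.e) = x * (F.c * (2 * q.1 + x) + F.e) := a1.trans a2.symm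
      have a4 := mul_left_cancel₀ hx a3
      have a5 : F.c * (2 * r.1 + x) = F.c * (2 * q.1 + x) := by linarith
      have hc : F.c ≠ 0 := by
        have := hF.hc
        omega
      have a6 := mul_left_cancel₀ hc a5
      refine Prod.ext ?_ hrq
      omega
  have h2 : (Ioc S (2 * S)).card = S.toNat := by
    rw [Int.card_Ioc]
    congr 1
    ring
  rw [h2] at h1
  have h3 : ((S.toNat : ℤ) : ℝ) = (S : ℝ) := by
    rw [Int.toNat_of_nonneg (by omega)]
  calc (F.NN Z S h h' 0 x 0 : ℝ) ≤ (S.toNat : ℝ) := by exact_mod_cast h1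
    _ = (S : ℝ) := by exact_mod_cast h3

theorem axis_ne (F : Fam) (hF : F.Ok) (Z S R h h' : ℤ) (hS : 1 ≤ S) (hR : 0 ≤ R)
    (hSR : S ≤ R ^ 2) (h0 : 0 ≤ h) (hS1 : h ≤ S) (h0' : 0 ≤ h') (hS1' : h' ≤ S) (hne : h ≠ h') :
    ∑ x ∈ Icc (-Z) Z, (F.NN Z S h h' 0 x 0 : ℝ) ≤ 2 * R * S := by
  classical
  have hkey : ∀ x : ℤ, (F.NN Z S h h' 0 x 0 : ℝ) ≠ 0 → x ∈ (Icc (-R) R).erase 0 := by
    intro x hx
    have h1 : F.NN Z S h h' 0 x 0 ≠ 0 := by
      intro h2
      rw [h2] at hx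
      exact hx (by norm_num)
    unfold Fam.NN at h1
    obtain ⟨r, hr⟩ := card_ne_zero.1 h1
    obtain ⟨hr1, ⟨⟨hr2, hr3⟩, hr4⟩⟩ := mem_filter.1 hr
    obtain ⟨a1, a2⟩ := axis_key F hF h h' x r.1 r.2 (mem_Icc.1 (mem_product.1 hr1).1).1
        (mem_Icc.1 hr2).1 hr4
    have hx0 : x ≠ 0 := by
      intro h2
      rw [h2, zero_mul] at a1
      exact hne (by linarith)
    have hc := hF.hc
    have he := hF.he
    have hpos : |x| ≤ F.c * (2 * r.1 + x) + F.e := by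
      have a3 : 1 * (2 * r.1 + x) ≤ F.c * (2 * r.1 + x) :=
        mul_le_mul_of_nonneg_right hc (by have := abs_nonneg x; linarith)
      linarith
    have h3 : |x| * |x| ≤ |x| * (F.c * (2 * r.1 + x) + F.e) :=
      mul_le_mul_of_nonneg_left hpos (abs_nonneg x)
    have h4 : |x| * (F.c * (2 * r.1 + x) + F.e) = |h' - h| := by
      rw [← a1, abs_mul, abs_of_nonneg (a := F.c * (2 * r.1 + x) + F.e)
        (le_trans (abs_nonneg x) hpos)]
    have h5 : |h' - h| ≤ S := by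
      rw [abs_le]
      constructor <;> linarith
    have h6 : |x| ≤ R := by
      have h7 : |x| ^ 2 ≤ R ^ 2 := by
        rw [sq |x|]
        linarith
      exact (sq_le_sq₀ (abs_nonneg x) hR).1 h7
    rw [mem_erase, mem_Icc]
    exact ⟨hx0, (abs_le.1 h6).1, (abs_le.1 h6).2⟩
  calc ∑ x ∈ Icc (-Z) Z, (F.NN Z S h h' 0 x 0 : ℝ)
      = ∑ x ∈ (Icc (-Z) Z).filter (fun x => (F.NN Z S h h' 0 x 0 : ℝ) ≠ 0),
          (F.NN Z S h h' 0 x 0 : ℝ) := (sum_filter_ne_zero _).symm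
    _ ≤ ∑ x ∈ (Icc (-Z) Z).filter (fun x => (F.NN Z S h h' 0 x 0 : ℝ) ≠ 0), (S : ℝ) := by
        refine sum_le_sum fun x hx => ?_
        have h1 := hkey x (mem_filter.1 hx).2
        exact axis_card F hF Z S h h' x hS (mem_erase.1 h1).1
    _ ≤ ∑ x ∈ (Icc (-R) R).erase 0, (S : ℝ) := by
        refine sum_le_sum_of_subset_of_nonneg (fun x hx => hkey x (mem_filter.1 hx).2) ?_
        intro x _ _
        have : (0 : ℤ) ≤ S := by omega
        exact_mod_cast this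
    _ = 2 * R * S := by
        rw [sum_const, card_erase_of_mem (mem_Icc.2 ⟨by omega, hR⟩), Int.card_Icc, nsmul_eq_mul]
        have h1 : (((R + 1 - -R).toNat - 1 : ℕ) : ℤ) = 2 * R := by omega
        have h2 : ((((R + 1 - -R).toNat - 1 : ℕ) : ℤ) : ℝ) = 2 * R := by
          rw [h1]
          push_cast
          ring
        rw [← h2]
        push_cast
        ring

theorem axis_eq (F : Fam) (hF : F.Ok) (Z S h : ℤ) (hZ : 1 ≤ Z) (hS : 1 ≤ S) :
    ∑ x ∈ Icc (-Z) Z, (F.NN Z S h h 0 x 0 : ℝ) ≤ Z * S := by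
  classical
  have hkey : ∀ x : ℤ, x ≠ 0 → F.NN Z S h h 0 x 0 = 0 := by
    intro x hx
    unfold Fam.NN
    rw [card_eq_zero, filter_eq_empty_iff]
    rintro r hr1 ⟨⟨hr2, hr3⟩, hr4⟩
    obtain ⟨a1, a2⟩ := axis_key F hF h h x r.1 r.2 (mem_Icc.1 (mem_product.1 hr1).1).1
        (mem_Icc.1 hr2).1 hr4
    rw [sub_self] at a1
    rcases mul_eq_zero.1 a1 with h1 | h1
    · exact hx h1
    · have hc := hF.hc
      have he := hF.he
      have a3 : 1 * (2 * r.1 + x) ≤ F.c * (2 * r.1 + x) :=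
        mul_le_mul_of_nonneg_right hc (by have := abs_nonneg x; linarith)
      have := abs_nonneg x
      linarith
  have h1 : ∑ x ∈ Icc (-Z) Z, (F.NN Z S h h 0 x 0 : ℝ) = (F.NN Z S h h 0 0 0 : ℝ) := by
    refine sum_eq_single_of_mem 0 (mem_Icc.2 ⟨by omega, by omega⟩) fun x _ hx => ?_
    rw [hkey x hx]
    norm_num
  rw [h1]
  have h2 : F.NN Z S h h 0 0 0 ≤ (Icc 1 Z ×ˢ Ioc S (2 * S)).card := by
    unfold Fam.NN
    exact card_filter_le _ _
  rw [card_product, Int.card_Icc, Int.card_Ioc] at h2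
  have h3 : (((Z + 1 - 1).toNat * (2 * S - S).toNat : ℕ) : ℤ) = Z * S := by
    push_cast
    rw [Int.toNat_of_nonneg (by omega), Int.toNat_of_nonneg (by omega)]
    ring
  have h4 : (F.NN Z S h h 0 0 0 : ℤ) ≤ Z * S := by
    rw [← h3]
    exact_mod_cast h2
  exact_mod_cast h4

end Pool.Agent.H33.AA
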