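import Mathlib

/-!
# Job AA-CORR: second moments and correlations (pure finite combinatorics, ~80 lines)

Write `r v = #{t ∈ B | f t = v}`.

`corr_sq`.  Let `V = A ∪ B.image f ∪ B.image (fun t => f t - τ)` (finite).  Then
* `∑ v ∈ V, r v ^ 2 = #{q ∈ B ×ˢ B | f q.1 = f q.2}` (fibre over the common value `v = f q.1`,
  which lies in `V`);
* `∑ v ∈ V, r (v+τ) ^ 2 = #{q | f q.1 = f q.2}` (fibre over `v = f q.1 - τ`);
* `∑ v ∈ V, r v * r (v+τ) = #{q | f q.1 + τ = f q.2}` (fibre over `v = f q.1`).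
So `∑_{v ∈ A} (r v - r (v+τ))² ≤ ∑_{v ∈ V} (…)² = 2 #{f q.1 = f q.2} - 2 #{f q.1 + τ = f q.2}`.
(Useful: `Finset.card_eq_sum_card_fiberwise`, `Finset.card_product`, `Finset.filter_product`.)

`bad_count`.  For `v ∈ A` we have `r v = 0`, so by Cauchy–Schwarz (`inner_mul_le_norm_mul_norm` /
`Finset.sq_sum_le_card_mul_sum_sq` : `(∑ j, a j)^2 ≤ J * ∑ j, a j ^ 2`)
`L² ≤ (∑_j r(v + W j))² ≤ J ∑_j r(v + W j)² = J ∑_j (r v - r (v + W j))²`.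
Sum over `v ∈ A`, exchange the sums, apply `corr_sq` with `τ = W j` and `hE`:
`#A L² ≤ J ∑_j 2 E = 2 J² E`.
-/

set_option autoImplicit false

namespace Pool.Agent.H33.AA

open Finset

theorem corr_aux {ι : Type*} (B : Finset ι) (f g : ι → ℤ) (V : Finset ℤ)
    (hV : ∀ t ∈ B, f t ∈ V) :
    ∑ v ∈ V, (#{t ∈ B | f t = v} : ℝ) * (#{t ∈ B | g t = v} : ℝ) =
      (#{q ∈ B ×ˢ B | f q.1 = g q.2} : ℝ) := by
  have h1 : #{q ∈ B ×ˢ B | f q.1 = g q.2} =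
      ∑ v ∈ V, #{q ∈ {q ∈ B ×ˢ B | f q.1 = g q.2} | f q.1 = v} := by
    apply Finset.card_eq_sum_card_fiberwise
    intro q hq
    have h2 : q ∈ {q ∈ B ×ˢ B | f q.1 = g q.2} := hq
    rw [Finset.mem_filter, Finset.mem_product] at h2
    exact hV _ h2.1.1
  rw [h1]
  push_cast
  refine Finset.sum_congr rfl fun v _ => ?_
  rw [← Nat.cast_mul, ← Finset.card_product]
  congr 2
  ext q
  simp only [Finset.mem_filter, Finset.mem_product]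
  constructor
  · rintro ⟨⟨h1, h2⟩, h3, h4⟩
    exact ⟨⟨⟨h1, h3⟩, by rw [h2, h4]⟩, h2⟩
  · rintro ⟨⟨⟨h1, h3⟩, h4⟩, h2⟩
    exact ⟨⟨h1, h2⟩, h3, by rw [← h4, h2]⟩

theorem corr_sq {ι : Type*} (B : Finset ι) (f : ι → ℤ) (A : Finset ℤ) (τ : ℤ) :
    ∑ v ∈ A, ((#{t ∈ B | f t = v} : ℝ) - (#{t ∈ B | f t = v + τ} : ℝ)) ^ 2 ≤
      2 * ((#{q ∈ B ×ˢ B | f q.1 = f q.2} : ℝ) - (#{q ∈ B ×ˢ B | f q.1 + τ = f q.2} : ℝ)) := by
  classical
  set V : Finset ℤ := A ∪ B.image f ∪ B.image (fun t => f t - τ) with hV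
  have hV1 : ∀ t ∈ B, f t ∈ V := fun t ht => by
    rw [hV, Finset.mem_union, Finset.mem_union]
    exact Or.inl (Or.inr (Finset.mem_image_of_mem f ht))
  have hV2 : ∀ t ∈ B, f t - τ ∈ V := fun t ht => by
    rw [hV, Finset.mem_union]
    exact Or.inr (Finset.mem_image_of_mem (fun t => f t - τ) ht)
  have hA : A ⊆ V := fun v hv => by
    rw [hV, Finset.mem_union, Finset.mem_union]
    exact Or.inl (Or.inl hv)
  have hshift : ∀ v : ℤ, (#{t ∈ B | f t = v + τ} : ℝ) = (#{t ∈ B | f t - τ = v} : ℝ) := by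
    intro v
    congr 2
    ext t
    simp only [Finset.mem_filter]
    constructor
    · rintro ⟨h1, h2⟩; exact ⟨h1, by omega⟩
    · rintro ⟨h1, h2⟩; exact ⟨h1, by omega⟩
  have e1 := corr_aux B f f V hV1
  have e2 := corr_aux B (fun t => f t - τ) (fun t => f t - τ) V hV2
  have e3 := corr_aux B f (fun t => f t - τ) V hV1
  have e2' : (#{q ∈ B ×ˢ B | f q.1 - τ = f q.2 - τ} : ℝ) = #{q ∈ B ×ˢ B | f q.1 = f q.2} := by
    congr 2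
    ext q
    simp only [Finset.mem_filter, sub_left_inj]
  have e3' : (#{q ∈ B ×ˢ B | f q.1 = f q.2 - τ} : ℝ) = #{q ∈ B ×ˢ B | f q.1 + τ = f q.2} := by
    congr 2
    ext q
    simp only [Finset.mem_filter]
    constructor
    · rintro ⟨h1, h2⟩; exact ⟨h1, by omega⟩
    · rintro ⟨h1, h2⟩; exact ⟨h1, by omega⟩
  calc ∑ v ∈ A, ((#{t ∈ B | f t = v} : ℝ) - (#{t ∈ B | f t = v + τ} : ℝ)) ^ 2
      ≤ ∑ v ∈ V, ((#{t ∈ B | f t = v} : ℝ) - (#{t ∈ B | f t = v + τ} : ℝ)) ^ 2 :=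
        Finset.sum_le_sum_of_subset_of_nonneg hA fun v _ _ => sq_nonneg _
    _ = ∑ v ∈ V, ((#{t ∈ B | f t = v} : ℝ) * (#{t ∈ B | f t = v} : ℝ) +
          (#{t ∈ B | f t - τ = v} : ℝ) * (#{t ∈ B | f t - τ = v} : ℝ) -
          2 * ((#{t ∈ B | f t = v} : ℝ) * (#{t ∈ B | f t - τ = v} : ℝ))) := by
        refine Finset.sum_congr rfl fun v _ => ?_
        rw [hshift]
        ring
    _ = _ := by
        rw [Finset.sum_sub_distrib, Finset.sum_add_distrib, ← Finset.mul_sum, e1, e2, e3, e2', e3']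
        ring

theorem bad_count {ι : Type*} (B : Finset ι) (f : ι → ℤ) (A : Finset ℤ) (W : ℤ) (J : ℕ) (L E : ℝ)
    (hL : 0 ≤ L) (h0 : ∀ v ∈ A, ∀ t ∈ B, f t ≠ v)
    (hlow : ∀ v ∈ A, L ≤ ∑ j ∈ Icc 1 J, (#{t ∈ B | f t = v + W * (j : ℤ)} : ℝ))
    (hE : ∀ j ∈ Icc 1 J, (#{q ∈ B ×ˢ B | f q.1 = f q.2} : ℝ) -
      (#{q ∈ B ×ˢ B | f q.1 + W * (j : ℤ) = f q.2} : ℝ) ≤ E) :
    (#A : ℝ) * L ^ 2 ≤ 2 * (J : ℝ) ^ 2 * E := by
  have h1 : ∀ v ∈ A, L ^ 2 ≤ (J : ℝ) * ∑ j ∈ Icc 1 J,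
      ((#{t ∈ B | f t = v} : ℝ) - (#{t ∈ B | f t = v + W * (j : ℤ)} : ℝ)) ^ 2 := by
    intro v hv
    have hz : (#{t ∈ B | f t = v} : ℝ) = 0 := by
      rw [Nat.cast_eq_zero, Finset.card_eq_zero, Finset.filter_eq_empty_iff]
      exact fun t ht => h0 v hv t ht
    have h2 := sq_sum_le_card_mul_sum_sq (s := Icc 1 J)
      (f := fun j => (#{t ∈ B | f t = v + W * (j : ℤ)} : ℝ))
    rw [Nat.card_Icc, Nat.add_sub_cancel] at h2
    refine (pow_le_pow_left₀ hL (hlow v hv) 2).trans (h2.trans (le_of_eq ?_))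
    congr 1
    refine Finset.sum_congr rfl fun j _ => ?_
    rw [hz]
    ring
  calc (#A : ℝ) * L ^ 2 = ∑ v ∈ A, L ^ 2 := by rw [Finset.sum_const, nsmul_eq_mul]
    _ ≤ ∑ v ∈ A, (J : ℝ) * ∑ j ∈ Icc 1 J,
        ((#{t ∈ B | f t = v} : ℝ) - (#{t ∈ B | f t = v + W * (j : ℤ)} : ℝ)) ^ 2 :=
        Finset.sum_le_sum h1
    _ = (J : ℝ) * ∑ j ∈ Icc 1 J, ∑ v ∈ A,
        ((#{t ∈ B | f t = v} : ℝ) - (#{t ∈ B | f t = v + W * (j : ℤ)} : ℝ)) ^ 2 := by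
        rw [← Finset.mul_sum, Finset.sum_comm]
    _ ≤ (J : ℝ) * ∑ j ∈ Icc 1 J, 2 * E := by
        refine mul_le_mul_of_nonneg_left (Finset.sum_le_sum fun j hj => ?_) (Nat.cast_nonneg J)
        exact (corr_sq B f A (W * (j : ℤ))).trans (by linarith [hE j hj])
    _ = 2 * (J : ℝ) ^ 2 * E := by
        rw [Finset.sum_const, nsmul_eq_mul, Nat.card_Icc, Nat.add_sub_cancel]
        ring

end Pool.Agent.H33.AA
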