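import Mathlib

/-!
# Job AA-COV: from ranges to density (~120 lines)

`P` = bad.  Let `G X = C0 X⁸` (`S = G X`).
Step 1.  For every `ε > 0` there is `M0` such that for all `M ≥ M0`:
`#{v ∈ (M, 5M/4] | P v} ≤ ε M`.  Take `n, X0` from the hypothesis (for `ε`), and
`y = ` the largest integer with `2 b C0² (n y)^16 ≤ M`, `X = n y`.  For `M` large `y ≥ 100` and `X ≥ X0`.
`2 b S² ≤ M` and `M < 2 b C0² (n (y+1))^16 ≤ 2 b S² (1 + 1/y)^16 ≤ 2 b S² (6/5)` since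
`(1.01)^16 < 1.173 < 6/5`; so `5M/4 ≤ 3 b S²`, and `(M, 5M/4] ⊆ [2bS², 3bS²]`.  The number of bad
`v` is `≤ ε S² ≤ ε M/(2b) ≤ ε M`.
Step 2.  With `a(N) = #{v ∈ range N | P v}` and `M = ⌊4N/5⌋ + 1` (so that `[M+1, N) ⊆ (M, 5M/4]`),
`a(N) ≤ a(M+1) + ε N` for `N ≥ N1`; strong induction gives `a(N) ≤ N1 + 6 ε N` for all `N`, say
(`M + 1 ≤ 4N/5 + 2 ≤ 5N/6 …` for `N` large; adjust constants), hence `a(N) ≤ 7 ε N` for `N` large.
-/

set_option autoImplicit false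

namespace Pool.Agent.H33.AA

open Finset

/-- `(1 + 1/y)^16 ≤ 6/5` for `y ≥ 100` -/
private theorem cov_pow (y : ℕ) (hy : 100 ≤ y) : 5 * (y + 1) ^ 16 ≤ 6 * y ^ 16 := by
  have h1 : 100 * (y + 1) ≤ 101 * y := by omega
  have h2 : (100 * (y + 1)) ^ 16 ≤ (101 * y) ^ 16 := Nat.pow_le_pow_left h1 16
  rw [mul_pow, mul_pow] at h2
  have h3 : 5 * 101 ^ 16 ≤ 6 * 100 ^ 16 := by norm_num
  have h4 : (100 ^ 16) * (5 * (y + 1) ^ 16) ≤ (100 ^ 16) * (6 * y ^ 16) := by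
    calc (100 ^ 16) * (5 * (y + 1) ^ 16) = 5 * (100 ^ 16 * (y + 1) ^ 16) := by ring
      _ ≤ 5 * (101 ^ 16 * y ^ 16) := Nat.mul_le_mul_left 5 h2
      _ = (5 * 101 ^ 16) * y ^ 16 := by ring
      _ ≤ (6 * 100 ^ 16) * y ^ 16 := Nat.mul_le_mul_right _ h3
      _ = (100 ^ 16) * (6 * y ^ 16) := by ring
  exact Nat.le_of_mul_le_mul_left h4 (by positivity)

open Classical in
/-- step 1 -/
private theorem cov_step (P : ℤ → Prop) (b C0 : ℤ) (hb : 1 ≤ b) (hC0 : 1 ≤ C0) (ε : ℝ)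
    (hε : 0 < ε) (n X0 : ℕ) (hn : 1 ≤ n)
    (h : ∀ X : ℕ, X0 ≤ X → n ∣ X → ∀ S : ℤ, S = C0 * (X : ℤ) ^ 8 →
      (#{v ∈ Icc (2 * b * S ^ 2) (3 * b * S ^ 2) | P v} : ℝ) ≤ ε * (S : ℝ) ^ 2) :
    ∃ M0 : ℕ, ∀ M : ℕ, M0 ≤ M →
      (#((Ioc M (5 * M / 4)).filter (fun v : ℕ => P (v : ℤ))) : ℝ) ≤ ε * M := by
  obtain ⟨B, hB⟩ : ∃ B : ℕ, (B : ℤ) = b := ⟨b.toNat, Int.toNat_of_nonneg (by omega)⟩
  obtain ⟨C, hC⟩ : ∃ C : ℕ, (C : ℤ) = C0 := ⟨C0.toNat, Int.toNat_of_nonneg (by omega)⟩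
  have hB1 : 1 ≤ B := by omega
  have hC1 : 1 ≤ C := by omega
  set f : ℕ → ℕ := fun y => 2 * B * C ^ 2 * (n * y) ^ 16 with hf
  have hmono : Monotone f := by
    intro x y hxy
    exact Nat.mul_le_mul_left _ (Nat.pow_le_pow_left (Nat.mul_le_mul_left _ hxy) _)
  have hge : ∀ y, y ≤ f y := by
    intro y
    have h1 : 1 ≤ 2 * B * C ^ 2 := Nat.one_le_iff_ne_zero.2 (by positivity)
    have h2 : y ≤ n * y := Nat.le_mul_of_pos_left _ hn
    have h3 : n * y ≤ (n * y) ^ 16 := Nat.le_self_pow (by norm_num) _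
    calc y ≤ n * y := h2
      _ ≤ (n * y) ^ 16 := h3
      _ = 1 * (n * y) ^ 16 := (one_mul _).symm
      _ ≤ f y := Nat.mul_le_mul_right _ h1
  refine ⟨f (max 100 X0), fun M hM => ?_⟩
  have hex : ∃ y, M < f (y + 1) := ⟨M, lt_of_lt_of_le (Nat.lt_succ_self M) (hge (M + 1))⟩
  obtain ⟨y, hy1, hy2⟩ : ∃ y, M < f (y + 1) ∧ f y ≤ M := by
    refine ⟨Nat.find hex, Nat.find_spec hex, ?_⟩
    rcases Nat.eq_zero_or_pos (Nat.find hex) with h0 | h0
    · rw [h0]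
      have : f 0 = 0 := by simp [hf]
      omega
    · have h1 := Nat.find_min hex (m := Nat.find hex - 1) (by omega)
      rw [Nat.sub_add_cancel h0] at h1
      omega
  have hy : max 100 X0 ≤ y := by
    by_contra hcon
    have h1 : y + 1 ≤ max 100 X0 := by omega
    have h2 := hmono h1
    omega
  have hy100 : 100 ≤ y := (le_max_left _ _).trans hy
  have hyX : X0 ≤ y := (le_max_right _ _).trans hy
  have hX : X0 ≤ n * y := hyX.trans (Nat.le_mul_of_pos_left _ hn)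
  have h1 := h (n * y) hX (Dvd.intro _ rfl) _ rfl
  set S : ℤ := C0 * ((n * y : ℕ) : ℤ) ^ 8 with hS
  have hS2 : 2 * b * S ^ 2 = (f y : ℤ) := by
    rw [hS, hf, ← hB, ← hC]
    push_cast
    ring
  have h65 : 5 * f (y + 1) ≤ 6 * f y := by
    have h2 := cov_pow y hy100
    simp only [hf]
    calc 5 * (2 * B * C ^ 2 * (n * (y + 1)) ^ 16) =
        2 * B * C ^ 2 * n ^ 16 * (5 * (y + 1) ^ 16) := by ring
      _ ≤ 2 * B * C ^ 2 * n ^ 16 * (6 * y ^ 16) := Nat.mul_le_mul_left _ h2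
      _ = 6 * (2 * B * C ^ 2 * (n * y) ^ 16) := by ring
  have hS3 : 2 * (3 * b * S ^ 2) = 3 * (f y : ℤ) := by rw [← hS2]; ring
  have hcard : #((Ioc M (5 * M / 4)).filter (fun v : ℕ => P (v : ℤ))) ≤
      #{v ∈ Icc (2 * b * S ^ 2) (3 * b * S ^ 2) | P v} := by
    refine Finset.card_le_card_of_injOn (fun v : ℕ => (v : ℤ)) ?_ ?_
    · intro v hv
      have hv' := Finset.mem_filter.1 (Finset.mem_coe.1 hv)
      have hv1 := Finset.mem_Ioc.1 hv'.1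
      refine Finset.mem_coe.2 (Finset.mem_filter.2 ⟨Finset.mem_Icc.2 ⟨?_, ?_⟩, hv'.2⟩)
      · rw [hS2]
        have h2 : f y ≤ v := by omega
        change (f y : ℤ) ≤ (v : ℤ)
        exact_mod_cast h2
      · have h2 : 4 * v ≤ 5 * M := by omega
        have h3 : 2 * v ≤ 3 * f y := by omega
        have h4 : 2 * (v : ℤ) ≤ 3 * (f y : ℤ) := by exact_mod_cast h3
        change (v : ℤ) ≤ 3 * b * S ^ 2
        omega
    · intro v _ w _ hvw
      have h2 : (v : ℤ) = (w : ℤ) := hvw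
      exact_mod_cast h2
  have hSM : (S : ℝ) ^ 2 ≤ M := by
    have h2 : S ^ 2 ≤ (M : ℤ) := by
      have h3 : (f y : ℤ) ≤ M := by exact_mod_cast hy2
      have h4 : 0 ≤ S ^ 2 := sq_nonneg _
      nlinarith
    exact_mod_cast h2
  calc (#((Ioc M (5 * M / 4)).filter (fun v : ℕ => P (v : ℤ))) : ℝ)
      ≤ (#{v ∈ Icc (2 * b * S ^ 2) (3 * b * S ^ 2) | P v} : ℝ) := by exact_mod_cast hcard
    _ ≤ ε * (S : ℝ) ^ 2 := h1
    _ ≤ ε * M := mul_le_mul_of_nonneg_left hSM hε.le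

open Classical in
/-- step 2 -/
private theorem cov_rec (P : ℕ → Prop) (δ : ℝ) (hδ : 0 < δ) (M0 : ℕ)
    (h : ∀ M : ℕ, M0 ≤ M → (#((Ioc M (5 * M / 4)).filter P) : ℝ) ≤ δ * M) (N : ℕ) :
    (#((range N).filter P) : ℝ) ≤ (2 * M0 + 100 : ℕ) + 6 * δ * N := by
  induction N using Nat.strong_induction_on with
  | _ N ih =>
    by_cases hN : N < 2 * M0 + 100
    · have h1 : #((range N).filter P) ≤ N := (Finset.card_filter_le _ _).trans (card_range N).le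
      have h2 : (#((range N).filter P) : ℝ) ≤ (2 * M0 + 100 : ℕ) := by
        exact_mod_cast h1.trans hN.le
      have h3 : 0 ≤ 6 * δ * N := by positivity
      linarith
    · push Not at hN
      obtain ⟨M, hM⟩ : ∃ M, M = 4 * N / 5 + 1 := ⟨_, rfl⟩
      have h1 := ih (M + 1) (by omega)
      have h2 := h M (by omega)
      have h3 : (range N).filter P ⊆ (range (M + 1)).filter P ∪ (Ioc M (5 * M / 4)).filter P := by
        intro v hv
        have hv' := Finset.mem_filter.1 hv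
        have hv1 := Finset.mem_range.1 hv'.1
        by_cases hvM : v < M + 1
        · exact Finset.mem_union_left _ (Finset.mem_filter.2 ⟨Finset.mem_range.2 hvM, hv'.2⟩)
        · exact Finset.mem_union_right _ (Finset.mem_filter.2
            ⟨Finset.mem_Ioc.2 ⟨by omega, by omega⟩, hv'.2⟩)
      have h4 : #((range N).filter P) ≤
          #((range (M + 1)).filter P) + #((Ioc M (5 * M / 4)).filter P) :=
        (Finset.card_le_card h3).trans (Finset.card_union_le _ _)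
      have h5 : (#((range N).filter P) : ℝ) ≤
          (#((range (M + 1)).filter P) : ℝ) + (#((Ioc M (5 * M / 4)).filter P) : ℝ) := by
        exact_mod_cast h4
      have h6 : (5 * M : ℝ) ≤ 4 * N + 5 := by
        have : 5 * M ≤ 4 * N + 5 := by omega
        exact_mod_cast this
      have h7 : (100 : ℝ) ≤ N := by
        have : 100 ≤ N := by omega
        exact_mod_cast this
      push_cast at h1 ⊢
      nlinarith

open Classical in
theorem cover (P : ℤ → Prop) (b C0 : ℤ) (hb : 1 ≤ b) (hC0 : 1 ≤ C0)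
    (h : ∀ ε : ℝ, 0 < ε → ∃ n X0 : ℕ, 1 ≤ n ∧ ∀ X : ℕ, X0 ≤ X → n ∣ X → ∀ S : ℤ,
      S = C0 * (X : ℤ) ^ 8 →
      (#{v ∈ Icc (2 * b * S ^ 2) (3 * b * S ^ 2) | P v} : ℝ) ≤ ε * (S : ℝ) ^ 2)
    (ε : ℝ) (hε : 0 < ε) :
    ∃ N0 : ℕ, ∀ N : ℕ, N0 ≤ N → (#((range N).filter (fun v : ℕ => P (v : ℤ))) : ℝ) ≤ ε * N := by
  obtain ⟨n, X0, hn, hX⟩ := h (ε / 7) (by positivity)
  obtain ⟨M0, hM0⟩ := cov_step P b C0 hb hC0 (ε / 7) (by positivity) n X0 hn hX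
  have h1 := cov_rec (fun v : ℕ => P (v : ℤ)) (ε / 7) (by positivity) M0 hM0
  obtain ⟨N0, hN0⟩ := exists_nat_ge (((2 * M0 + 100 : ℕ) : ℝ) / (ε / 7))
  refine ⟨N0, fun N hN => ?_⟩
  have h2 : ((2 * M0 + 100 : ℕ) : ℝ) ≤ ε / 7 * N := by
    have h3 : ((2 * M0 + 100 : ℕ) : ℝ) / (ε / 7) ≤ N := hN0.trans (by exact_mod_cast hN)
    rw [div_le_iff₀ (by positivity)] at h3
    linarith
  have h4 := h1 N
  linarith

end Pool.Agent.H33.AA
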