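import Mathlib

/-!
# Almost all integers are values of a ternary family (fourth power + binary form)

`F.h κ + (c w² + e w) + (b s² + u s)`, where `M h(κ) = nu ((k0 + m κ)⁴ - k0⁴)`.
-/

set_option autoImplicit false

namespace Pool.Agent.H33.AA

noncomputable section

open Finset

/-- Coefficients of a family. -/
structure Fam where
  b : ℤ
  c : ℤ
  e : ℤ
  u : ℤ
  h1 : ℤ
  h2 : ℤ
  h3 : ℤ
  h4 : ℤ
  k0 : ℤ
  m : ℤ
  nu : ℤ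
  M : ℤ

namespace Fam

/-- the quartic shift -/
def h (F : Fam) (k : ℤ) : ℤ := F.h1 * k + F.h2 * k ^ 2 + F.h3 * k ^ 3 + F.h4 * k ^ 4
/-- first quadratic polynomial -/
def ph (F : Fam) (w : ℤ) : ℤ := F.c * w ^ 2 + F.e * w
/-- second quadratic polynomial -/
def ps (F : Fam) (s : ℤ) : ℤ := F.b * s ^ 2 + F.u * s

end Fam

/-- Admissible families.  `loc` : at every prime dividing `2 b c nu m M` one of the two quadratic
polynomials is a bijection. -/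
structure Fam.Ok (F : Fam) : Prop where
  hb : 1 ≤ F.b
  hc : 1 ≤ F.c
  he : 0 ≤ F.e
  hu : 0 ≤ F.u
  hk : 1 ≤ F.k0
  hm : 1 ≤ F.m
  hnu : 1 ≤ F.nu
  hM : 1 ≤ F.M
  e1 : F.M * F.h1 = 4 * F.nu * F.k0 ^ 3 * F.m
  e2 : F.M * F.h2 = 6 * F.nu * F.k0 ^ 2 * F.m ^ 2
  e3 : F.M * F.h3 = 4 * F.nu * F.k0 * F.m ^ 3
  e4 : F.M * F.h4 = F.nu * F.m ^ 4
  loc : ∀ p : ℕ, p.Prime → (p : ℤ) ∣ 2 * F.b * F.c * F.nu * F.m * F.M →
    ((p : ℤ) ∣ F.b ∧ ¬ (p : ℤ) ∣ F.u) ∨ ((p : ℤ) ∣ F.c ∧ ¬ (p : ℤ) ∣ F.e)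

namespace Fam

/-- a bound for all coefficients -/
def C (F : Fam) : ℤ := 1 + F.b + F.c + F.e + F.u + F.h1 + F.h2 + F.h3 + F.h4

/-- the set of shifts -/
def HH (F : Fam) (X : ℕ) : Finset ℤ := (Finset.range (X ^ 2)).image (fun k : ℕ => F.h k)

/-- value of a triple `(shift, w, s)` -/
def val (F : Fam) (t : ℤ × ℤ × ℤ) : ℤ := t.1 + F.ph t.2.1 + F.ps t.2.2

end Fam

/-- the box of triples `(shift, w, s)` -/
def Bx (H : Finset ℤ) (Z S : ℤ) : Finset (ℤ × ℤ × ℤ) := H ×ˢ (Icc 1 Z ×ˢ Ioc S (2 * S))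

namespace Fam

/-- number of representations in the box -/
def rr (F : Fam) (H : Finset ℤ) (Z S v : ℤ) : ℕ := #{t ∈ Bx H Z S | F.val t = v}

/-- correlations -/
def SS (F : Fam) (H : Finset ℤ) (Z S τ : ℤ) : ℕ :=
  #{q ∈ Bx H Z S ×ˢ Bx H Z S | F.val q.1 + τ = F.val q.2}

/-- solutions with prescribed shifts `h, h'` and differences `x = w - w'`, `a = s' - s`
(`r = (w', s)`). -/
def NN (F : Fam) (Z S h h' τ x a : ℤ) : ℕ :=
  #{r ∈ Icc 1 Z ×ˢ Ioc S (2 * S) | (r.1 + x ∈ Icc 1 Z ∧ r.2 + a ∈ Ioc S (2 * S)) ∧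
    h + F.ph (r.1 + x) + F.ps r.2 + τ = h' + F.ph r.1 + F.ps (r.2 + a)}

/-- `v` is a value of the family with nonnegative parameters -/
def Rep (F : Fam) (v : ℤ) : Prop :=
  ∃ k w s : ℤ, 0 ≤ k ∧ 1 ≤ w ∧ 1 ≤ s ∧ F.h k + F.ph w + F.ps s = v

/-- the family polynomial over a commutative ring -/
def FR (F : Fam) {R : Type*} [CommRing R] (t : R × R × R) : R :=
  ((F.h1 : R) * t.1 + (F.h2 : R) * t.1 ^ 2 + (F.h3 : R) * t.1 ^ 3 + (F.h4 : R) * t.1 ^ 4) +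
    ((F.c : R) * t.2.1 ^ 2 + (F.e : R) * t.2.1) + ((F.b : R) * t.2.2 ^ 2 + (F.u : R) * t.2.2)

/-- number of solutions of the congruence -/
def cnt (F : Fam) (n : ℕ) [NeZero n] (v : ZMod n) : ℕ :=
  #{t : ZMod n × ZMod n × ZMod n | F.FR t = v}

end Fam

/-- solutions of `p s - q w = t` in a box -/
def LN (p q t w1 w2 s1 s2 : ℤ) : ℕ :=
  #{r ∈ Icc w1 w2 ×ˢ Icc s1 s2 | p * r.2 - q * r.1 = t}

end

end Pool.Agent.H33.AA
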