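import Mathlib

set_option autoImplicit false

namespace Pool.Agent.H33.AA

open Finset

open Classical in
/-- from few exceptions to density 1 -/
theorem dens_of_bad (P : ℕ → Prop) (h : ∀ ε : ℝ, 0 < ε → ∃ N0 : ℕ, ∀ N : ℕ, N0 ≤ N →
    (#((range N).filter (fun n : ℕ => ¬ P n)) : ℝ) ≤ ε * N) :
    Filter.Tendsto (fun N : ℕ => (#((range N).filter (fun n : ℕ => P n)) : ℝ) / (N : ℝ))
      Filter.atTop (nhds 1) := by
  rw [Metric.tendsto_atTop]
  intro ε hε
  obtain ⟨N0, hN0⟩ := h (ε / 2) (by positivity)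
  refine ⟨max N0 1, fun N hN => ?_⟩
  have h1 : N0 ≤ N := le_trans (le_max_left _ _) hN
  have h2 : 1 ≤ N := le_trans (le_max_right _ _) hN
  have hNR : (0 : ℝ) < N := by exact_mod_cast h2
  have h3 := hN0 N h1
  have h4 : (#((range N).filter (fun n : ℕ => P n)) : ℝ) +
      (#((range N).filter (fun n : ℕ => ¬ P n)) : ℝ) = N := by
    have := Finset.card_filter_add_card_filter_not (s := range N) (fun n : ℕ => P n)
    rw [card_range] at this
    exact_mod_cast this
  have h5 : (#((range N).filter (fun n : ℕ => P n)) : ℝ) / (N : ℝ) - 1 =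
      - ((#((range N).filter (fun n : ℕ => ¬ P n)) : ℝ) / N) := by
    field_simp
    linarith
  rw [Real.dist_eq, h5, abs_neg, abs_of_nonneg (by positivity), div_lt_iff₀ hNR]
  nlinarith

end Pool.Agent.H33.AA
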