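import Pool.Agent.H33.AA.Defs

/-!
# Job AA-DIO: linear Diophantine equation in a box (~120 lines)

`LN p q t w1 w2 s1 s2` = number of `(w,s) ∈ [w1,w2] × [s1,s2]` with `p s - q w = t`.
Put `g = gcd p q`, `p' = |p|/g`, `q' = |q|/g` (positive integers).

Basic facts.  If `(w,s)`, `(w₁,s₁)` are two solutions for the same `t` then `p (s-s₁) = q (w-w₁)`, so
`p' ∣ w - w₁` and `q' ∣ s - s₁` (as `p/g`, `q/g` are coprime); a solution is determined by `w` (as
`p ≠ 0`) and also by `s` (as `q ≠ 0`).  An interval of `N` consecutive integers contains at most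
`N / p' + 1` elements of a residue class mod `p'`, and at most one if `N ≤ p'`
(`Int.Ioc_filter_modEq_card`, `Int.Ico_filter_modEq_card`, `Int.emod_emod_of_dvd` … or
`Nat.count`; or a direct induction).

`LN_le`: project to `s`: the `s`-values lie in one class mod `q'` inside `[s1,s2]`, so
`LN ≤ (s2 - s1 + 1)/q' + 1 = (s2-s1+1) g/|q| + 1`.

`LN_shift`: as `g ∣ τ` there is `(w⋆, s⋆)` with `p s⋆ - q w⋆ = τ` (Bézout, `Int.gcd_eq_gcd_ab`), and
shifting by multiples of `(p/g, q/g)` we may take `0 ≤ w⋆ < p'`.  Then `|s⋆| = |τ + q w⋆|/|p| ≤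
τ/|p| + |q| w⋆/|p| ≤ τ/|p| + |q|/g`.
The map `(w,s) ↦ (w + w⋆, s + s⋆)` is injective from solutions for `t` to solutions for `t + τ`,
except that the image may leave the box.  It leaves the box only if
 (i) `w > w2 - w⋆`: these `w` lie in an interval of `w⋆ < p'` integers and in one class mod `p'`:
     at most 1 solution;
 (ii) `s + s⋆ ∉ [s1,s2]`: `s` lies in an interval of `|s⋆|` integers (the last `s⋆` ones if
     `s⋆ ≥ 0`, the first `-s⋆` ones otherwise) and in one class mod `q'`: at most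
     `|s⋆|/q' + 1 ≤ (τ/|p| + |q|/g) g/|q| + 1 = g τ/(|p||q|) + 2` solutions.
Total loss `≤ 3 + g τ/(|p||q|)`.
-/

set_option autoImplicit false

namespace Pool.Agent.H33.AA

open Finset

theorem dio_emod (x y a d : ℤ) (h : d ∣ x - y) : (x - a) % d = (y - a) % d := by
  have : (x - a) ≡ (y - a) [ZMOD d] := by
    apply Int.ModEq.symm
    rw [Int.modEq_iff_dvd]
    have e : x - a - (y - a) = x - y := by ring
    rw [e]
    exact h
  exact this

/-- an interval contains few elements of a residue class -/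
theorem dio_card (S : Finset ℤ) (a b d : ℤ) (hd : 0 < d) (hS : ∀ x ∈ S, a ≤ x ∧ x ≤ b)
    (hc : ∀ x ∈ S, ∀ y ∈ S, d ∣ x - y) (hab : a ≤ b + 1) :
    (#S : ℤ) ≤ (b - a) / d + 1 := by
  have h1 : #(S.image fun x => (x - a) / d) = #S := by
    apply Finset.card_image_of_injOn
    intro x hx y hy hxy
    have hxy' : (x - a) / d = (y - a) / d := hxy
    have h2 : (x - a) % d = (y - a) % d := dio_emod x y a d (hc x hx y hy)
    have h3 := Int.emod_add_mul_ediv (x - a) d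
    have h4 := Int.emod_add_mul_ediv (y - a) d
    rw [hxy', h2] at h3
    linarith
  have h2 : S.image (fun x => (x - a) / d) ⊆ Icc 0 ((b - a) / d) := by
    intro z hz
    obtain ⟨x, hx, rfl⟩ := Finset.mem_image.1 hz
    obtain ⟨h5, h6⟩ := hS x hx
    rw [Finset.mem_Icc]
    exact ⟨Int.ediv_nonneg (by linarith) hd.le, Int.ediv_le_ediv hd (by linarith)⟩
  have h3 := Finset.card_le_card h2
  rw [h1, Int.card_Icc] at h3
  have h4 : -1 ≤ (b - a) / d := by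
    rw [Int.le_ediv_iff_mul_le hd]
    linarith
  have h5 : ((((b - a) / d + 1 - 0).toNat : ℕ) : ℤ) = (b - a) / d + 1 := by
    rw [Int.toNat_of_nonneg (by linarith)]
    ring
  calc (#S : ℤ) ≤ ((((b - a) / d + 1 - 0).toNat : ℕ) : ℤ) := by exact_mod_cast h3
    _ = _ := h5

/-- real form -/
theorem dio_cardR (S : Finset ℤ) (a b d : ℤ) (hd : 0 < d) (hS : ∀ x ∈ S, a ≤ x ∧ x ≤ b)
    (hc : ∀ x ∈ S, ∀ y ∈ S, d ∣ x - y) (hab : a ≤ b + 1) :
    (#S : ℝ) ≤ ((b : ℝ) - a + 1) / d + 1 := by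
  have h1 := dio_card S a b d hd hS hc hab
  have hd' : (0 : ℝ) < d := by exact_mod_cast hd
  have h2 : (((b - a) / d : ℤ) : ℝ) ≤ ((b : ℝ) - a + 1) / d := by
    rw [le_div_iff₀ hd']
    have h3 : (b - a) / d * d ≤ b - a := Int.ediv_mul_le _ hd.ne'
    have h4 : (((b - a) / d : ℤ) : ℝ) * d ≤ (b : ℝ) - a := by exact_mod_cast h3
    linarith
  have h3 : (#S : ℝ) ≤ (((b - a) / d : ℤ) : ℝ) + 1 := by exact_mod_cast h1
  linarith

/-- the solution set -/
noncomputable def dioS (p q t w1 w2 s1 s2 : ℤ) : Finset (ℤ × ℤ) :=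
  {r ∈ Icc w1 w2 ×ˢ Icc s1 s2 | p * r.2 - q * r.1 = t}

theorem mem_dioS {p q t w1 w2 s1 s2 : ℤ} {r : ℤ × ℤ} : r ∈ dioS p q t w1 w2 s1 s2 ↔
    ((w1 ≤ r.1 ∧ r.1 ≤ w2) ∧ (s1 ≤ r.2 ∧ r.2 ≤ s2)) ∧ p * r.2 - q * r.1 = t := by
  unfold dioS
  rw [Finset.mem_filter, Finset.mem_product, Finset.mem_Icc, Finset.mem_Icc]

/-- number of solutions in a subset, projecting to `s` -/
theorem dio_projS {p q t w1 w2 s1 s2 : ℤ} (hq : q ≠ 0) (p0 q0 g : ℤ)
    (hg : g ≠ 0) (hp0 : p = p0 * g) (hq0 : q = q0 * g) (hco : Int.gcd p0 q0 = 1)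
    (A : Finset (ℤ × ℤ)) (hA : A ⊆ dioS p q t w1 w2 s1 s2) (a b : ℤ) (hab : a ≤ b + 1)
    (hab' : ∀ r ∈ A, a ≤ r.2 ∧ r.2 ≤ b) :
    (#A : ℝ) ≤ ((b : ℝ) - a + 1) / |(q0 : ℝ)| + 1 := by
  have hq00 : q0 ≠ 0 := by
    rintro rfl
    exact hq (by rw [hq0, zero_mul])
  have h1 : #(A.image fun r => r.2) = #A := by
    apply Finset.card_image_of_injOn
    intro r hr r' hr' h
    have h' : r.2 = r'.2 := h
    have e1 := (mem_dioS.1 (hA hr)).2
    have e2 := (mem_dioS.1 (hA hr')).2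
    rw [h'] at e1
    have e3 : q * r.1 = q * r'.1 := by linarith
    exact Prod.ext (mul_left_cancel₀ hq e3) h'
  rw [← h1]
  have h2 := dio_cardR (A.image fun r => r.2) a b |q0| (abs_pos.2 hq00) ?_ ?_ hab
  · rw [Int.cast_abs] at h2
    exact h2
  · intro x hx
    obtain ⟨r, hr, rfl⟩ := Finset.mem_image.1 hx
    exact hab' r hr
  · intro x hx y hy
    obtain ⟨r, hr, rfl⟩ := Finset.mem_image.1 hx
    obtain ⟨r', hr', rfl⟩ := Finset.mem_image.1 hy
    rw [abs_dvd]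
    have e1 := (mem_dioS.1 (hA hr)).2
    have e2 := (mem_dioS.1 (hA hr')).2
    have e3 : g * (p0 * (r.2 - r'.2)) = g * (q0 * (r.1 - r'.1)) := by
      rw [hp0, hq0] at e1 e2
      linear_combination e1 - e2
    have e4 := mul_left_cancel₀ hg e3
    have e5 : q0 ∣ p0 * (r.2 - r'.2) := ⟨_, e4⟩
    exact Int.dvd_of_dvd_mul_right_of_gcd_one e5 (by rw [Int.gcd_comm]; exact hco)

/-- number of solutions in a subset, projecting to `w` -/
theorem dio_projW {p q t w1 w2 s1 s2 : ℤ} (hp : p ≠ 0) (p0 q0 g : ℤ)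
    (hg : g ≠ 0) (hp0 : p = p0 * g) (hq0 : q = q0 * g) (hco : Int.gcd p0 q0 = 1)
    (A : Finset (ℤ × ℤ)) (hA : A ⊆ dioS p q t w1 w2 s1 s2) (a b : ℤ) (hab : a ≤ b + 1)
    (hab' : ∀ r ∈ A, a ≤ r.1 ∧ r.1 ≤ b) :
    (#A : ℤ) ≤ (b - a) / |p0| + 1 := by
  have hp00 : p0 ≠ 0 := by
    rintro rfl
    exact hp (by rw [hp0, zero_mul])
  have h1 : #(A.image fun r => r.1) = #A := by
    apply Finset.card_image_of_injOn
    intro r hr r' hr' h
    have h' : r.1 = r'.1 := h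
    have e1 := (mem_dioS.1 (hA hr)).2
    have e2 := (mem_dioS.1 (hA hr')).2
    rw [h'] at e1
    have e3 : p * r.2 = p * r'.2 := by linarith
    exact Prod.ext h' (mul_left_cancel₀ hp e3)
  rw [← h1]
  refine dio_card (A.image fun r => r.1) a b |p0| (abs_pos.2 hp00) ?_ ?_ hab
  · intro x hx
    obtain ⟨r, hr, rfl⟩ := Finset.mem_image.1 hx
    exact hab' r hr
  · intro x hx y hy
    obtain ⟨r, hr, rfl⟩ := Finset.mem_image.1 hx
    obtain ⟨r', hr', rfl⟩ := Finset.mem_image.1 hy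
    rw [abs_dvd]
    have e1 := (mem_dioS.1 (hA hr)).2
    have e2 := (mem_dioS.1 (hA hr')).2
    have e3 : g * (p0 * (r.2 - r'.2)) = g * (q0 * (r.1 - r'.1)) := by
      rw [hp0, hq0] at e1 e2
      linear_combination e1 - e2
    have e4 := mul_left_cancel₀ hg e3
    have e5 : p0 ∣ q0 * (r.1 - r'.1) := ⟨_, e4.symm⟩
    exact Int.dvd_of_dvd_mul_right_of_gcd_one e5 hco

theorem dio_gcd (p q : ℤ) (hp : p ≠ 0) : ∃ p0 q0 : ℤ, Int.gcd p0 q0 = 1 ∧
    p = p0 * (Int.gcd p q : ℤ) ∧ q = q0 * (Int.gcd p q : ℤ) ∧ 0 < (Int.gcd p q : ℤ) := by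
  have hpos : 0 < Int.gcd p q := Int.gcd_pos_of_ne_zero_left q hp
  obtain ⟨p0, q0, h1, h2, h3⟩ := Int.exists_gcd_one hpos
  exact ⟨p0, q0, h1, h2, h3, by exact_mod_cast hpos⟩

theorem LN_le (p q t w1 w2 s1 s2 : ℤ) (hp : p ≠ 0) (hq : q ≠ 0) (hs : s1 ≤ s2 + 1) :
    (LN p q t w1 w2 s1 s2 : ℝ) ≤
      ((s2 : ℝ) - s1 + 1) * (Int.gcd p q : ℝ) / |(q : ℝ)| + 1 := by
  obtain ⟨p0, q0, hco, hp0, hq0, hg⟩ := dio_gcd p q hp
  have h1 := dio_projS (t := t) (w1 := w1) (w2 := w2) (s1 := s1) (s2 := s2) hq p0 q0 _ hg.ne'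
    hp0 hq0 hco (dioS p q t w1 w2 s1 s2) (Finset.Subset.refl _) s1 s2 hs
    (fun r hr => (mem_dioS.1 hr).1.2)
  have hgR : (0 : ℝ) < (Int.gcd p q : ℝ) := by exact_mod_cast hg
  have hq00 : q0 ≠ 0 := by
    rintro rfl
    exact hq (by rw [hq0, zero_mul])
  have hq0R : (0 : ℝ) < |(q0 : ℝ)| := abs_pos.2 (by exact_mod_cast hq00)
  have hqR : |(q : ℝ)| = |(q0 : ℝ)| * (Int.gcd p q : ℝ) := by
    have e : (q : ℝ) = (q0 : ℝ) * (Int.gcd p q : ℝ) := by exact_mod_cast hq0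
    rw [e, abs_mul, abs_of_pos hgR]
  have h2 : ((s2 : ℝ) - s1 + 1) * (Int.gcd p q : ℝ) / |(q : ℝ)| =
      ((s2 : ℝ) - s1 + 1) / |(q0 : ℝ)| := by
    rw [hqR]
    field_simp
  rw [h2]
  exact h1

/-- a small solution of `p0 s - q0 w = τ0` -/
theorem dio_bezout (p0 q0 τ0 : ℤ) (hp : p0 ≠ 0) (hco : Int.gcd p0 q0 = 1) :
    ∃ w s : ℤ, p0 * s - q0 * w = τ0 ∧ 0 ≤ w ∧ w < |p0| := by
  obtain ⟨u, v, huv⟩ := Int.isCoprime_iff_gcd_eq_one.2 hco
  have h1 := Int.emod_add_mul_ediv (-τ0 * v) |p0|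
  have h2 := Int.emod_nonneg (-τ0 * v) (abs_ne_zero.2 hp)
  have h3 := Int.emod_lt_of_pos (-τ0 * v) (abs_pos.2 hp)
  obtain ⟨k, hk⟩ : p0 ∣ |p0| * ((-τ0 * v) / |p0|) := (self_dvd_abs p0).mul_right _
  refine ⟨(-τ0 * v) % |p0|, τ0 * u - q0 * k, ?_, h2, h3⟩
  have h4 : (-τ0 * v) % |p0| = -τ0 * v - p0 * k := by linarith
  rw [h4]
  linear_combination τ0 * huv

theorem LN_shift (p q t τ w1 w2 s1 s2 : ℤ) (hp : p ≠ 0) (hq : q ≠ 0) (hτ : 0 ≤ τ)
    (hg : (Int.gcd p q : ℤ) ∣ τ) :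
    (LN p q t w1 w2 s1 s2 : ℝ) ≤ (LN p q (t + τ) w1 w2 s1 s2 : ℝ) + 3 +
      (Int.gcd p q : ℝ) * τ / (|(p : ℝ)| * |(q : ℝ)|) := by
  classical
  obtain ⟨p0, q0, hco, hp0, hq0, hgpos⟩ := dio_gcd p q hp
  set g : ℕ := Int.gcd p q with hgdef
  obtain ⟨τ0, hτ0⟩ := hg
  have hp00 : p0 ≠ 0 := by
    rintro rfl
    exact hp (by rw [hp0, zero_mul])
  have hq00 : q0 ≠ 0 := by
    rintro rfl
    exact hq (by rw [hq0, zero_mul])
  obtain ⟨w, s, hws, hw0, hw1⟩ := dio_bezout p0 q0 τ0 hp00 hco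
  have hsol : p * s - q * w = τ := by
    rw [hp0, hq0, hτ0]
    linear_combination (g : ℤ) * hws
  -- real quantities
  have hgR : (0 : ℝ) < (g : ℝ) := by exact_mod_cast hgpos
  have hq0R : (0 : ℝ) < |(q0 : ℝ)| := abs_pos.2 (by exact_mod_cast hq00)
  have hp0R : (0 : ℝ) < |(p0 : ℝ)| := abs_pos.2 (by exact_mod_cast hp00)
  have hqR : |(q : ℝ)| = |(q0 : ℝ)| * (g : ℝ) := by
    have e : (q : ℝ) = (q0 : ℝ) * (g : ℝ) := by exact_mod_cast hq0
    rw [e, abs_mul, abs_of_pos hgR]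
  have hpR : |(p : ℝ)| = |(p0 : ℝ)| * (g : ℝ) := by
    have e : (p : ℝ) = (p0 : ℝ) * (g : ℝ) := by exact_mod_cast hp0
    rw [e, abs_mul, abs_of_pos hgR]
  have hτR : (0 : ℝ) ≤ (τ : ℝ) := by exact_mod_cast hτ
  have hsR : |(s : ℝ)| / |(q0 : ℝ)| ≤ (g : ℝ) * τ / (|(p : ℝ)| * |(q : ℝ)|) + 1 := by
    have e1 : |(p : ℝ)| * |(s : ℝ)| ≤ τ + |(q : ℝ)| * |(p0 : ℝ)| := by
      have e2 : (p : ℝ) * s = τ + q * w := by
        have : p * s = τ + q * w := by linarith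
        exact_mod_cast this
      have e3 : |(w : ℝ)| ≤ |(p0 : ℝ)| := by
        have e4 : |w| ≤ |p0| := by
          rw [abs_of_nonneg hw0]
          exact hw1.le
        exact_mod_cast e4
      calc |(p : ℝ)| * |(s : ℝ)| = |(τ : ℝ) + q * w| := by rw [← abs_mul, e2]
        _ ≤ |(τ : ℝ)| + |(q : ℝ) * w| := abs_add_le _ _
        _ = τ + |(q : ℝ)| * |(w : ℝ)| := by rw [abs_of_nonneg hτR, abs_mul]
        _ ≤ τ + |(q : ℝ)| * |(p0 : ℝ)| := by
          have := mul_le_mul_of_nonneg_left e3 (abs_nonneg (q : ℝ))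
          linarith
    rw [div_le_iff₀ hq0R]
    have e5 : ((g : ℝ) * τ / (|(p : ℝ)| * |(q : ℝ)|) + 1) * |(q0 : ℝ)| =
        (τ + |(q : ℝ)| * |(p0 : ℝ)|) / |(p : ℝ)| := by
      rw [hpR, hqR]
      field_simp
    rw [e5, le_div_iff₀ (by rw [hpR]; positivity)]
    linarith
  -- the three parts
  let S := dioS p q t w1 w2 s1 s2
  let A := S.filter fun r => r.1 + w ≤ w2 ∧ s1 ≤ r.2 + s ∧ r.2 + s ≤ s2
  let B := S.filter fun r => w2 < r.1 + w
  let C := S.filter fun r => ¬ (s1 ≤ r.2 + s ∧ r.2 + s ≤ s2)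
  have hcov : S ⊆ A ∪ (B ∪ C) := by
    intro r hr
    simp only [A, B, C, Finset.mem_union, Finset.mem_filter]
    by_cases h1 : w2 < r.1 + w
    · exact Or.inr (Or.inl ⟨hr, h1⟩)
    · by_cases h2 : s1 ≤ r.2 + s ∧ r.2 + s ≤ s2
      · exact Or.inl ⟨hr, not_lt.1 h1, h2.1, h2.2⟩
      · exact Or.inr (Or.inr ⟨hr, h2⟩)
  have hcard : #S ≤ #A + (#B + #C) :=
    (Finset.card_le_card hcov).trans ((Finset.card_union_le _ _).trans
      (Nat.add_le_add_left (Finset.card_union_le _ _) _))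
  have hA : #A ≤ #(dioS p q (t + τ) w1 w2 s1 s2) := by
    apply Finset.card_le_card_of_injOn (fun r => (r.1 + w, r.2 + s))
    · intro r hr
      have hr' : r ∈ A := hr
      simp only [A, Finset.mem_filter] at hr'
      obtain ⟨h1, h2, h3, h4⟩ := hr'
      obtain ⟨⟨⟨h5, h6⟩, h7, h8⟩, h9⟩ := mem_dioS.1 h1
      change (r.1 + w, r.2 + s) ∈ dioS p q (t + τ) w1 w2 s1 s2
      rw [mem_dioS]
      refine ⟨⟨⟨?_, h2⟩, h3, h4⟩, ?_⟩
      · change w1 ≤ r.1 + w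
        linarith
      · change p * (r.2 + s) - q * (r.1 + w) = t + τ
        linear_combination h9 + hsol
    · intro r _ r' _ h
      have h' : (r.1 + w, r.2 + s) = (r'.1 + w, r'.2 + s) := h
      rw [Prod.mk.injEq] at h'
      exact Prod.ext (by linarith [h'.1]) (by linarith [h'.2])
  have hB : #B ≤ 1 := by
    rcases B.eq_empty_or_nonempty with he | hne
    · rw [he, Finset.card_empty]
      exact Nat.zero_le _
    · obtain ⟨r, hr⟩ := hne
      have hr' := hr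
      simp only [B, Finset.mem_filter] at hr'
      have hw2 := (mem_dioS.1 hr'.1).1.1.2
      have h1 := dio_projW (t := t) (w1 := w1) (w2 := w2) (s1 := s1) (s2 := s2) hp p0 q0 _
        hgpos.ne' hp0 hq0 hco B (Finset.filter_subset _ _) (w2 - w + 1) w2 (by linarith) ?_
      · have h2 : (w2 - (w2 - w + 1)) / |p0| ≤ 0 := by
          have h3 : w2 - (w2 - w + 1) < |p0| := by linarith
          rcases le_or_gt 0 (w2 - (w2 - w + 1)) with h4 | h4
          · exact (Int.ediv_eq_zero_of_lt h4 h3).le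
          · exact (Int.ediv_neg_of_neg_of_pos h4 (abs_pos.2 hp00)).le
        have h5 : (#B : ℤ) ≤ 1 := by linarith
        exact_mod_cast h5
      · intro r hr
        simp only [B, Finset.mem_filter] at hr
        have h3 := (mem_dioS.1 hr.1).1.1
        constructor <;> linarith [hr.2, h3.2]
  have hC : (#C : ℝ) ≤ |(s : ℝ)| / |(q0 : ℝ)| + 1 := by
    rcases le_or_gt 0 s with hs0 | hs0
    · have h1 := dio_projS (t := t) (w1 := w1) (w2 := w2) (s1 := s1) (s2 := s2) hq p0 q0 _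
        hgpos.ne' hp0 hq0 hco C (Finset.filter_subset _ _) (s2 - s + 1) s2 (by linarith) ?_
      · rw [abs_of_nonneg (show (0 : ℝ) ≤ (s : ℝ) by exact_mod_cast hs0)]
        have e : ((s2 : ℝ) - ((s2 - s + 1 : ℤ) : ℝ) + 1) = s := by
          push_cast
          ring
        rw [e] at h1
        exact h1
      · intro r hr
        simp only [C, Finset.mem_filter] at hr
        have h3 := (mem_dioS.1 hr.1).1.2
        refine ⟨?_, h3.2⟩
        by_contra hcon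
        exact hr.2 ⟨by linarith [h3.1], by linarith⟩
    · have h1 := dio_projS (t := t) (w1 := w1) (w2 := w2) (s1 := s1) (s2 := s2) hq p0 q0 _
        hgpos.ne' hp0 hq0 hco C (Finset.filter_subset _ _) s1 (s1 - s - 1) (by linarith) ?_
      · rw [abs_of_neg (show (s : ℝ) < 0 by exact_mod_cast hs0)]
        have e : (((s1 - s - 1 : ℤ) : ℝ) - (s1 : ℝ) + 1) = -s := by
          push_cast
          ring
        rw [e] at h1
        exact h1
      · intro r hr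
        simp only [C, Finset.mem_filter] at hr
        have h3 := (mem_dioS.1 hr.1).1.2
        refine ⟨h3.1, ?_⟩
        by_contra hcon
        exact hr.2 ⟨by linarith, by linarith [h3.2]⟩
  have hAR : (#A : ℝ) ≤ (#(dioS p q (t + τ) w1 w2 s1 s2) : ℝ) := by exact_mod_cast hA
  have hBR : (#B : ℝ) ≤ 1 := by exact_mod_cast hB
  have hcR : (#S : ℝ) ≤ #A + (#B + #C) := by exact_mod_cast hcard
  change (#S : ℝ) ≤ (#(dioS p q (t + τ) w1 w2 s1 s2) : ℝ) + 3 + _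
  linarith

end Pool.Agent.H33.AA
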