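import Pool.Agent.H33.AA.Root
import Pool.Agent.H14.PT.Div

/-!
# Job AA-DIV: average of `∑_{d ∣ k⁴ - l⁴, d > D} 1/d` over `k` (~150 lines)

`Pool.Agent.H14.PT.divisor_bound` (check the exact namespace): for `η > 0` there is `C ≥ 1` with
`τ(n) ≤ C n^η` for all `n ≠ 0`.

Exchange the sums and split at `d ≤ Y` / `d > Y`.
(1) `D < d ≤ Y`: `#{k ∈ [1,Y] : d ∣ k⁴ - l⁴} ≤ (Y/d + 1) · #{k ∈ [0,d) : d ∣ k⁴ - l⁴} ≤
 (2Y/d) τ(d)² d^{3/4}` (`root4`; the condition is periodic mod `d`).  With `τ(d) ≤ C₁ d^{1/16}` the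
 contribution is `≤ ∑_{d > D} (1/d)(2Y/d) C₁² d^{1/8} d^{3/4} = 2 C₁² Y ∑_{d > D} d^{-9/8} ≤
 18 C₁² Y (D+1)^{-1/8}`
 (`∑_{d ≥ D+1} d^{-9/8} ≤ (D+1)^{-9/8} + ∫_{D+1}^∞ x^{-9/8} dx ≤ 9 (D+1)^{-1/8}`; an elementary way:
 `d^{-9/8} ≤ 9 (d^{-1/8} - (d+1)^{-1/8}) · 2` telescopes, any constant is fine).
(2) `d > Y`: for `k ≠ l`, `k, l ∈ [1,Y]`, `n = k⁴ - l⁴ ≠ 0`, `|n| ≤ Y⁴`, so
 `∑_{d ∣ n, d > Y} 1/d ≤ τ(|n|)/Y ≤ C₂ (Y⁴)^{1/8}/Y = C₂ Y^{-1/2}`; sum over `k ≤ Y`.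
-/

set_option autoImplicit false

namespace Pool.Agent.H33.AA

open Finset

theorem dv_step (d : ℕ) (hd : 0 < d) : (d : ℝ) ^ (-(9 / 8) : ℝ) ≤
    16 * ((d : ℝ) ^ (-(1 / 8) : ℝ) - ((d : ℝ) + 1) ^ (-(1 / 8) : ℝ)) := by
  have hdR : (0 : ℝ) < d := by exact_mod_cast hd
  have hd1 : (1 : ℝ) ≤ d := by exact_mod_cast hd
  set a := (d : ℝ) ^ (-(1 / 8) : ℝ) with ha
  set b := ((d : ℝ) + 1) ^ (-(1 / 8) : ℝ) with hb
  have ha0 : 0 < a := Real.rpow_pos_of_pos hdR _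
  have hb0 : 0 < b := Real.rpow_pos_of_pos (by linarith) _
  have ha8 : a ^ 8 = (d : ℝ)⁻¹ := by
    rw [ha, ← Real.rpow_natCast, ← Real.rpow_mul hdR.le, ← Real.rpow_neg_one]
    norm_num
  have hb8 : b ^ 8 = ((d : ℝ) + 1)⁻¹ := by
    rw [hb, ← Real.rpow_natCast, ← Real.rpow_mul (by linarith), ← Real.rpow_neg_one]
    norm_num
  have h9 : (d : ℝ) ^ (-(9 / 8) : ℝ) = a * (d : ℝ)⁻¹ := by
    rw [ha, ← Real.rpow_neg_one, ← Real.rpow_add hdR]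
    norm_num
  set w : ℝ := (d : ℝ)⁻¹ with hw
  have hw0 : 0 < w := inv_pos.2 hdR
  have hw1 : w ≤ 1 := inv_le_one_of_one_le₀ hd1
  have hwd : w * d = 1 := inv_mul_cancel₀ hdR.ne'
  have h1 : 1 - w / 2 ≤ (1 - w / 16) ^ 8 := by
    have := one_add_mul_le_pow (a := -(w / 16)) (by linarith) 8
    have h2 : (1 : ℝ) + ((8 : ℕ) : ℝ) * -(w / 16) = 1 - w / 2 := by push_cast; ring
    have h3 : (1 : ℝ) + -(w / 16) = 1 - w / 16 := by ring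
    rw [h2, h3] at this
    exact this
  have h2 : ((d : ℝ) + 1)⁻¹ ≤ w * (1 - w / 2) := by
    rw [inv_le_iff_one_le_mul₀ (by linarith)]
    nlinarith
  have h3 : b ^ 8 ≤ (a * (1 - w / 16)) ^ 8 := by
    rw [hb8, mul_pow, ha8]
    exact h2.trans (mul_le_mul_of_nonneg_left h1 hw0.le)
  have h4 : b ≤ a * (1 - w / 16) :=
    le_of_pow_le_pow_left₀ (by norm_num) (mul_nonneg ha0.le (by linarith)) h3
  rw [h9]
  linarith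

theorem dv_tail (D : ℕ) : ∀ Y : ℕ, D ≤ Y → ∑ d ∈ Ioc D Y, (d : ℝ) ^ (-(9 / 8) : ℝ) ≤
    16 * (((D : ℝ) + 1) ^ (-(1 / 8) : ℝ) - ((Y : ℝ) + 1) ^ (-(1 / 8) : ℝ)) := by
  intro Y hY
  induction Y, hY using Nat.le_induction with
  | base => simp
  | succ Y hY ih =>
    have h1 : Ioc D (Y + 1) = insert (Y + 1) (Ioc D Y) := by
      ext x
      simp only [mem_Ioc, mem_insert]
      omega
    rw [h1, sum_insert (by simp)]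
    have h2 := dv_step (Y + 1) (Nat.succ_pos Y)
    push_cast at h2 ⊢
    linarith

theorem dv_tail' (D Y : ℕ) : ∑ d ∈ Ioc D Y, (d : ℝ) ^ (-(9 / 8) : ℝ) ≤
    16 * ((D : ℝ) + 1) ^ (-(1 / 8) : ℝ) := by
  rcases le_total D Y with h | h
  · have h1 := dv_tail D Y h
    have h2 : 0 ≤ ((Y : ℝ) + 1) ^ (-(1 / 8) : ℝ) := by positivity
    linarith
  · rw [Ioc_eq_empty (by simpa using h), sum_empty]
    positivity

theorem dv_count (Y d : ℕ) (hd : 0 < d) (l : ℤ) :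
    #((Icc 1 Y).filter (fun k : ℕ => (d : ℤ) ∣ (k : ℤ) ^ 4 - l ^ 4)) ≤
      #((range d).filter (fun k : ℕ => (d : ℤ) ∣ (k : ℤ) ^ 4 - l ^ 4)) * (Y / d + 1) := by
  have h1 : #((Icc 1 Y).filter (fun k : ℕ => (d : ℤ) ∣ (k : ℤ) ^ 4 - l ^ 4)) ≤
      #(((range d).filter (fun k : ℕ => (d : ℤ) ∣ (k : ℤ) ^ 4 - l ^ 4)) ×ˢ range (Y / d + 1)) := by
    refine Finset.card_le_card_of_injOn (fun k => (k % d, k / d)) ?_ ?_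
    · intro x hx
      rw [mem_coe, mem_filter, mem_Icc] at hx
      simp only [coe_product, Set.mem_prod, mem_coe, mem_filter, mem_range]
      refine ⟨⟨Nat.mod_lt _ hd, ?_⟩, Nat.lt_succ_of_le (Nat.div_le_div_right hx.1.2)⟩
      have h3 : (d : ℤ) ∣ (x : ℤ) - ((x % d : ℕ) : ℤ) := by
        have h4 : (x : ℤ) - ((x % d : ℕ) : ℤ) = (d : ℤ) * ((x / d : ℕ) : ℤ) := by
          have := Nat.div_add_mod x d
          have h5 : (d : ℤ) * ((x / d : ℕ) : ℤ) + ((x % d : ℕ) : ℤ) = (x : ℤ) := by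
            exact_mod_cast this
          linarith
        rw [h4]
        exact dvd_mul_right _ _
      have h4 : (d : ℤ) ∣ (x : ℤ) ^ 4 - ((x % d : ℕ) : ℤ) ^ 4 :=
        h3.trans (sub_dvd_pow_sub_pow _ _ 4)
      have h6 : ((x % d : ℕ) : ℤ) ^ 4 - l ^ 4 = ((x : ℤ) ^ 4 - l ^ 4) -
          ((x : ℤ) ^ 4 - ((x % d : ℕ) : ℤ) ^ 4) := by ring
      rw [h6]
      exact dvd_sub hx.2 h4
    · intro x _ y _ hxy
      have hxy' := Prod.mk.inj hxy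
      rw [← Nat.div_add_mod x d, ← Nat.div_add_mod y d, hxy'.1, hxy'.2]
  rwa [card_product, card_range] at h1

theorem dv_small {C₁ : ℝ} (hC₁ : 1 ≤ C₁)
    (h : ∀ n : ℕ, n ≠ 0 → (n.divisors.card : ℝ) ≤ C₁ * (n : ℝ) ^ (1 / 16 : ℝ)) (Y d : ℕ)
    (hd : 0 < d) (hdY : d ≤ Y) (l : ℤ) :
    (1 : ℝ) / d * #((Icc 1 Y).filter (fun k : ℕ => (d : ℤ) ∣ (k : ℤ) ^ 4 - l ^ 4)) ≤
      2 * C₁ ^ 2 * Y * (d : ℝ) ^ (-(9 / 8) : ℝ) := by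
  have hdR : (0 : ℝ) < d := by exact_mod_cast hd
  have hYR : (d : ℝ) ≤ Y := by exact_mod_cast hdY
  have h1 : (#((Icc 1 Y).filter (fun k : ℕ => (d : ℤ) ∣ (k : ℤ) ^ 4 - l ^ 4)) : ℝ) ≤
      #((range d).filter (fun k : ℕ => (d : ℤ) ∣ (k : ℤ) ^ 4 - l ^ 4)) * ((Y / d : ℕ) + 1) := by
    exact_mod_cast dv_count Y d hd l
  have h2 := root4 d hd l
  have h3 := h d hd.ne'
  have h4 : (((Y / d : ℕ) : ℝ) + 1) ≤ 2 * (Y / d) := by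
    have h5 : ((Y / d : ℕ) : ℝ) ≤ (Y : ℝ) / d := Nat.cast_div_le
    have h6 : (1 : ℝ) ≤ (Y : ℝ) / d := (one_le_div₀ hdR).2 hYR
    linarith
  have h5 : (d.divisors.card : ℝ) ^ 2 ≤ C₁ ^ 2 * (d : ℝ) ^ (1 / 8 : ℝ) := by
    have h6 : (d.divisors.card : ℝ) ^ 2 ≤ (C₁ * (d : ℝ) ^ (1 / 16 : ℝ)) ^ 2 :=
      pow_le_pow_left₀ (by positivity) h3 2
    have h7 : ((d : ℝ) ^ (1 / 16 : ℝ)) ^ 2 = (d : ℝ) ^ (1 / 8 : ℝ) := by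
      rw [← Real.rpow_natCast, ← Real.rpow_mul hdR.le]
      norm_num
    rwa [mul_pow, h7] at h6
  have h6 : (#((range d).filter (fun k : ℕ => (d : ℤ) ∣ (k : ℤ) ^ 4 - l ^ 4)) : ℝ) ≤
      C₁ ^ 2 * (d : ℝ) ^ (1 / 8 : ℝ) * (d : ℝ) ^ (3 / 4 : ℝ) :=
    h2.trans (mul_le_mul_of_nonneg_right h5 (by positivity))
  have h7 : (#((Icc 1 Y).filter (fun k : ℕ => (d : ℤ) ∣ (k : ℤ) ^ 4 - l ^ 4)) : ℝ) ≤
      C₁ ^ 2 * (d : ℝ) ^ (1 / 8 : ℝ) * (d : ℝ) ^ (3 / 4 : ℝ) * (2 * (Y / d)) :=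
    h1.trans (mul_le_mul h6 h4 (by positivity) (by positivity))
  have h8 : (d : ℝ) ^ (-(9 / 8) : ℝ) = (d : ℝ) ^ (1 / 8 : ℝ) * (d : ℝ) ^ (3 / 4 : ℝ) *
      ((d : ℝ)⁻¹ * (d : ℝ)⁻¹) := by
    rw [← Real.rpow_neg_one, ← Real.rpow_add hdR, ← Real.rpow_add hdR, ← Real.rpow_add hdR]
    norm_num
  calc (1 : ℝ) / d * #((Icc 1 Y).filter (fun k : ℕ => (d : ℤ) ∣ (k : ℤ) ^ 4 - l ^ 4))
      ≤ 1 / d * (C₁ ^ 2 * (d : ℝ) ^ (1 / 8 : ℝ) * (d : ℝ) ^ (3 / 4 : ℝ) * (2 * (Y / d))) :=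
        mul_le_mul_of_nonneg_left h7 (by positivity)
    _ = 2 * C₁ ^ 2 * Y * (d : ℝ) ^ (-(9 / 8) : ℝ) := by
        rw [h8, one_div, div_eq_mul_inv]
        ring

theorem dv_large {C₂ : ℝ} (hC₂ : 1 ≤ C₂)
    (h : ∀ n : ℕ, n ≠ 0 → (n.divisors.card : ℝ) ≤ C₂ * (n : ℝ) ^ (1 / 8 : ℝ)) (Y l k : ℕ)
    (hl : l ≤ Y) (hk : k ≤ Y) (hY : 0 < Y) (hkl : k ≠ l) (S : Finset ℕ)
    (hS : ∀ d ∈ S, Y < d ∧ (d : ℤ) ∣ (k : ℤ) ^ 4 - (l : ℤ) ^ 4) :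
    ∑ d ∈ S, (1 : ℝ) / d ≤ C₂ * (Y : ℝ) ^ (-(1 / 2) : ℝ) := by
  have hYR : (0 : ℝ) < Y := by exact_mod_cast hY
  set n : ℤ := (k : ℤ) ^ 4 - (l : ℤ) ^ 4 with hn
  have hn0 : n ≠ 0 := by
    intro h0
    apply hkl
    have h1 : (k : ℤ) ^ 4 = (l : ℤ) ^ 4 := by linarith
    have h2 : k ^ 4 = l ^ 4 := by exact_mod_cast h1
    exact Nat.pow_left_injective (by norm_num : (4 : ℕ) ≠ 0) h2
  have hnY : n.natAbs ≤ Y ^ 4 := by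
    have h1 : k ^ 4 ≤ Y ^ 4 := Nat.pow_le_pow_left hk 4
    have h2 : l ^ 4 ≤ Y ^ 4 := Nat.pow_le_pow_left hl 4
    have h3 : n = ((k ^ 4 : ℕ) : ℤ) - ((l ^ 4 : ℕ) : ℤ) := by rw [hn]; push_cast; ring
    rw [h3]
    omega
  have h1 : ∑ d ∈ S, (1 : ℝ) / d ≤ ∑ _d ∈ S, (Y : ℝ)⁻¹ := by
    refine Finset.sum_le_sum fun d hd => ?_
    rw [one_div]
    have h2 : (Y : ℝ) ≤ d := by exact_mod_cast (hS d hd).1.le
    exact inv_anti₀ hYR h2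
  have h2 : S ⊆ n.natAbs.divisors := by
    intro d hd
    rw [Nat.mem_divisors]
    exact ⟨Int.natCast_dvd.1 (hS d hd).2, Int.natAbs_ne_zero.2 hn0⟩
  have h3 : (S.card : ℝ) ≤ C₂ * ((Y : ℝ) ^ (1 / 2 : ℝ)) := by
    have h4 : (S.card : ℝ) ≤ n.natAbs.divisors.card := by exact_mod_cast Finset.card_le_card h2
    refine h4.trans ((h _ (Int.natAbs_ne_zero.2 hn0)).trans ?_)
    have h5 : ((n.natAbs : ℕ) : ℝ) ≤ (Y : ℝ) ^ 4 := by exact_mod_cast hnY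
    have h6 : ((n.natAbs : ℕ) : ℝ) ^ (1 / 8 : ℝ) ≤ ((Y : ℝ) ^ 4) ^ (1 / 8 : ℝ) :=
      Real.rpow_le_rpow (by positivity) h5 (by norm_num)
    have h7 : ((Y : ℝ) ^ 4) ^ (1 / 8 : ℝ) = (Y : ℝ) ^ (1 / 2 : ℝ) := by
      rw [← Real.rpow_natCast, ← Real.rpow_mul hYR.le]
      norm_num
    rw [h7] at h6
    exact mul_le_mul_of_nonneg_left h6 (by linarith)
  have h8 : (Y : ℝ) ^ (-(1 / 2) : ℝ) = (Y : ℝ) ^ (1 / 2 : ℝ) * (Y : ℝ)⁻¹ := by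
    rw [← Real.rpow_neg_one, ← Real.rpow_add hYR]
    norm_num
  rw [h8, ← mul_assoc]
  refine h1.trans ?_
  rw [Finset.sum_const, nsmul_eq_mul]
  exact mul_le_mul_of_nonneg_right h3 (by positivity)

theorem div_sum : ∃ C : ℝ, 0 < C ∧ ∀ Y D Z l : ℕ, 1 ≤ l → l ≤ Y →
    ∑ k ∈ (Icc 1 Y).erase l,
      ∑ d ∈ (Ioc D Z).filter (fun d : ℕ => (d : ℤ) ∣ (k : ℤ) ^ 4 - (l : ℤ) ^ 4), (1 : ℝ) / d ≤
    C * Y * (((D : ℝ) + 1) ^ (-(1 / 8) : ℝ) + (Y : ℝ) ^ (-(1 / 2) : ℝ)) := by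
  obtain ⟨C₁, hC₁, h16⟩ := Pool.Agent.H14.PT.divisor_bound (1 / 16) (by norm_num)
  obtain ⟨C₂, hC₂, h8⟩ := Pool.Agent.H14.PT.divisor_bound (1 / 8) (by norm_num)
  refine ⟨32 * C₁ ^ 2 + C₂, by positivity, ?_⟩
  intro Y D Z l hl1 hlY
  have hY : 0 < Y := by omega
  have hYR : (0 : ℝ) < Y := by exact_mod_cast hY
  set P : ℕ → ℕ → Prop := fun k d => (d : ℤ) ∣ (k : ℤ) ^ 4 - (l : ℤ) ^ 4 with hP
  classical
  -- split every inner sum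
  have hsplit : ∀ k ∈ (Icc 1 Y).erase l,
      ∑ d ∈ (Ioc D Z).filter (fun d : ℕ => P k d), (1 : ℝ) / d ≤
        ∑ d ∈ Ioc D Y, (if P k d then (1 : ℝ) / d else 0) + C₂ * (Y : ℝ) ^ (-(1 / 2) : ℝ) := by
    intro k hk
    rw [mem_erase, mem_Icc] at hk
    rw [← Finset.sum_filter_add_sum_filter_not ((Ioc D Z).filter (fun d : ℕ => P k d))
      (fun d => d ≤ Y)]
    refine add_le_add ?_ ?_
    · rw [← Finset.sum_filter]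
      refine Finset.sum_le_sum_of_subset_of_nonneg ?_ (fun d _ _ => by positivity)
      intro d hd
      simp only [mem_filter, mem_Ioc] at hd ⊢
      exact ⟨⟨hd.1.1.1, hd.2⟩, hd.1.2⟩
    · refine dv_large hC₂ h8 Y l k hlY hk.2.2 hY hk.1 _ ?_
      intro d hd
      simp only [mem_filter, mem_Ioc] at hd
      exact ⟨not_le.1 hd.2, hd.1.2⟩
  have h1 := Finset.sum_le_sum hsplit
  refine h1.trans ?_
  rw [Finset.sum_add_distrib, Finset.sum_comm]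
  have h2 : ∑ d ∈ Ioc D Y, ∑ k ∈ (Icc 1 Y).erase l, (if P k d then (1 : ℝ) / d else 0) ≤
      ∑ d ∈ Ioc D Y, 2 * C₁ ^ 2 * Y * (d : ℝ) ^ (-(9 / 8) : ℝ) := by
    refine Finset.sum_le_sum fun d hd => ?_
    rw [mem_Ioc] at hd
    refine le_trans ?_ (dv_small hC₁ h16 Y d (by omega) hd.2 l)
    rw [← Finset.sum_filter, Finset.sum_const, nsmul_eq_mul, mul_comm]
    refine mul_le_mul_of_nonneg_left ?_ (by positivity)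
    have h3 : ((Icc 1 Y).erase l).filter (fun k => P k d) ⊆
        (Icc 1 Y).filter (fun k : ℕ => (d : ℤ) ∣ (k : ℤ) ^ 4 - (l : ℤ) ^ 4) :=
      Finset.filter_subset_filter _ (Finset.erase_subset _ _)
    exact_mod_cast Finset.card_le_card h3
  have h3 : ∑ _k ∈ (Icc 1 Y).erase l, C₂ * (Y : ℝ) ^ (-(1 / 2) : ℝ) ≤
      Y * (C₂ * (Y : ℝ) ^ (-(1 / 2) : ℝ)) := by
    rw [Finset.sum_const, nsmul_eq_mul]
    refine mul_le_mul_of_nonneg_right ?_ (by positivity)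
    have h4 : ((Icc 1 Y).erase l).card ≤ Y := by
      refine (Finset.card_le_card (Finset.erase_subset _ _)).trans ?_
      rw [Nat.card_Icc]
      omega
    exact_mod_cast h4
  rw [← Finset.mul_sum] at h2
  have h4 := dv_tail' D Y
  have h5 : 2 * C₁ ^ 2 * Y * ∑ d ∈ Ioc D Y, (d : ℝ) ^ (-(9 / 8) : ℝ) ≤
      2 * C₁ ^ 2 * Y * (16 * ((D : ℝ) + 1) ^ (-(1 / 8) : ℝ)) :=
    mul_le_mul_of_nonneg_left h4 (by positivity)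
  have h6 : 0 ≤ C₂ * Y * ((D : ℝ) + 1) ^ (-(1 / 8) : ℝ) := by positivity
  have h7 : 0 ≤ 32 * C₁ ^ 2 * Y * (Y : ℝ) ^ (-(1 / 2) : ℝ) := by positivity
  nlinarith

end Pool.Agent.H33.AA
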