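import Pool.Agent.H33.AA.Defs
import Pool.Agent.H33.AA.DivSum

/-!
# Job AA-DIVF: the divisor average for the shifts of a family (~150 lines)

`F.h` is strictly increasing on `ℕ` (all coefficients `h1..h4 ≥ 0`, `h4 ≥ 1`: from `e1..e4`), so the sum
over `HH F X` is a sum over `k, l < X²`, `k ≠ l`.  With `k' = k0 + m k`, `l' = k0 + m l` (distinct, in
`[1, Y]`, `Y = k0 + m X²`), `e1..e4` give `M (h k - h l) = nu (k'⁴ - l'⁴)`.
If `d ∣ h k - h l` then `d ∣ nu · n`, `n = k'⁴ - l'⁴`; put `g = gcd(d, nu)`, `d' = d/g`: `d' ∣ n`, `g ∣ nu`,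
`d' ≥ d/nu > D/nu` so `d' > ⌊D/nu⌋`, `d' ≤ Z`, and `d ↦ (g, d')` is injective, `1/d = 1/(g d') ≤ 1/d'`.
Hence `∑_{d ∈ (D,Z], d ∣ h k - h l} 1/d ≤ nu ∑_{d' ∈ (⌊D/nu⌋, Z], d' ∣ n} 1/d'` (at most `nu` values of
`g`).  Now `div_sum` for each `l`; `(⌊D/nu⌋ + 1)^{-1/8} ≤ ((D+1)/nu)^{-1/8} = nu^{1/8} (D+1)^{-1/8}`,
`Y ≤ (k0 + m) X²`, `Y^{-1/2} ≤ X^{-1}` as `Y ≥ X²`.  Sum over the `X²` values of `l`.
-/

set_option autoImplicit false

namespace Pool.Agent.H33.AA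

open Finset

theorem divFam_inj (F : Fam) (h : ∀ k l : ℤ, 0 ≤ k → k < l → F.h k < F.h l) :
    Function.Injective (fun k : ℕ => F.h k) := by
  intro a b hab
  rcases lt_trichotomy a b with h1 | h1 | h1
  · have := h a b (by positivity) (by exact_mod_cast h1)
    exact absurd hab this.ne
  · exact h1
  · have := h b a (by positivity) (by exact_mod_cast h1)
    exact absurd hab this.ne'

theorem h_facts (F : Fam) (hF : F.Ok) :
    (0 ≤ F.h1 ∧ 0 ≤ F.h2 ∧ 0 ≤ F.h3 ∧ 1 ≤ F.h4) ∧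
    (∀ k l : ℤ, 0 ≤ k → k < l → F.h k < F.h l) ∧
    (∀ k : ℤ, F.M * F.h k = F.nu * ((F.k0 + F.m * k) ^ 4 - F.k0 ^ 4)) ∧
    (∀ X : ℕ, 1 ≤ X → ∀ h ∈ F.HH X, 0 ≤ h ∧ h ≤ F.C ^ 2 * (X : ℤ) ^ 8) ∧
    (∀ X : ℕ, #(F.HH X) = X ^ 2) := by
  have hM := hF.hM
  have hk := hF.hk
  have hm := hF.hm
  have hnu := hF.hnu
  have key : ∀ a b : ℤ, 0 < b → F.M * a = b → 0 < a := by
    intro a b hb hab
    by_contra hcon
    push Not at hcon
    nlinarith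
  have a1 : 0 < F.h1 := key _ _ (by positivity) hF.e1
  have a2 : 0 < F.h2 := key _ _ (by positivity) hF.e2
  have a3 : 0 < F.h3 := key _ _ (by positivity) hF.e3
  have a4 : 0 < F.h4 := key _ _ (by positivity) hF.e4
  have hmono : ∀ k l : ℤ, 0 ≤ k → k < l → F.h k < F.h l := by
    intro k l hk0 hkl
    have p2 : k ^ 2 ≤ l ^ 2 := pow_le_pow_left₀ hk0 hkl.le 2
    have p3 : k ^ 3 ≤ l ^ 3 := pow_le_pow_left₀ hk0 hkl.le 3
    have p4 : k ^ 4 ≤ l ^ 4 := pow_le_pow_left₀ hk0 hkl.le 4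
    have q1 : F.h1 * k < F.h1 * l := mul_lt_mul_of_pos_left hkl a1
    have q2 : F.h2 * k ^ 2 ≤ F.h2 * l ^ 2 := mul_le_mul_of_nonneg_left p2 a2.le
    have q3 : F.h3 * k ^ 3 ≤ F.h3 * l ^ 3 := mul_le_mul_of_nonneg_left p3 a3.le
    have q4 : F.h4 * k ^ 4 ≤ F.h4 * l ^ 4 := mul_le_mul_of_nonneg_left p4 a4.le
    unfold Fam.h
    linarith
  refine ⟨⟨a1.le, a2.le, a3.le, a4⟩, hmono, ?_, ?_, ?_⟩
  · intro k
    unfold Fam.h
    linear_combination k * hF.e1 + k ^ 2 * hF.e2 + k ^ 3 * hF.e3 + k ^ 4 * hF.e4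
  · intro X hX h hh
    unfold Fam.HH at hh
    rw [mem_image] at hh
    obtain ⟨k, hk1, rfl⟩ := hh
    rw [mem_range] at hk1
    have hk0 : (0 : ℤ) ≤ (k : ℤ) := by positivity
    have hX1 : (1 : ℤ) ≤ (X : ℤ) := by exact_mod_cast hX
    have hkX : (k : ℤ) ≤ (X : ℤ) ^ 2 := by exact_mod_cast hk1.le
    have b1 : (k : ℤ) ≤ (X : ℤ) ^ 8 := hkX.trans (pow_le_pow_right₀ hX1 (by norm_num))
    have b2 : (k : ℤ) ^ 2 ≤ (X : ℤ) ^ 8 := by
      calc (k : ℤ) ^ 2 ≤ ((X : ℤ) ^ 2) ^ 2 := pow_le_pow_left₀ hk0 hkX 2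
        _ = (X : ℤ) ^ 4 := by ring
        _ ≤ _ := pow_le_pow_right₀ hX1 (by norm_num)
    have b3 : (k : ℤ) ^ 3 ≤ (X : ℤ) ^ 8 := by
      calc (k : ℤ) ^ 3 ≤ ((X : ℤ) ^ 2) ^ 3 := pow_le_pow_left₀ hk0 hkX 3
        _ = (X : ℤ) ^ 6 := by ring
        _ ≤ _ := pow_le_pow_right₀ hX1 (by norm_num)
    have b4 : (k : ℤ) ^ 4 ≤ (X : ℤ) ^ 8 := by
      calc (k : ℤ) ^ 4 ≤ ((X : ℤ) ^ 2) ^ 4 := pow_le_pow_left₀ hk0 hkX 4
        _ = (X : ℤ) ^ 8 := by ring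
    have c1 := mul_le_mul_of_nonneg_left b1 a1.le
    have c2 := mul_le_mul_of_nonneg_left b2 a2.le
    have c3 := mul_le_mul_of_nonneg_left b3 a3.le
    have c4 := mul_le_mul_of_nonneg_left b4 a4.le
    have hC1 : F.h1 + F.h2 + F.h3 + F.h4 ≤ F.C := by
      have := hF.hb
      have := hF.hc
      have := hF.he
      have := hF.hu
      unfold Fam.C
      linarith
    have hC2 : 1 ≤ F.C := by linarith
    have hX8 : (0 : ℤ) ≤ (X : ℤ) ^ 8 := by positivity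
    constructor
    · unfold Fam.h
      positivity
    · calc F.h (k : ℤ) ≤ (F.h1 + F.h2 + F.h3 + F.h4) * (X : ℤ) ^ 8 := by
            unfold Fam.h
            linarith
        _ ≤ F.C * (X : ℤ) ^ 8 := mul_le_mul_of_nonneg_right hC1 hX8
        _ ≤ F.C ^ 2 * (X : ℤ) ^ 8 := by
            apply mul_le_mul_of_nonneg_right _ hX8
            nlinarith
  · intro X
    unfold Fam.HH
    rw [card_image_of_injective _ (divFam_inj F hmono), card_range]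

/-- the sum over the divisors of `M a = nu n` against divisors of `n` -/
theorem divFam_pair (nu : ℕ) (hnu : 1 ≤ nu) (a M n : ℤ) (h : M * a = nu * n) (D Z : ℕ) :
    ∑ d ∈ (Ioc D Z).filter (fun d : ℕ => (d : ℤ) ∣ a), (1 : ℝ) / d ≤
      nu * ∑ d ∈ (Ioc (D / nu) Z).filter (fun d : ℕ => (d : ℤ) ∣ n), (1 : ℝ) / d := by
  set T := (Ioc (D / nu) Z).filter (fun d : ℕ => (d : ℤ) ∣ n) with hT
  have hex : ∀ d ∈ (Ioc D Z).filter (fun d : ℕ => (d : ℤ) ∣ a),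
      ∃ p : ℕ × ℕ, p ∈ Icc 1 nu ×ˢ T ∧ p.1 * p.2 = d := by
    intro d hd
    rw [mem_filter, mem_Ioc] at hd
    obtain ⟨⟨hd1, hd2⟩, hd3⟩ := hd
    have h1 : (d : ℤ) ∣ (nu : ℤ) * n := by
      rw [← h]
      exact dvd_mul_of_dvd_right hd3 M
    have h2 : d ∣ nu * n.natAbs := by
      have := Int.natAbs_dvd_natAbs.2 h1
      rwa [Int.natAbs_natCast, Int.natAbs_mul, Int.natAbs_natCast] at this
    rw [Nat.dvd_mul] at h2
    obtain ⟨g, d', hg, hd', hgd⟩ := h2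
    have hgn : g ≤ nu := Nat.le_of_dvd hnu hg
    have hg0 : 0 < g := Nat.pos_of_dvd_of_pos hg hnu
    have hd0 : 0 < d' := by
      rcases Nat.eq_zero_or_pos d' with h0 | h0
      · rw [h0, mul_zero] at hgd
        omega
      · exact h0
    refine ⟨(g, d'), ?_, hgd⟩
    rw [mem_product, mem_Icc, hT, mem_filter, mem_Ioc]
    refine ⟨⟨hg0, hgn⟩, ⟨?_, ?_⟩, ?_⟩
    · apply Nat.div_lt_of_lt_mul
      calc D < d := hd1
        _ = g * d' := hgd.symm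
        _ ≤ nu * d' := Nat.mul_le_mul_right _ hgn
    · calc d' = 1 * d' := (one_mul _).symm
        _ ≤ g * d' := Nat.mul_le_mul_right _ hg0
        _ = d := hgd
        _ ≤ Z := hd2
    · exact Int.natCast_dvd.2 hd'
  choose! e he1 he2 using hex
  have hinj : Set.InjOn e ((Ioc D Z).filter (fun d : ℕ => (d : ℤ) ∣ a) : Set ℕ) := by
    intro x hx y hy hxy
    rw [← he2 x hx, ← he2 y hy, hxy]
  calc ∑ d ∈ (Ioc D Z).filter (fun d : ℕ => (d : ℤ) ∣ a), (1 : ℝ) / d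
      ≤ ∑ d ∈ (Ioc D Z).filter (fun d : ℕ => (d : ℤ) ∣ a), (1 : ℝ) / (e d).2 := by
        apply sum_le_sum
        intro d hd
        have h1 := he1 d hd
        rw [mem_product, mem_Icc, hT, mem_filter, mem_Ioc] at h1
        have h2 := he2 d hd
        have h3 : (e d).2 ≤ d := by
          calc (e d).2 = 1 * (e d).2 := (one_mul _).symm
            _ ≤ (e d).1 * (e d).2 := Nat.mul_le_mul_right _ h1.1.1
            _ = d := h2
        have h4 : (0 : ℝ) < ((e d).2 : ℝ) := by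
          exact_mod_cast (Nat.zero_le _).trans_lt h1.2.1.1
        exact one_div_le_one_div_of_le h4 (by exact_mod_cast h3)
    _ = ∑ p ∈ ((Ioc D Z).filter (fun d : ℕ => (d : ℤ) ∣ a)).image e, (1 : ℝ) / p.2 := by
        rw [sum_image hinj]
    _ ≤ ∑ p ∈ Icc 1 nu ×ˢ T, (1 : ℝ) / p.2 := by
        apply sum_le_sum_of_subset_of_nonneg
        · intro p hp
          rw [mem_image] at hp
          obtain ⟨d, hd, rfl⟩ := hp
          exact he1 d hd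
        · intro p _ _
          positivity
    _ = nu * ∑ d ∈ T, (1 : ℝ) / d := by
        rw [sum_product]
        have hc : ∀ x ∈ Icc 1 nu, ∑ y ∈ T, (1 : ℝ) / ((x, y) : ℕ × ℕ).2 =
            ∑ d ∈ T, (1 : ℝ) / d := fun _ _ => rfl
        rw [sum_congr rfl hc, sum_const, Nat.card_Icc, nsmul_eq_mul, Nat.add_sub_cancel]

theorem divFam_rpow (nu D : ℕ) (hnu : 1 ≤ nu) :
    (((D / nu : ℕ) : ℝ) + 1) ^ (-(1 / 8) : ℝ) ≤ nu * ((D : ℝ) + 1) ^ (-(1 / 8) : ℝ) := by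
  have h1 : D + 1 ≤ nu * (D / nu + 1) := Nat.lt_mul_div_succ D hnu
  have h2 : (D : ℝ) + 1 ≤ nu * (((D / nu : ℕ) : ℝ) + 1) := by exact_mod_cast h1
  have hnu' : (1 : ℝ) ≤ nu := by exact_mod_cast hnu
  have hnu0 : (0 : ℝ) < nu := by linarith
  have hq : (0 : ℝ) < ((D / nu : ℕ) : ℝ) + 1 := by positivity
  have hD : (0 : ℝ) < (D : ℝ) + 1 := by positivity
  have h3 : ((nu : ℝ) * (((D / nu : ℕ) : ℝ) + 1)) ^ (-(1 / 8) : ℝ) ≤
      ((D : ℝ) + 1) ^ (-(1 / 8) : ℝ) :=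
    Real.rpow_le_rpow_of_nonpos hD h2 (by norm_num)
  rw [Real.mul_rpow hnu0.le hq.le] at h3
  have h4 : (1 : ℝ) ≤ (nu : ℝ) * (nu : ℝ) ^ (-(1 / 8) : ℝ) := by
    have : (nu : ℝ) * (nu : ℝ) ^ (-(1 / 8) : ℝ) = (nu : ℝ) ^ (7 / 8 : ℝ) := by
      nth_rewrite 1 [← Real.rpow_one (nu : ℝ)]
      rw [← Real.rpow_add hnu0]
      norm_num
    rw [this]
    exact Real.one_le_rpow hnu' (by norm_num)
  have h5 : (0 : ℝ) ≤ (((D / nu : ℕ) : ℝ) + 1) ^ (-(1 / 8) : ℝ) := by positivity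
  calc (((D / nu : ℕ) : ℝ) + 1) ^ (-(1 / 8) : ℝ)
      = 1 * (((D / nu : ℕ) : ℝ) + 1) ^ (-(1 / 8) : ℝ) := (one_mul _).symm
    _ ≤ ((nu : ℝ) * (nu : ℝ) ^ (-(1 / 8) : ℝ)) * (((D / nu : ℕ) : ℝ) + 1) ^ (-(1 / 8) : ℝ) :=
        mul_le_mul_of_nonneg_right h4 h5
    _ = nu * ((nu : ℝ) ^ (-(1 / 8) : ℝ) * (((D / nu : ℕ) : ℝ) + 1) ^ (-(1 / 8) : ℝ)) := by ring
    _ ≤ nu * ((D : ℝ) + 1) ^ (-(1 / 8) : ℝ) := mul_le_mul_of_nonneg_left h3 hnu0.le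

theorem div_fam (F : Fam) (hF : F.Ok) : ∃ C : ℝ, 0 < C ∧ ∀ X D Z : ℕ, 1 ≤ X →
    ∑ h ∈ F.HH X, ∑ h' ∈ (F.HH X).erase h,
      ∑ d ∈ (Ioc D Z).filter (fun d : ℕ => (d : ℤ) ∣ h - h'), (1 : ℝ) / d ≤
    C * (X : ℝ) ^ 4 * (((D : ℝ) + 1) ^ (-(1 / 8) : ℝ) + 1 / X) := by
  obtain ⟨C0, hC0, hdiv⟩ := div_sum
  obtain ⟨-, hmono, hid, -, -⟩ := h_facts F hF
  have hinj := divFam_inj F hmono
  obtain ⟨k0, hk0⟩ := Int.eq_ofNat_of_zero_le (a := F.k0) (by have := hF.hk; linarith)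
  obtain ⟨m, hm0⟩ := Int.eq_ofNat_of_zero_le (a := F.m) (by have := hF.hm; linarith)
  obtain ⟨nu, hnu0⟩ := Int.eq_ofNat_of_zero_le (a := F.nu) (by have := hF.hnu; linarith)
  have hk1 : 1 ≤ k0 := by have := hF.hk; rw [hk0] at this; exact_mod_cast this
  have hm1 : 1 ≤ m := by have := hF.hm; rw [hm0] at this; exact_mod_cast this
  have hnu1 : 1 ≤ nu := by have := hF.hnu; rw [hnu0] at this; exact_mod_cast this
  have hk1' : (1 : ℝ) ≤ k0 := by exact_mod_cast hk1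
  have hm1' : (1 : ℝ) ≤ m := by exact_mod_cast hm1
  have hnu1' : (1 : ℝ) ≤ nu := by exact_mod_cast hnu1
  refine ⟨nu ^ 2 * C0 * (k0 + m), by positivity, fun X D Z hX => ?_⟩
  have hX' : (1 : ℝ) ≤ X := by exact_mod_cast hX
  set Y : ℕ := k0 + m * X ^ 2 with hY
  -- one outer term
  have inner : ∀ l ∈ range (X ^ 2), ∑ h' ∈ (F.HH X).erase (F.h (l : ℤ)),
      ∑ d ∈ (Ioc D Z).filter (fun d : ℕ => (d : ℤ) ∣ F.h (l : ℤ) - h'), (1 : ℝ) / d ≤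
      nu * (C0 * Y * ((((D / nu : ℕ) : ℝ) + 1) ^ (-(1 / 8) : ℝ) +
        (Y : ℝ) ^ (-(1 / 2) : ℝ))) := by
    intro l hl
    rw [mem_range] at hl
    have e1 : (F.HH X).erase (F.h (l : ℤ)) =
        ((range (X ^ 2)).erase l).image (fun k : ℕ => F.h k) := by
      rw [image_erase hinj]
      rfl
    rw [e1, sum_image hinj.injOn]
    have hl2 : k0 + m * l ≤ Y := by
      rw [hY]
      exact Nat.add_le_add_left (Nat.mul_le_mul_left _ hl.le) _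
    calc ∑ k ∈ (range (X ^ 2)).erase l,
        ∑ d ∈ (Ioc D Z).filter (fun d : ℕ => (d : ℤ) ∣ F.h (l : ℤ) - F.h (k : ℤ)), (1 : ℝ) / d
        ≤ ∑ k ∈ (range (X ^ 2)).erase l, (nu : ℝ) *
          ∑ d ∈ (Ioc (D / nu) Z).filter (fun d : ℕ =>
            (d : ℤ) ∣ ((k0 + m * k : ℕ) : ℤ) ^ 4 - ((k0 + m * l : ℕ) : ℤ) ^ 4), (1 : ℝ) / d := by
          apply sum_le_sum
          intro k _
          apply divFam_pair nu hnu1 _ (-F.M)
          have h1 := hid (k : ℤ)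
          have h2 := hid (l : ℤ)
          rw [hk0, hm0, hnu0] at h1 h2
          push_cast
          linear_combination h1 - h2
      _ = nu * ∑ k ∈ (range (X ^ 2)).erase l,
          ∑ d ∈ (Ioc (D / nu) Z).filter (fun d : ℕ =>
            (d : ℤ) ∣ ((k0 + m * k : ℕ) : ℤ) ^ 4 - ((k0 + m * l : ℕ) : ℤ) ^ 4), (1 : ℝ) / d := by
          rw [mul_sum]
      _ = nu * ∑ κ ∈ ((range (X ^ 2)).erase l).image (fun k => k0 + m * k),
          ∑ d ∈ (Ioc (D / nu) Z).filter (fun d : ℕ =>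
            (d : ℤ) ∣ (κ : ℤ) ^ 4 - ((k0 + m * l : ℕ) : ℤ) ^ 4), (1 : ℝ) / d := by
          rw [sum_image]
          intro x _ y _ hxy
          have h3 : m * x = m * y := Nat.add_left_cancel hxy
          exact Nat.eq_of_mul_eq_mul_left hm1 h3
      _ ≤ nu * ∑ κ ∈ (Icc 1 Y).erase (k0 + m * l),
          ∑ d ∈ (Ioc (D / nu) Z).filter (fun d : ℕ =>
            (d : ℤ) ∣ (κ : ℤ) ^ 4 - ((k0 + m * l : ℕ) : ℤ) ^ 4), (1 : ℝ) / d := by
          apply mul_le_mul_of_nonneg_left _ (by positivity)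
          apply sum_le_sum_of_subset_of_nonneg
          · intro κ hκ
            rw [mem_image] at hκ
            obtain ⟨k, hk, rfl⟩ := hκ
            rw [mem_erase, mem_range] at hk
            rw [mem_erase, mem_Icc]
            refine ⟨fun hh => hk.1 (Nat.eq_of_mul_eq_mul_left hm1 (Nat.add_left_cancel hh)),
              by omega, ?_⟩
            rw [hY]
            exact Nat.add_le_add_left (Nat.mul_le_mul_left _ hk.2.le) _
          · intro κ _ _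
            exact sum_nonneg fun d _ => by positivity
      _ ≤ nu * (C0 * Y * ((((D / nu : ℕ) : ℝ) + 1) ^ (-(1 / 8) : ℝ) +
          (Y : ℝ) ^ (-(1 / 2) : ℝ))) := by
          apply mul_le_mul_of_nonneg_left _ (by positivity)
          exact hdiv Y (D / nu) Z (k0 + m * l) (by omega) hl2
  have hY1 : (X : ℝ) ^ 2 ≤ Y := by
    have : X ^ 2 ≤ Y := by
      rw [hY]
      calc X ^ 2 = 1 * X ^ 2 := (one_mul _).symm
        _ ≤ m * X ^ 2 := Nat.mul_le_mul_right _ hm1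
        _ ≤ _ := Nat.le_add_left _ _
    exact_mod_cast this
  have hY2 : (Y : ℝ) ≤ (k0 + m) * (X : ℝ) ^ 2 := by
    rw [hY]
    push_cast
    nlinarith [one_le_pow₀ hX' (n := 2)]
  have hY3 : (Y : ℝ) ^ (-(1 / 2) : ℝ) ≤ 1 / X := by
    have hX2 : (0 : ℝ) < (X : ℝ) ^ 2 := by positivity
    calc (Y : ℝ) ^ (-(1 / 2) : ℝ) ≤ ((X : ℝ) ^ 2) ^ (-(1 / 2) : ℝ) :=
          Real.rpow_le_rpow_of_nonpos hX2 hY1 (by norm_num)
      _ = 1 / X := by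
          rw [← Real.rpow_natCast, ← Real.rpow_mul (by positivity)]
          norm_num
          rw [Real.rpow_neg_one]
  have hD := divFam_rpow nu D hnu1
  have hDpos : (0 : ℝ) ≤ ((D : ℝ) + 1) ^ (-(1 / 8) : ℝ) := by positivity
  have hXinv : (0 : ℝ) ≤ 1 / (X : ℝ) := by positivity
  have bound : (((D / nu : ℕ) : ℝ) + 1) ^ (-(1 / 8) : ℝ) + (Y : ℝ) ^ (-(1 / 2) : ℝ) ≤
      nu * (((D : ℝ) + 1) ^ (-(1 / 8) : ℝ) + 1 / X) := by
    have : 1 / (X : ℝ) ≤ nu * (1 / (X : ℝ)) := le_mul_of_one_le_left hXinv hnu1'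
    rw [mul_add]
    linarith
  have hHH : F.HH X = (range (X ^ 2)).image (fun k : ℕ => F.h k) := rfl
  calc ∑ h ∈ F.HH X, ∑ h' ∈ (F.HH X).erase h,
      ∑ d ∈ (Ioc D Z).filter (fun d : ℕ => (d : ℤ) ∣ h - h'), (1 : ℝ) / d
      = ∑ l ∈ range (X ^ 2), ∑ h' ∈ (F.HH X).erase (F.h (l : ℤ)),
        ∑ d ∈ (Ioc D Z).filter (fun d : ℕ => (d : ℤ) ∣ F.h (l : ℤ) - h'), (1 : ℝ) / d := by
        conv_lhs => rw [hHH]
        rw [sum_image hinj.injOn, ← hHH]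
    _ ≤ ∑ l ∈ range (X ^ 2), nu * (C0 * Y * ((((D / nu : ℕ) : ℝ) + 1) ^ (-(1 / 8) : ℝ) +
        (Y : ℝ) ^ (-(1 / 2) : ℝ))) := sum_le_sum inner
    _ = (X : ℝ) ^ 2 * (nu * (C0 * Y * ((((D / nu : ℕ) : ℝ) + 1) ^ (-(1 / 8) : ℝ) +
        (Y : ℝ) ^ (-(1 / 2) : ℝ)))) := by
        rw [sum_const, card_range, nsmul_eq_mul]
        push_cast
        rfl
    _ ≤ (X : ℝ) ^ 2 * (nu * (C0 * ((k0 + m) * (X : ℝ) ^ 2) *
        (nu * (((D : ℝ) + 1) ^ (-(1 / 8) : ℝ) + 1 / X)))) := by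
        gcongr
    _ = nu ^ 2 * C0 * (k0 + m) * (X : ℝ) ^ 4 * (((D : ℝ) + 1) ^ (-(1 / 8) : ℝ) + 1 / X) := by
        ring

end Pool.Agent.H33.AA
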