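import Mathlib

/-!
# Job AA-FIB: solutions of `b z² + c y² = t` modulo an odd prime power, `b, c, t` units (~200 lines)

`fib_nonempty`.  Mod `p`: `FiniteField.exists_root_sum_quadratic` (or pigeonhole: `b z²` and `t - c y²`
each take `(p+1)/2` values in `ZMod p`).  Lifting by induction on `e`: suppose
`p^e ∣ b z² + c y² - t`, `e ≥ 1`.  As `p ∤ t`, `p` does not divide both `z` and `y`; say `p ∤ z` (the other
case is symmetric).  With `z' = z + p^e j`: `b z'² ≡ b z² + 2 b z p^e j (mod p^{e+1})` (as `2e ≥ e+1`);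
`2 b z` is a unit mod `p`, choose `j` with `2 b z j ≡ -(b z² + c y² - t)/p^e (mod p)`.

`fib_count`.  Let `R = ZMod n`, `n = p^e`.
(1) Reduction to `b = 1`: `b z² + c y² = t ↔ (b z)² + (b c) y² = b t`, and `z ↦ b z` is a bijection.
    Let `η = b c` (a unit), `N t = #{(X,Y) : X² + η Y² = t}`.
(2) `N t > 0` for every unit `t` (`fib_nonempty`, elements of `ZMod n` are casts of integers; an
    integer is a unit of `ZMod (p^e)` iff `p` does not divide it).
(3) `N t ≤ N (t t')` for units `t, t'`: fix `(X',Y')` with norm `t'`; the map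
    `(X,Y) ↦ (X X' - η Y Y', X Y' + Y X')` multiplies norms (Brahmagupta) and is injective (composing it
    with the same map for `(X', -Y')` is multiplication by `t'`).  Hence `N t = N 1` for all units `t`
    (`N 1 ≤ N t`, `N t ≤ N (t t⁻¹) = N 1`).
(4) `∑_{t unit} N t = #{(X,Y) : X² + η Y² unit} ≥ (p-1)² p^{2e-2}`: for a non-unit `Y`, `X² + η Y²` is
    a unit iff `X` is: `(p-1) p^{e-1}` values of `X`; for a unit `Y` the non-unit values come from at most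
    two classes of `X` mod `p` (`X² ≡ -η Y² mod p`), so at least `(p-2) p^{e-1}` good `X`.  Total
    `≥ p^{e-1} (p-1) p^{e-1} + (p-1) p^{e-1} (p-2) p^{e-1} = (p-1)² p^{2e-2}`.
    (Number of `X ∈ ZMod (p^e)` in a given class mod `p` is `p^{e-1}`; number of units `(p-1) p^{e-1}`:
    `ZMod.card_units_eq_totient`, `Nat.totient_prime_pow`.)
(5) `(p-1) p^{e-1} · N 1 ≥ (p-1)² p^{2e-2}`, so `N 1 ≥ (p-1) p^{e-1}`.
-/

set_option autoImplicit false

namespace Pool.Agent.H33.AA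

open Finset

theorem fib_base (p : ℕ) (hp : p.Prime) (hp2 : p ≠ 2) (b c t : ℤ)
    (hb : ¬ (p : ℤ) ∣ b) (hc : ¬ (p : ℤ) ∣ c) :
    ∃ z y : ℤ, (p : ℤ) ∣ b * z ^ 2 + c * y ^ 2 - t := by
  haveI : Fact p.Prime := ⟨hp⟩
  have hb' : (b : ZMod p) ≠ 0 := fun h => hb ((ZMod.intCast_zmod_eq_zero_iff_dvd b p).1 h)
  have hc' : (c : ZMod p) ≠ 0 := fun h => hc ((ZMod.intCast_zmod_eq_zero_iff_dvd c p).1 h)
  obtain ⟨z, y, hzy⟩ := FiniteField.exists_root_sum_quadratic
    (f := Polynomial.C (b : ZMod p) * Polynomial.X ^ 2)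
    (g := Polynomial.C (c : ZMod p) * Polynomial.X ^ 2 - Polynomial.C (t : ZMod p))
    (Polynomial.degree_C_mul_X_pow 2 hb')
    (by
      rw [Polynomial.degree_sub_C]
      · exact Polynomial.degree_C_mul_X_pow 2 hc'
      · rw [Polynomial.degree_C_mul_X_pow 2 hc']
        norm_num)
    (by
      rw [ZMod.card]
      exact Nat.odd_iff.1 (hp.odd_of_ne_two hp2))
  refine ⟨z.val, y.val, ?_⟩
  rw [← ZMod.intCast_zmod_eq_zero_iff_dvd]
  simp only [Polynomial.eval_mul, Polynomial.eval_C, Polynomial.eval_pow, Polynomial.eval_X,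
    Polynomial.eval_sub] at hzy
  push_cast
  rw [ZMod.natCast_zmod_val, ZMod.natCast_zmod_val]
  linear_combination hzy

theorem fib_lift1 (p : ℕ) (hp : p.Prime) (hp2 : p ≠ 2) (e : ℕ) (he : 1 ≤ e) (b z A : ℤ)
    (hb : ¬ (p : ℤ) ∣ b) (hz : ¬ (p : ℤ) ∣ z) (h : ((p : ℤ) ^ e) ∣ b * z ^ 2 + A) :
    ∃ z' : ℤ, ((p : ℤ) ^ (e + 1)) ∣ b * z' ^ 2 + A := by
  have hpz : Prime (p : ℤ) := Nat.prime_iff_prime_int.1 hp
  obtain ⟨w, hw⟩ := h
  have h2 : ¬ (p : ℤ) ∣ 2 := by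
    intro h2
    have : p ∣ 2 := by exact_mod_cast h2
    exact hp2 ((Nat.prime_dvd_prime_iff_eq hp Nat.prime_two).1 this)
  have hcop : IsCoprime (2 * b * z) (p : ℤ) := by
    rw [isCoprime_comm, Prime.coprime_iff_not_dvd hpz]
    intro h3
    rcases hpz.dvd_or_dvd h3 with h4 | h4
    · rcases hpz.dvd_or_dvd h4 with h5 | h5
      · exact h2 h5
      · exact hb h5
    · exact hz h4
  obtain ⟨x, y, hxy⟩ := hcop
  refine ⟨z + (p : ℤ) ^ e * (-w * x), ?_⟩
  have h3 : b * (z + (p : ℤ) ^ e * (-w * x)) ^ 2 + A =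
      (p : ℤ) ^ (e + 1) * (w * y) + (p : ℤ) ^ (2 * e) * (b * (w * x) ^ 2) := by
    have h4 : A = (p : ℤ) ^ e * w - b * z ^ 2 := by linear_combination hw
    have h5 : (p : ℤ) * y = 1 - x * (2 * b * z) := by linear_combination hxy
    rw [h4]
    have h6 : (p : ℤ) ^ (e + 1) * (w * y) = (p : ℤ) ^ e * w * (p * y) := by ring
    have h7 : (p : ℤ) ^ (2 * e) = (p : ℤ) ^ e * (p : ℤ) ^ e := by rw [two_mul, pow_add]
    rw [h6, h5, h7]
    ring
  rw [h3]
  exact dvd_add (Dvd.intro _ rfl) (Dvd.dvd.mul_right (pow_dvd_pow _ (by omega)) _)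

theorem fib_nonempty (p : ℕ) (hp : p.Prime) (hp2 : p ≠ 2) (e : ℕ) (he : 1 ≤ e) (b c t : ℤ)
    (hb : ¬ (p : ℤ) ∣ b) (hc : ¬ (p : ℤ) ∣ c) (ht : ¬ (p : ℤ) ∣ t) :
    ∃ z y : ℤ, ((p : ℤ) ^ e) ∣ b * z ^ 2 + c * y ^ 2 - t := by
  have hpz : Prime (p : ℤ) := Nat.prime_iff_prime_int.1 hp
  induction e, he using Nat.le_induction with
  | base => simpa using fib_base p hp hp2 b c t hb hc
  | succ e he ih =>
    obtain ⟨z, y, h⟩ := ih
    by_cases hz : (p : ℤ) ∣ z
    · have hy : ¬ (p : ℤ) ∣ y := by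
        intro hy
        apply ht
        have h1 : (p : ℤ) ∣ b * z ^ 2 + c * y ^ 2 - t :=
          (dvd_pow_self _ (by omega)).trans h
        have h2 : (p : ℤ) ∣ b * z ^ 2 + c * y ^ 2 :=
          dvd_add ((dvd_pow hz two_ne_zero).mul_left _) ((dvd_pow hy two_ne_zero).mul_left _)
        exact (dvd_sub_right h2).1 h1
      obtain ⟨y', hy'⟩ := fib_lift1 p hp hp2 e he c y (b * z ^ 2 - t) hc hy (by
        have h3 : c * y ^ 2 + (b * z ^ 2 - t) = b * z ^ 2 + c * y ^ 2 - t := by ring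
        rwa [h3])
      refine ⟨z, y', ?_⟩
      have h3 : c * y' ^ 2 + (b * z ^ 2 - t) = b * z ^ 2 + c * y' ^ 2 - t := by ring
      rwa [h3] at hy'
    · obtain ⟨z', hz'⟩ := fib_lift1 p hp hp2 e he b z (c * y ^ 2 - t) hb hz (by
        have h3 : b * z ^ 2 + (c * y ^ 2 - t) = b * z ^ 2 + c * y ^ 2 - t := by ring
        rwa [h3])
      refine ⟨z', y, ?_⟩
      have h3 : b * z' ^ 2 + (c * y ^ 2 - t) = b * z' ^ 2 + c * y ^ 2 - t := by ring
      rwa [h3] at hz'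

section FibCount

variable {n p e : ℕ}

theorem fib_dvd (he : 1 ≤ e) (hn : n = p ^ e) : p ∣ n := by
  rw [hn]
  exact dvd_pow_self p (by omega)

/-- reduction modulo `p` -/
def fibPi (h : p ∣ n) : ZMod n →+* ZMod p := ZMod.castHom h (ZMod p)

theorem fib_cop (hp : p.Prime) (he : 1 ≤ e) (hn : n = p ^ e) (m : ℕ) :
    m.Coprime n ↔ ¬ p ∣ m := by
  rw [hn, Nat.coprime_pow_right_iff (by omega), Nat.coprime_comm, hp.coprime_iff_not_dvd]

theorem fib_unit_iff [NeZero n] (hp : p.Prime) (he : 1 ≤ e) (hn : n = p ^ e) (x : ZMod n) :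
    IsUnit x ↔ fibPi (fib_dvd he hn) x ≠ 0 := by
  haveI : Fact p.Prime := ⟨hp⟩
  have hx : x = ((x.val : ℕ) : ZMod n) := (ZMod.natCast_zmod_val x).symm
  rw [hx, map_natCast, ZMod.isUnit_iff_coprime, Ne, ZMod.natCast_eq_zero_iff, fib_cop hp he hn]

theorem fib_fiber [NeZero n] (hp : p.Prime) (he : 1 ≤ e) (hn : n = p ^ e) (a : ZMod p) :
    #{x : ZMod n | fibPi (fib_dvd he hn) x = a} = p ^ (e - 1) := by
  haveI : Fact p.Prime := ⟨hp⟩
  have hsurj : Function.Surjective (fibPi (fib_dvd he hn)) := ZMod.castHom_surjective _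
  have h1 : ∀ a b : ZMod p, #{x : ZMod n | fibPi (fib_dvd he hn) x = a} =
      #{x : ZMod n | fibPi (fib_dvd he hn) x = b} := fun a b =>
    AddMonoidHom.card_fiber_eq_of_mem_range (fibPi (fib_dvd he hn)).toAddMonoidHom
      (hsurj a) (hsurj b)
  have h2 : #(univ : Finset (ZMod n)) =
      ∑ b : ZMod p, #{x : ZMod n | fibPi (fib_dvd he hn) x = b} :=
    card_eq_sum_card_fiberwise fun x _ => mem_coe.2 (mem_univ _)
  rw [sum_congr rfl fun b _ => h1 b a, sum_const, card_univ, card_univ, ZMod.card, ZMod.card,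
    smul_eq_mul] at h2
  have h3 : p ^ e = p * p ^ (e - 1) := by
    rw [← pow_succ', Nat.sub_add_cancel he]
  exact Nat.eq_of_mul_eq_mul_left hp.pos (h2.symm.trans (hn.trans h3))

theorem fib_zero (hp : p.Prime) [NeZero p] (b c : ZMod p) (hb : b ≠ 0) (hc : c ≠ 0) :
    #{r : ZMod p × ZMod p | b * r.1 ^ 2 + c * r.2 ^ 2 = 0} ≤ p + (p - 1) := by
  haveI : Fact p.Prime := ⟨hp⟩
  by_cases h : ∃ r : ZMod p, b * r ^ 2 + c = 0
  · obtain ⟨r, hr⟩ := h
    have hsub : (univ.filter fun r : ZMod p × ZMod p => b * r.1 ^ 2 + c * r.2 ^ 2 = 0) ⊆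
        (univ.image fun y : ZMod p => (r * y, y)) ∪
          ((univ.erase 0).image fun y : ZMod p => (-(r * y), y)) := by
      rintro ⟨z, y⟩ hzy
      rw [mem_filter] at hzy
      have h1 : b * z ^ 2 + c * y ^ 2 = 0 := hzy.2
      have h2 : b * ((z - r * y) * (z + r * y)) = 0 := by
        linear_combination h1 - y ^ 2 * hr
      rw [mem_union, mem_image, mem_image]
      rcases mul_eq_zero.1 ((mul_eq_zero.1 h2).resolve_left hb) with h3 | h3
      · exact Or.inl ⟨y, mem_univ _, by rw [sub_eq_zero.1 h3]⟩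
      · by_cases hy : y = 0
        · left
          refine ⟨y, mem_univ _, ?_⟩
          rw [hy, mul_zero, add_zero] at h3
          rw [hy, h3, mul_zero]
        · right
          exact ⟨y, mem_erase.2 ⟨hy, mem_univ _⟩, by rw [eq_neg_of_add_eq_zero_left h3]⟩
    refine (card_le_card hsub).trans ((card_union_le _ _).trans (add_le_add ?_ ?_))
    · exact card_image_le.trans (by rw [card_univ, ZMod.card])
    · refine card_image_le.trans ?_
      rw [card_erase_of_mem (mem_univ _), card_univ, ZMod.card]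
  · push Not at h
    have hsub : (univ.filter fun r : ZMod p × ZMod p => b * r.1 ^ 2 + c * r.2 ^ 2 = 0) ⊆
        {(0, 0)} := by
      rintro ⟨z, y⟩ hzy
      rw [mem_filter] at hzy
      have h1 : b * z ^ 2 + c * y ^ 2 = 0 := hzy.2
      rw [mem_singleton]
      have hy : y = 0 := by
        by_contra hy
        apply h (z / y)
        field_simp
        linear_combination h1
      rw [hy] at h1
      have h2 : b * z ^ 2 = 0 := by linear_combination h1
      have h3 : z = 0 := pow_eq_zero_iff two_ne_zero |>.1 ((mul_eq_zero.1 h2).resolve_left hb)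
      rw [hy, h3]
    refine (card_le_card hsub).trans ?_
    rw [card_singleton]
    have := hp.two_le
    omega

theorem fib_nonzero (hp : p.Prime) [NeZero p] (b c : ZMod p) (hb : b ≠ 0) (hc : c ≠ 0) :
    (p - 1) * (p - 1) ≤ #{r : ZMod p × ZMod p | b * r.1 ^ 2 + c * r.2 ^ 2 ≠ 0} := by
  have h1 := fib_zero hp b c hb hc
  have h2 := card_filter_add_card_filter_not (s := (univ : Finset (ZMod p × ZMod p)))
    (fun r => b * r.1 ^ 2 + c * r.2 ^ 2 = 0)
  rw [card_univ, Fintype.card_prod, ZMod.card] at h2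
  have h3 := hp.two_le
  obtain ⟨q, rfl⟩ : ∃ q, p = q + 1 := ⟨p - 1, by omega⟩
  rw [Nat.add_sub_cancel] at h1 ⊢
  have h4 : (q + 1) * (q + 1) = q * q + (q + 1 + q) := by ring
  rw [h4] at h2
  have h5 : #{r : ZMod (q + 1) × ZMod (q + 1) | b * r.1 ^ 2 + c * r.2 ^ 2 ≠ 0} =
      #{r : ZMod (q + 1) × ZMod (q + 1) | ¬ (b * r.1 ^ 2 + c * r.2 ^ 2 = 0)} := rfl
  rw [h5]
  omega

theorem fib_units [NeZero n] (hp : p.Prime) (he : 1 ≤ e) (hn : n = p ^ e) :
    #{x : ZMod n | fibPi (fib_dvd he hn) x ≠ 0} = (p - 1) * p ^ (e - 1) := by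
  haveI : Fact p.Prime := ⟨hp⟩
  have h1 := card_eq_sum_card_fiberwise (f := fibPi (fib_dvd he hn))
    (s := univ.filter fun x : ZMod n => fibPi (fib_dvd he hn) x ≠ 0)
    (t := (univ : Finset (ZMod p)).erase 0) (fun x hx => by
      rw [mem_coe, mem_filter] at hx
      exact mem_coe.2 (mem_erase.2 ⟨hx.2, mem_univ _⟩))
  rw [h1, sum_congr rfl fun a ha => ?_, sum_const, card_erase_of_mem (mem_univ _), card_univ,
    ZMod.card, smul_eq_mul]
  rw [← fib_fiber hp he hn a, filter_filter]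
  congr 1
  ext x
  rw [mem_filter, mem_filter]
  constructor
  · rintro ⟨h2, h3, h4⟩
    exact ⟨h2, h4⟩
  · rintro ⟨h2, h3⟩
    exact ⟨h2, by rw [h3]; exact (mem_erase.1 ha).1, h3⟩

theorem fib_units2 [NeZero n] (hp : p.Prime) (he : 1 ≤ e) (hn : n = p ^ e) (b c : ZMod n)
    (hb : IsUnit b) (hc : IsUnit c) :
    (p - 1) * (p - 1) * (p ^ (e - 1) * p ^ (e - 1)) ≤
      #{r : ZMod n × ZMod n | fibPi (fib_dvd he hn) (b * r.1 ^ 2 + c * r.2 ^ 2) ≠ 0} := by
  haveI : Fact p.Prime := ⟨hp⟩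
  set π := fibPi (fib_dvd he hn) with hπ
  have hb' : π b ≠ 0 := (fib_unit_iff hp he hn b).1 hb
  have hc' : π c ≠ 0 := (fib_unit_iff hp he hn c).1 hc
  have h0 := fib_nonzero hp (π b) (π c) hb' hc'
  have h1 := card_eq_sum_card_fiberwise (f := fun r : ZMod n × ZMod n => (π r.1, π r.2))
    (s := univ.filter fun r : ZMod n × ZMod n => π (b * r.1 ^ 2 + c * r.2 ^ 2) ≠ 0)
    (t := univ.filter fun r : ZMod p × ZMod p => π b * r.1 ^ 2 + π c * r.2 ^ 2 ≠ 0)
    (fun r hr => by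
      rw [mem_coe, mem_filter] at hr
      refine mem_coe.2 (mem_filter.2 ⟨mem_univ _, ?_⟩)
      have h2 := hr.2
      rw [map_add, map_mul, map_mul, map_pow, map_pow] at h2
      exact h2)
  rw [h1, sum_congr rfl fun a ha => ?_, sum_const, smul_eq_mul]
  · exact Nat.mul_le_mul_right _ h0
  · rw [← fib_fiber hp he hn a.1]
    nth_rewrite 2 [fib_fiber hp he hn a.1]
    rw [← fib_fiber hp he hn a.2, ← card_product, filter_filter]
    congr 1
    ext r
    rw [mem_filter, mem_product, mem_filter, mem_filter]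
    constructor
    · rintro ⟨_, _, h3⟩
      exact ⟨⟨mem_univ _, congrArg Prod.fst h3⟩, ⟨mem_univ _, congrArg Prod.snd h3⟩⟩
    · rintro ⟨⟨_, h2⟩, ⟨_, h3⟩⟩
      refine ⟨mem_univ _, ?_, Prod.ext h2 h3⟩
      rw [map_add, map_mul, map_mul, map_pow, map_pow, h2, h3]
      exact (mem_filter.1 ha).2

theorem fib_rep [NeZero n] (hp : p.Prime) (hp2 : p ≠ 2) (he : 1 ≤ e) (hn : n = p ^ e)
    (c t : ZMod n) (hc : IsUnit c) (ht : IsUnit t) :
    ∃ X Y : ZMod n, X ^ 2 + c * Y ^ 2 = t := by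
  have key : ∀ x : ZMod n, IsUnit x → ¬ (p : ℤ) ∣ ((x.val : ℕ) : ℤ) := by
    intro x hx h
    rw [← ZMod.natCast_zmod_val x, ZMod.isUnit_iff_coprime, fib_cop hp he hn] at hx
    exact hx (by exact_mod_cast h)
  have h1 : ¬ (p : ℤ) ∣ 1 := by
    intro h
    have : p ∣ 1 := by exact_mod_cast h
    exact hp.one_lt.ne' (Nat.dvd_one.1 this)
  obtain ⟨z, y, h⟩ := fib_nonempty p hp hp2 e he 1 c.val t.val h1 (key c hc) (key t ht)
  refine ⟨z, y, ?_⟩
  have h2 : ((1 * z ^ 2 + (c.val : ℕ) * y ^ 2 - (t.val : ℕ) : ℤ) : ZMod n) = 0 := by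
    rw [ZMod.intCast_zmod_eq_zero_iff_dvd]
    have hcast : (n : ℤ) = (p : ℤ) ^ e := by
      rw [hn]
      push_cast
      rfl
    exact (dvd_of_eq hcast).trans h
  push_cast at h2
  rw [ZMod.natCast_zmod_val, ZMod.natCast_zmod_val] at h2
  linear_combination h2

theorem fib_le [NeZero n] (hp : p.Prime) (hp2 : p ≠ 2) (he : 1 ≤ e) (hn : n = p ^ e)
    (b c s t : ZMod n) (hb : IsUnit b) (hc : IsUnit c) (hs : IsUnit s) (ht : IsUnit t) :
    #{r : ZMod n × ZMod n | b * r.1 ^ 2 + c * r.2 ^ 2 = s} ≤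
      #{r : ZMod n × ZMod n | b * r.1 ^ 2 + c * r.2 ^ 2 = t} := by
  obtain ⟨v, hv⟩ := hs
  obtain ⟨w, hw⟩ := ht
  have hu : IsUnit (w * (↑v⁻¹ : ZMod n)) := (w.isUnit).mul (v⁻¹).isUnit
  obtain ⟨X, Y, hXY⟩ := fib_rep hp hp2 he hn (b * c) _ (hb.mul hc) hu
  refine card_le_card_of_injOn
    (fun r => (r.1 * X - c * r.2 * Y, r.2 * X + b * r.1 * Y)) (fun r hr => ?_) ?_
  · rw [mem_coe, mem_filter] at hr ⊢
    refine ⟨mem_univ _, ?_⟩
    have h1 : b * (r.1 * X - c * r.2 * Y) ^ 2 + c * (r.2 * X + b * r.1 * Y) ^ 2 =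
        (b * r.1 ^ 2 + c * r.2 ^ 2) * (X ^ 2 + b * c * Y ^ 2) := by ring
    change b * (r.1 * X - c * r.2 * Y) ^ 2 + c * (r.2 * X + b * r.1 * Y) ^ 2 = t
    rw [h1, hr.2, hXY, ← hv, ← hw, mul_comm (w : ZMod n), ← mul_assoc, Units.mul_inv, one_mul]
  · intro r _ r' _ h
    have h1 : r.1 * X - c * r.2 * Y = r'.1 * X - c * r'.2 * Y := congrArg Prod.fst h
    have h2 : r.2 * X + b * r.1 * Y = r'.2 * X + b * r'.1 * Y := congrArg Prod.snd h
    have hu' : IsUnit (X ^ 2 + b * c * Y ^ 2) := by rw [hXY]; exact hu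
    refine Prod.ext (hu'.mul_left_cancel ?_) (hu'.mul_left_cancel ?_)
    · linear_combination X * h1 + c * Y * h2
    · linear_combination X * h2 - b * Y * h1

end FibCount

theorem fib_count (n p e : ℕ) [NeZero n] (hp : p.Prime) (hp2 : p ≠ 2) (he : 1 ≤ e)
    (hn : n = p ^ e) (b c t : ZMod n) (hb : IsUnit b) (hc : IsUnit c) (ht : IsUnit t) :
    (p - 1) * p ^ (e - 1) ≤ #{r : ZMod n × ZMod n | b * r.1 ^ 2 + c * r.2 ^ 2 = t} := by
  have h1 := fib_units2 hp he hn b c hb hc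
  have h2 := card_eq_sum_card_fiberwise (f := fun r : ZMod n × ZMod n => b * r.1 ^ 2 + c * r.2 ^ 2)
    (s := univ.filter fun r : ZMod n × ZMod n =>
      fibPi (fib_dvd he hn) (b * r.1 ^ 2 + c * r.2 ^ 2) ≠ 0)
    (t := univ.filter fun x : ZMod n => fibPi (fib_dvd he hn) x ≠ 0) (fun r hr => by
      rw [mem_coe, mem_filter] at hr ⊢
      exact ⟨mem_univ _, hr.2⟩)
  have h3 : ∑ x ∈ univ.filter (fun x : ZMod n => fibPi (fib_dvd he hn) x ≠ 0),
      #{r ∈ univ.filter (fun r : ZMod n × ZMod n =>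
        fibPi (fib_dvd he hn) (b * r.1 ^ 2 + c * r.2 ^ 2) ≠ 0) |
          b * r.1 ^ 2 + c * r.2 ^ 2 = x} ≤
      ∑ _x ∈ univ.filter (fun x : ZMod n => fibPi (fib_dvd he hn) x ≠ 0),
        #{r : ZMod n × ZMod n | b * r.1 ^ 2 + c * r.2 ^ 2 = t} := by
    refine sum_le_sum fun x hx => ?_
    have hx' : IsUnit x := (fib_unit_iff hp he hn x).2 (mem_filter.1 hx).2
    refine le_trans (card_le_card ?_) (fib_le hp hp2 he hn b c x t hb hc hx' ht)
    intro r hr
    rw [mem_filter] at hr ⊢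
    exact ⟨mem_univ _, hr.2⟩
  rw [sum_const, smul_eq_mul, fib_units hp he hn] at h3
  rw [h2] at h1
  have h4 := h1.trans h3
  have h5 : (p - 1) * (p - 1) * (p ^ (e - 1) * p ^ (e - 1)) =
      (p - 1) * p ^ (e - 1) * ((p - 1) * p ^ (e - 1)) := by ring
  rw [h5] at h4
  refine Nat.le_of_mul_le_mul_left h4 (Nat.mul_pos ?_ (pow_pos hp.pos _))
  have := hp.two_le
  omega

end Pool.Agent.H33.AA
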