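import Pool.Agent.H33.AA.LocAll
import Pool.Agent.H16.Mertens

/-!
# Job AA-W: the local lower bound for `n = 2 b c D!` (~90 lines)

`sum_inv_pf`: `primeFactors (N0 * D!) ⊆ primeFactors N0 ∪ {p ≤ D prime}`, and
`∑_{p ≤ D} 1/p ≤ 1/2 + ∑_{2 < p ≤ D} 1/p ≤ 1/2 + log(log D/log 2) + 5/log 2` for `D ≥ 2` by
`Pool.Agent.H16.sum_inv_primes_le 2 D` (`primesIoc 2 D`); for `D ≤ 1` the second set is empty.
`log(log D) ≤ log(log (D+3))`, and `log(log(D+3)) ≥ log(log 3) > 0`.

`cnt_W`: `cnt_all` with `n = N0 D!`, `N0 = (2 b c).toNat`: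
`exp(-11 (log log(D+3) + C)) = e^{-11 C} (log(D+3))^{-11}`.
-/

set_option autoImplicit false

namespace Pool.Agent.H33.AA

open Finset

theorem sum_inv_pf (N0 : ℕ) (hN0 : N0 ≠ 0) : ∃ C : ℝ, ∀ D : ℕ,
    ∑ p ∈ (N0 * D.factorial).primeFactors, (1 : ℝ) / p ≤
      Real.log (Real.log ((D : ℝ) + 3)) + C := by
  refine ⟨∑ p ∈ N0.primeFactors, (1 : ℝ) / p +
    (1 / 2 + (5 / Real.log 2 - Real.log (Real.log 2))), fun D => ?_⟩
  have hl2 : 0 < Real.log 2 := Real.log_pos (by norm_num)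
  have hl2' : Real.log 2 < 1 := by
    have := Real.log_two_lt_d9
    linarith
  have hll2 : Real.log (Real.log 2) < 0 := Real.log_neg hl2 hl2'
  have h5 : 0 < 5 / Real.log 2 := by positivity
  have h1 : (N0 * D.factorial).primeFactors = N0.primeFactors ∪ D.factorial.primeFactors :=
    Nat.primeFactors_mul hN0 (Nat.factorial_ne_zero D)
  have h2 : ∑ p ∈ (N0 * D.factorial).primeFactors, (1 : ℝ) / p ≤
      ∑ p ∈ N0.primeFactors, (1 : ℝ) / p + ∑ p ∈ D.factorial.primeFactors, (1 : ℝ) / p := by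
    rw [h1, ← Finset.sum_union_inter]
    have : 0 ≤ ∑ p ∈ N0.primeFactors ∩ D.factorial.primeFactors, (1 : ℝ) / p :=
      Finset.sum_nonneg fun p _ => by positivity
    linarith
  have h3 : ∑ p ∈ D.factorial.primeFactors, (1 : ℝ) / p ≤
      Real.log (Real.log ((D : ℝ) + 3)) + (1 / 2 + (5 / Real.log 2 - Real.log (Real.log 2))) := by
    by_cases hD : D < 2
    · have e : D.factorial = 1 := by
        interval_cases D <;> rfl
      rw [e, Nat.primeFactors_one, Finset.sum_empty]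
      have h3 : 1 < Real.log ((D : ℝ) + 3) := by
        have h4 : Real.exp 1 < (D : ℝ) + 3 := by
          have := Real.exp_one_lt_d9
          have h0 : (0 : ℝ) ≤ D := Nat.cast_nonneg D
          linarith
        have := Real.log_lt_log (Real.exp_pos 1) h4
        rwa [Real.log_exp] at this
      have := Real.log_pos h3
      linarith
    · have hD2 : 2 ≤ D := not_lt.1 hD
      have hsub : D.factorial.primeFactors ⊆ insert 2 (Pool.Agent.H16.primesIoc 2 D) := by
        intro p hp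
        have hpp := Nat.prime_of_mem_primeFactors hp
        have hpd := Nat.dvd_of_mem_primeFactors hp
        have hpD := (Nat.Prime.dvd_factorial hpp).1 hpd
        rw [Finset.mem_insert]
        by_cases hp2 : p = 2
        · exact Or.inl hp2
        · right
          rw [Pool.Agent.H16.mem_primesIoc]
          exact ⟨lt_of_le_of_ne hpp.two_le (Ne.symm hp2), hpD, hpp⟩
      have hnot : 2 ∉ Pool.Agent.H16.primesIoc 2 D := by
        rw [Pool.Agent.H16.mem_primesIoc]
        rintro ⟨h, _⟩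
        omega
      have h4 : ∑ p ∈ D.factorial.primeFactors, (1 : ℝ) / p ≤
          ∑ p ∈ insert 2 (Pool.Agent.H16.primesIoc 2 D), (1 : ℝ) / p :=
        Finset.sum_le_sum_of_subset_of_nonneg hsub fun p _ _ => by positivity
      rw [Finset.sum_insert hnot] at h4
      have h6 := Pool.Agent.H16.sum_inv_primes_le 2 D le_rfl hD2
      have hD1 : (1 : ℝ) < D := by exact_mod_cast hD2
      have hlD : 0 < Real.log D := Real.log_pos hD1
      push_cast at h4 h6
      rw [Real.log_div hlD.ne' hl2.ne'] at h6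
      have h7 : Real.log (Real.log D) ≤ Real.log (Real.log ((D : ℝ) + 3)) := by
        apply Real.log_le_log hlD
        apply Real.log_le_log (by linarith)
        linarith
      linarith
  linarith

theorem cnt_W (F : Fam) (hF : F.Ok) : ∃ c0 : ℝ, 0 < c0 ∧ ∀ (D n : ℕ) [NeZero n],
    (n : ℤ) = 2 * F.b * F.c * (D.factorial : ℤ) → ∀ v : ℤ,
    c0 / (Real.log ((D : ℝ) + 3)) ^ 11 * (n : ℝ) ^ 2 ≤ (F.cnt n (v : ZMod n) : ℝ) := by
  have hb := hF.hb
  have hc := hF.hc
  have hbc : 0 < 2 * F.b * F.c := by positivity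
  obtain ⟨N0, hN0⟩ : ∃ N0 : ℕ, (N0 : ℤ) = 2 * F.b * F.c :=
    ⟨(2 * F.b * F.c).toNat, Int.toNat_of_nonneg hbc.le⟩
  have hN0' : N0 ≠ 0 := by
    rintro rfl
    rw [← hN0] at hbc
    simp at hbc
  obtain ⟨C, hC⟩ := sum_inv_pf N0 hN0'
  refine ⟨Real.exp (-(11 * C)), Real.exp_pos _, ?_⟩
  intro D n _ hn v
  have hn' : n = N0 * D.factorial := by
    have : (n : ℤ) = ((N0 * D.factorial : ℕ) : ℤ) := by
      rw [hn, ← hN0]
      push_cast
      ring
    exact_mod_cast this
  have h1 := cnt_all F hF n v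
  have h2 := hC D
  rw [← hn'] at h2
  have hlog : 1 < Real.log ((D : ℝ) + 3) := by
    have h4 : Real.exp 1 < (D : ℝ) + 3 := by
      have := Real.exp_one_lt_d9
      have h0 : (0 : ℝ) ≤ D := Nat.cast_nonneg D
      linarith
    have := Real.log_lt_log (Real.exp_pos 1) h4
    rwa [Real.log_exp] at this
  have hlog0 : 0 < Real.log ((D : ℝ) + 3) := by linarith
  have h3 : Real.exp (-(11 * C)) / (Real.log ((D : ℝ) + 3)) ^ 11 =
      Real.exp (-(11 * (Real.log (Real.log ((D : ℝ) + 3)) + C))) := by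
    have e1 : (Real.log ((D : ℝ) + 3)) ^ 11 =
        Real.exp (11 * Real.log (Real.log ((D : ℝ) + 3))) := by
      have := Real.exp_nat_mul (Real.log (Real.log ((D : ℝ) + 3))) 11
      rw [Real.exp_log hlog0] at this
      rw [← this]
      norm_num
    rw [e1, ← Real.exp_sub]
    congr 1
    ring
  rw [h3]
  have h4 : Real.exp (-(11 * (Real.log (Real.log ((D : ℝ) + 3)) + C))) ≤
      Real.exp (-(11 * ∑ p ∈ n.primeFactors, (1 : ℝ) / p)) := by
    apply Real.exp_le_exp.2
    linarith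
  calc Real.exp (-(11 * (Real.log (Real.log ((D : ℝ) + 3)) + C))) * (n : ℝ) ^ 2
      ≤ Real.exp (-(11 * ∑ p ∈ n.primeFactors, (1 : ℝ) / p)) * (n : ℝ) ^ 2 :=
        mul_le_mul_of_nonneg_right h4 (by positivity)
    _ = (n : ℝ) ^ 2 * Real.exp (-(11 * ∑ p ∈ n.primeFactors, (1 : ℝ) / p)) := mul_comm _ _
    _ ≤ _ := h1

end Pool.Agent.H33.AA
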