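import Pool.Agent.H33.AA.Defs

/-!
# Job AA-WIN: a window of consecutive `s` (~70 lines)

`ψ(s) = b s² + u s` is strictly increasing for `s ≥ 0`.  Let `s0` be the least integer `≥ 1` (say) with
`ψ(s0) > T` (exists, `Nat.find`).  As `ψ(S) ≤ T`, `s0 > S`.  By minimality `ψ(s0 - 1) ≤ T ≤ 3 b S²`, so
`(s0-1)² ≤ 3 S²`, `4 (s0 - 1) < 7 S` (`16·3 < 49`), and `10 Y ≤ S` gives `s0 + Y ≤ 2 S + 1`
(`4 (s0-1) ≤ 7S - 1`, `4 Y ≤ 2S/5`; needs `S ≥ 10`, which follows from `1 ≤ Y`).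
For `0 ≤ y < Y`: `ψ(s0+y) ≥ ψ(s0) > T`, and
`ψ(s0+y) - ψ(s0-1) = (y+1)(b (2 s0 + y - 1) + u) ≤ Y (4 b S + u) ≤ 5 b S Y` because
`s0 + y ≤ 2S`, `s0 - 1 ≤ 2 S`, `u ≤ b S`.
-/

set_option autoImplicit false

namespace Pool.Agent.H33.AA

theorem window (F : Fam) (hF : F.Ok) (S Y T : ℤ) (hY : 1 ≤ Y) (hYS : 10 * Y ≤ S)
    (hu : F.u ≤ F.b * S) (hT1 : F.b * S ^ 2 + F.u * S ≤ T) (hT2 : T ≤ 3 * F.b * S ^ 2) :
    ∃ s0 : ℤ, S < s0 ∧ s0 + Y ≤ 2 * S + 1 ∧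
      ∀ y : ℤ, 0 ≤ y → y < Y → T < F.ps (s0 + y) ∧ F.ps (s0 + y) ≤ T + 5 * F.b * S * Y := by
  have hb := hF.hb
  have hu0 := hF.hu
  have hS : 10 ≤ S := by linarith
  have hex : ∃ k : ℕ, T < F.ps (S + k) := by
    refine ⟨S.toNat, ?_⟩
    have e : ((S.toNat : ℕ) : ℤ) = S := Int.toNat_of_nonneg (by linarith)
    rw [e]
    unfold Fam.ps
    have h1 : 0 < F.b * S ^ 2 := by positivity
    have h2 : 0 ≤ F.u * S := mul_nonneg hu0 (by linarith)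
    nlinarith
  classical
  obtain ⟨k, hk, hmin⟩ : ∃ k : ℕ, T < F.ps (S + k) ∧ ∀ j : ℕ, j < k → ¬ T < F.ps (S + j) :=
    ⟨Nat.find hex, Nat.find_spec hex, fun j hj => Nat.find_min hex hj⟩
  have hk0 : k ≠ 0 := by
    rintro rfl
    have h1 : F.ps (S + ((0 : ℕ) : ℤ)) = F.b * S ^ 2 + F.u * S := by
      unfold Fam.ps; push_cast; ring
    rw [h1] at hk
    linarith
  obtain ⟨j, rfl⟩ := Nat.exists_eq_succ_of_ne_zero hk0
  have hj := not_lt.1 (hmin j (Nat.lt_succ_self j))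
  have hjn : (0 : ℤ) ≤ (j : ℤ) := Int.natCast_nonneg j
  set t : ℤ := S + (j : ℤ) with ht
  have hcast : S + ((j.succ : ℕ) : ℤ) = t + 1 := by rw [ht]; push_cast; ring
  rw [hcast] at hk
  have ht0 : 0 < t := by linarith
  have h3 : t ^ 2 ≤ 3 * S ^ 2 := by
    have h4 : F.b * t ^ 2 ≤ F.b * (3 * S ^ 2) := by
      have h5 : 0 ≤ F.u * t := mul_nonneg hu0 ht0.le
      unfold Fam.ps at hj
      nlinarith
    exact le_of_mul_le_mul_left h4 (by linarith)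
  have h4 : 4 * t < 7 * S := by
    by_contra hcon
    rw [not_lt] at hcon
    have h5 : (7 * S) ^ 2 ≤ (4 * t) ^ 2 := by
      apply pow_le_pow_left₀ (by linarith) hcon
    nlinarith
  have h5 : t + 1 + Y ≤ 2 * S + 1 := by linarith
  refine ⟨t + 1, by linarith, h5, fun y hy0 hyY => ⟨lt_of_lt_of_le hk ?_, ?_⟩⟩
  · unfold Fam.ps
    have h6 : 0 ≤ F.b * (y * (2 * (t + 1) + y)) :=
      mul_nonneg (by linarith) (mul_nonneg hy0 (by linarith))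
    have h7 : 0 ≤ F.u * y := mul_nonneg hu0 hy0
    nlinarith
  · have h6 : F.ps (t + 1 + y) = F.ps t + (y + 1) * (F.b * (2 * t + y + 1) + F.u) := by
      unfold Fam.ps; ring
    rw [h6]
    have h7 : 2 * t + y + 1 ≤ 4 * S := by linarith
    have h8 : F.b * (2 * t + y + 1) + F.u ≤ 5 * F.b * S := by nlinarith
    have h9 : 0 ≤ 5 * F.b * S := by positivity
    have h10 : (y + 1) * (F.b * (2 * t + y + 1) + F.u) ≤ (y + 1) * (5 * F.b * S) :=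
      mul_le_mul_of_nonneg_left h8 (by linarith)
    have h11 : (y + 1) * (5 * F.b * S) ≤ Y * (5 * F.b * S) :=
      mul_le_mul_of_nonneg_right (by linarith) h9
    linarith

end Pool.Agent.H33.AA
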