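import Pool.Agent.H33.AA.Period
import Pool.Agent.H33.AA.Window
import Pool.Agent.H33.AA.DivFam

/-!
# Job AA-LOW: lower bound for `∑_{j ≤ J} r(v + n j)` (~150 lines)

Fix `v`.  For `k ∈ [0,X²)`, `w ∈ [1,X⁷]` let `T = v - h(k) - ph w`; by the hypotheses
`b S² + u S ≤ T ≤ 3 b S²` (`0 ≤ h(k) ≤ S` by `h_facts`, `0 ≤ ph w ≤ c X^14 + e X^7`).  Let
`s0 = s0(k,w)` be given by `window` with `Y = n X`.  For `s ∈ Ico s0 (s0 + n X)` with
`FR ((k,w,s) : ZMod n) = v`: `s ∈ Ioc S (2S)` and `h(k) + ph w + ps s - v = ps s - T ∈ (0, 5 b S n X]` is a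
multiple of `n` (`ZMod.intCast_zmod_eq_zero_iff_dvd`/`intCast_eq_intCast_iff_dvd_sub`, the cast of the
integer value is `FR` of the casts), hence `= n j` with `1 ≤ j ≤ J = 5 b S X`.
So the triple `(h(k), w, s)` is counted in `rr (v + n j)`; triples `(k,w,s)` give different
`(h(k),w,s)` (`h` injective on `[0,∞)`), and a triple determines `j`.  Therefore
`∑_j rr(v + n j) ≥ ∑_k ∑_w ∑_{s ∈ Ico s0 (s0+nX)} [FR(k,w,s) = v]`.
By `sum_period` the inner sum is `X ∑_{z ∈ ZMod n} [FR(k,w,z) = v]` (independent of `s0`), then the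
sum over `w ∈ Icc 1 X⁷ = Ico 1 (1 + n (X⁷/n))` gives the factor `X⁷/n`, the sum over
`k ∈ range (X²)` (as `Ico 0 (X²)`) gives `X²/n` (`n ∣ X`).  Total
`X · (X⁷/n) · (X²/n) · cnt = X^{10} cnt/n²`.
-/

set_option autoImplicit false

namespace Pool.Agent.H33.AA

open Finset

theorem low_range_int (n : ℕ) [NeZero n] (N : ℕ) (f : ZMod n → ℝ) :
    ∑ k ∈ range N, f ((k : ℕ) : ZMod n) = ∑ i ∈ Ico (0 : ℤ) (0 + (N : ℤ)), f ((i : ℤ) : ZMod n) := by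
  refine Finset.sum_nbij' (fun k : ℕ => (k : ℤ)) (fun i : ℤ => i.toNat) ?_ ?_ ?_ ?_ ?_
  · intro k hk
    rw [mem_range] at hk
    rw [mem_Ico]
    omega
  · intro i hi
    rw [mem_Ico] at hi
    rw [mem_range]
    omega
  · intro k _
    simp
  · intro i hi
    rw [mem_Ico] at hi
    omega
  · intro k _
    simp

theorem low_cast (F : Fam) (n : ℕ) (k w s : ℤ) :
    ((F.h k + F.ph w + F.ps s : ℤ) : ZMod n) = F.FR ((k : ZMod n), (w : ZMod n), (s : ZMod n)) := by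
  unfold Fam.h Fam.ph Fam.ps Fam.FR
  push_cast
  ring

/-- evaluation of the main term -/
theorem low_main (F : Fam) (X n : ℕ) [NeZero n] (hn : n ∣ X) (v : ℤ) (s0 : ℕ → ℤ → ℤ) :
    ∑ k ∈ range (X ^ 2), ∑ w ∈ Icc (1 : ℤ) ((X : ℤ) ^ 7),
      ∑ s ∈ Ico (s0 k w) (s0 k w + n * X),
        (if F.FR (((k : ℕ) : ZMod n), ((w : ℤ) : ZMod n), ((s : ℤ) : ZMod n)) = (v : ZMod n)
          then (1 : ℝ) else 0) = (X : ℝ) ^ 10 * (F.cnt n (v : ZMod n) : ℝ) / (n : ℝ) ^ 2 := by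
  obtain ⟨q, rfl⟩ := hn
  have hn0 : (n : ℝ) ≠ 0 := by
    exact_mod_cast NeZero.ne n
  have h1 : ∀ k : ℕ, ∀ w : ℤ, ∑ s ∈ Ico (s0 k w) (s0 k w + n * ((n * q : ℕ) : ℤ)),
        (if F.FR (((k : ℕ) : ZMod n), ((w : ℤ) : ZMod n), ((s : ℤ) : ZMod n)) = (v : ZMod n)
          then (1 : ℝ) else 0) = ((n * q : ℕ) : ℝ) * ∑ z : ZMod n,
        (if F.FR (((k : ℕ) : ZMod n), ((w : ℤ) : ZMod n), z) = (v : ZMod n)
          then (1 : ℝ) else 0) := by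
    intro k w
    exact sum_period n (n * q) (s0 k w) (fun z =>
      (if F.FR (((k : ℕ) : ZMod n), ((w : ℤ) : ZMod n), z) = (v : ZMod n)
          then (1 : ℝ) else 0))
  simp_rw [h1]
  have h2 : ∀ k : ℕ, ∑ w ∈ Icc (1 : ℤ) (((n * q : ℕ) : ℤ) ^ 7), ((n * q : ℕ) : ℝ) * ∑ z : ZMod n,
        (if F.FR (((k : ℕ) : ZMod n), ((w : ℤ) : ZMod n), z) = (v : ZMod n)
          then (1 : ℝ) else 0) =
      ((n ^ 6 * q ^ 7 : ℕ) : ℝ) * ∑ y : ZMod n, ((n * q : ℕ) : ℝ) * ∑ z : ZMod n,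
        (if F.FR (((k : ℕ) : ZMod n), y, z) = (v : ZMod n) then (1 : ℝ) else 0) := by
    intro k
    have h3 : Icc (1 : ℤ) (((n * q : ℕ) : ℤ) ^ 7) =
        Ico (1 : ℤ) (1 + n * ((n ^ 6 * q ^ 7 : ℕ) : ℤ)) := by
      ext i
      rw [mem_Icc, mem_Ico]
      have : (n : ℤ) * ((n ^ 6 * q ^ 7 : ℕ) : ℤ) = ((n * q : ℕ) : ℤ) ^ 7 := by push_cast; ring
      rw [this]
      constructor <;> rintro ⟨a, b⟩ <;> exact ⟨a, by omega⟩
    rw [h3]
    exact sum_period n (n ^ 6 * q ^ 7) 1 (fun y => ((n * q : ℕ) : ℝ) * ∑ z : ZMod n,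
        (if F.FR (((k : ℕ) : ZMod n), y, z) = (v : ZMod n) then (1 : ℝ) else 0))
  simp_rw [h2]
  rw [low_range_int n ((n * q) ^ 2) (fun x => ((n ^ 6 * q ^ 7 : ℕ) : ℝ) * ∑ y : ZMod n,
    ((n * q : ℕ) : ℝ) * ∑ z : ZMod n,
        (if F.FR (x, y, z) = (v : ZMod n) then (1 : ℝ) else 0))]
  have h4 : (((n * q) ^ 2 : ℕ) : ℤ) = n * ((n * q ^ 2 : ℕ) : ℤ) := by push_cast; ring
  rw [h4, sum_period n (n * q ^ 2) 0 (fun x => ((n ^ 6 * q ^ 7 : ℕ) : ℝ) * ∑ y : ZMod n,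
    ((n * q : ℕ) : ℝ) * ∑ z : ZMod n,
        (if F.FR (x, y, z) = (v : ZMod n) then (1 : ℝ) else 0))]
  have h5 : (F.cnt n (v : ZMod n) : ℝ) = ∑ x : ZMod n, ∑ y : ZMod n, ∑ z : ZMod n,
      (if F.FR (x, y, z) = (v : ZMod n) then (1 : ℝ) else 0) := by
    unfold Fam.cnt
    rw [Finset.card_filter]
    push_cast
    rw [Fintype.sum_prod_type]
    refine Finset.sum_congr rfl fun x _ => ?_
    rw [Fintype.sum_prod_type]
  rw [h5]
  simp only [← Finset.mul_sum]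
  push_cast
  field_simp

theorem lower (F : Fam) (hF : F.Ok) (X n : ℕ) [NeZero n] (hX : 1 ≤ X) (hn : n ∣ X) (S v : ℤ)
    (hS : S = F.C ^ 2 * (X : ℤ) ^ 8) (hYS : 10 * ((n : ℤ) * X) ≤ S)
    (hv1 : F.b * S ^ 2 + F.u * S + S + (F.c * (X : ℤ) ^ 14 + F.e * (X : ℤ) ^ 7) ≤ v)
    (hv2 : v ≤ 3 * F.b * S ^ 2) (J : ℕ) (hJ : (J : ℤ) = 5 * F.b * S * X) :
    (X : ℝ) ^ 10 * (F.cnt n (v : ZMod n) : ℝ) / (n : ℝ) ^ 2 ≤
      ∑ j ∈ Icc 1 J, (F.rr (F.HH X) ((X : ℤ) ^ 7) S (v + (n : ℤ) * (j : ℤ)) : ℝ) := by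
  obtain ⟨⟨hh1, hh2, hh3, hh4⟩, hmono, -, hHH, -⟩ := h_facts F hF
  have hXz : (1 : ℤ) ≤ (X : ℤ) := by exact_mod_cast hX
  have hnpos : 0 < n := Nat.pos_of_ne_zero (NeZero.ne n)
  have hnz : (1 : ℤ) ≤ (n : ℤ) := by exact_mod_cast hnpos
  have hb := hF.hb
  have hc := hF.hc
  have he := hF.he
  have hu := hF.hu
  have hCu : F.u + 1 ≤ F.C := by
    unfold Fam.C
    linarith
  have hC1 : 1 ≤ F.C := by linarith
  have hX8 : (1 : ℤ) ≤ (X : ℤ) ^ 8 := one_le_pow₀ hXz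
  have hSC : F.C ≤ S := by
    rw [hS]
    nlinarith [mul_le_mul_of_nonneg_left hX8 (by positivity : (0 : ℤ) ≤ F.C ^ 2)]
  have hSpos : 1 ≤ S := by linarith
  have huS : F.u ≤ F.b * S := by nlinarith
  have hY1 : 1 ≤ (n : ℤ) * X := by nlinarith
  -- the values of `h`
  have hk : ∀ k ∈ range (X ^ 2), 0 ≤ F.h (k : ℤ) ∧ F.h (k : ℤ) ≤ S := by
    intro k hk
    have := hHH X hX (F.h k) (by
      unfold Fam.HH
      exact mem_image_of_mem _ hk)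
    rw [← hS] at this
    exact this
  have hw : ∀ w ∈ Icc (1 : ℤ) ((X : ℤ) ^ 7), 0 ≤ F.ph w ∧
      F.ph w ≤ F.c * (X : ℤ) ^ 14 + F.e * (X : ℤ) ^ 7 := by
    intro w hw
    rw [mem_Icc] at hw
    unfold Fam.ph
    have h1 : w ^ 2 ≤ (X : ℤ) ^ 14 := by
      calc w ^ 2 ≤ ((X : ℤ) ^ 7) ^ 2 := pow_le_pow_left₀ (by linarith) hw.2 2
        _ = (X : ℤ) ^ 14 := by ring
    constructor
    · have : 0 ≤ w := by linarith
      positivity
    · exact add_le_add (mul_le_mul_of_nonneg_left h1 (by linarith))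
        (mul_le_mul_of_nonneg_left hw.2 he)
  have hwin : ∀ k : ℕ, ∀ w : ℤ, ∃ s0 : ℤ, k ∈ range (X ^ 2) → w ∈ Icc (1 : ℤ) ((X : ℤ) ^ 7) →
      S < s0 ∧ s0 + (n : ℤ) * X ≤ 2 * S + 1 ∧
      ∀ y : ℤ, 0 ≤ y → y < (n : ℤ) * X → (v - F.h k - F.ph w) < F.ps (s0 + y) ∧
        F.ps (s0 + y) ≤ (v - F.h k - F.ph w) + 5 * F.b * S * ((n : ℤ) * X) := by
    intro k w
    by_cases h1 : k ∈ range (X ^ 2) ∧ w ∈ Icc (1 : ℤ) ((X : ℤ) ^ 7)
    · obtain ⟨s0, hs0⟩ := window F hF S ((n : ℤ) * X) (v - F.h k - F.ph w) hY1 hYS huS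
        (by have := hk k h1.1; have := hw w h1.2; linarith)
        (by have := hk k h1.1; have := hw w h1.2; linarith)
      exact ⟨s0, fun _ _ => hs0⟩
    · exact ⟨0, fun h2 h3 => absurd ⟨h2, h3⟩ h1⟩
  choose s0 hs0 using hwin
  rw [← low_main F X n hn v s0]
  classical
  -- the finset of triples
  let G : Finset (Σ _ : ℕ × ℤ, ℤ) := (range (X ^ 2) ×ˢ Icc (1 : ℤ) ((X : ℤ) ^ 7)).sigma
    (fun kw => (Ico (s0 kw.1 kw.2) (s0 kw.1 kw.2 + n * X)).filter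
      (fun s => F.FR (((kw.1 : ℕ) : ZMod n), ((kw.2 : ℤ) : ZMod n), ((s : ℤ) : ZMod n)) =
        (v : ZMod n)))
  let B : Finset (ℤ × ℤ × ℤ) := (Icc 1 J).biUnion (fun j =>
    (Bx (F.HH X) ((X : ℤ) ^ 7) S).filter (fun t => F.val t = v + (n : ℤ) * (j : ℤ)))
  have hG : (#G : ℝ) = ∑ k ∈ range (X ^ 2), ∑ w ∈ Icc (1 : ℤ) ((X : ℤ) ^ 7),
      ∑ s ∈ Ico (s0 k w) (s0 k w + n * X),
        (if F.FR (((k : ℕ) : ZMod n), ((w : ℤ) : ZMod n), ((s : ℤ) : ZMod n)) = (v : ZMod n)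
          then (1 : ℝ) else 0) := by
    show ((#((range (X ^ 2) ×ˢ Icc (1 : ℤ) ((X : ℤ) ^ 7)).sigma _) : ℕ) : ℝ) = _
    rw [Finset.card_sigma, Nat.cast_sum, Finset.sum_product]
    refine Finset.sum_congr rfl fun k _ => Finset.sum_congr rfl fun w _ => ?_
    rw [Finset.card_filter]
    push_cast
    rfl
  rw [← hG]
  have hGB : #G ≤ #B := by
    refine Finset.card_le_card_of_injOn
      (fun x => (F.h ((x.1.1 : ℕ) : ℤ), x.1.2, x.2)) ?_ ?_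
    · rintro ⟨⟨k, w⟩, s⟩ hx
      have hx' : (k ∈ range (X ^ 2) ∧ w ∈ Icc (1 : ℤ) ((X : ℤ) ^ 7)) ∧
          s ∈ Ico (s0 k w) (s0 k w + n * X) ∧
          F.FR (((k : ℕ) : ZMod n), ((w : ℤ) : ZMod n), ((s : ℤ) : ZMod n)) = (v : ZMod n) := by
        have h1 := Finset.mem_coe.1 hx
        rw [Finset.mem_sigma, Finset.mem_product, Finset.mem_filter] at h1
        exact h1
      obtain ⟨⟨hxk, hxw⟩, hxs, hxF⟩ := hx'
      obtain ⟨hs1, hs2, hs3⟩ := hs0 k w hxk hxw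
      rw [mem_Ico] at hxs
      obtain ⟨hp1, hp2⟩ := hs3 (s - s0 k w) (by linarith) (by linarith)
      rw [add_sub_cancel] at hp1 hp2
      have hdvd : (n : ℤ) ∣ (F.h k + F.ph w + F.ps s) - v := by
        rw [← ZMod.intCast_eq_intCast_iff_dvd_sub, low_cast, ← hxF]
        push_cast
        rfl
      obtain ⟨j, hj⟩ := hdvd
      have hj1 : 0 < (n : ℤ) * j := by rw [← hj]; linarith
      have hj2 : (n : ℤ) * j ≤ 5 * F.b * S * ((n : ℤ) * X) := by rw [← hj]; linarith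
      have hj3 : 0 < j := by
        by_contra hcon
        nlinarith
      have hj4 : j ≤ J := by
        rw [hJ]
        have : (n : ℤ) * j ≤ (n : ℤ) * (5 * F.b * S * X) := by linarith
        exact le_of_mul_le_mul_left this (by linarith)
      show (F.h (k : ℤ), w, s) ∈ (B : Set (ℤ × ℤ × ℤ))
      rw [Finset.mem_coe, Finset.mem_biUnion]
      refine ⟨j.toNat, ?_, ?_⟩
      · rw [mem_Icc]
        omega
      · rw [Finset.mem_filter]
        constructor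
        · unfold Bx
          rw [Finset.mem_product, Finset.mem_product]
          refine ⟨?_, hxw, ?_⟩
          · unfold Fam.HH
            exact mem_image_of_mem _ hxk
          · rw [mem_Ioc]
            constructor <;> simp only <;> linarith
        · unfold Fam.val
          rw [Int.toNat_of_nonneg hj3.le]
          simp only
          linarith
    · rintro ⟨⟨k, w⟩, s⟩ _ ⟨⟨k', w'⟩, s'⟩ _ hxx
      simp only [Prod.mk.injEq] at hxx
      obtain ⟨h1, h2, h3⟩ := hxx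
      have hkk : k = k' := by
        rcases lt_trichotomy k k' with h | h | h
        · have := hmono k k' (by positivity) (by exact_mod_cast h)
          linarith
        · exact h
        · have := hmono k' k (by positivity) (by exact_mod_cast h)
          linarith
      subst hkk h2 h3
      rfl
  have hB : #B ≤ ∑ j ∈ Icc 1 J, F.rr (F.HH X) ((X : ℤ) ^ 7) S (v + (n : ℤ) * (j : ℤ)) :=
    Finset.card_biUnion_le
  exact_mod_cast hGB.trans hB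

end Pool.Agent.H33.AA
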