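import Pool.Agent.H33.AA.Small

/-!
# Job AA-SMALL: pairs `(x,a)` with small gcd (~120 lines)

Only pairs with `NN … 0 x a ≠ 0` matter; by `NN_range` they satisfy `x ≠ 0`,
`S |a| ≤ (2cZ+e)|x| ≤ 3 C Z · Z`, i.e. `1 ≤ |a| ≤ 3 C Z²/S`, and `1 ≤ |x| ≤ Z`.  For them use
`NN_small`:
`NN(0) ≤ NN(τ) + 3 + D τ/(2|x||a|)`.
* number of such pairs `≤ (2Z)(2 · 3 C Z²/S) = 12 C Z³/S` (the number of nonzero integers `a` with
  `|a| ≤ y` is `≤ 2 y` for real `y ≥ 0`), contributing `36 C Z³/S`;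
* `∑_{x,a} D τ/(2|x||a|) ≤ (D τ/2) (2 ∑_{i ≤ Z} 1/i)(2 ∑_{i ≤ S} 1/i) ≤
  2 D τ (1 + log Z)(1 + log S)` (`harmonic_le_one_add_log`).
-/

set_option autoImplicit false

namespace Pool.Agent.H33.AA

open Finset

theorem smallSum_set (n : ℕ) : (Icc (-(n : ℤ)) n).filter (fun x : ℤ => x ≠ 0) =
    (Finset.range n).image (fun i : ℕ => (i : ℤ) + 1) ∪
      (Finset.range n).image (fun i : ℕ => -((i : ℤ) + 1)) := by
  ext x
  simp only [Finset.mem_filter, Finset.mem_Icc, Finset.mem_union, Finset.mem_image,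
    Finset.mem_range]
  constructor
  · rintro ⟨⟨h1, h2⟩, h3⟩
    rcases lt_or_gt_of_ne h3 with h | h
    · exact Or.inr ⟨(-x - 1).toNat, by omega, by omega⟩
    · exact Or.inl ⟨(x - 1).toNat, by omega, by omega⟩
  · rintro (⟨i, hi, rfl⟩ | ⟨i, hi, rfl⟩)
    · exact ⟨⟨by omega, by omega⟩, by omega⟩
    · exact ⟨⟨by omega, by omega⟩, by omega⟩

theorem smallSum_even (n : ℕ) (f : ℤ → ℝ) (hf : ∀ x, f (-x) = f x) :
    ∑ x ∈ (Icc (-(n : ℤ)) n).filter (fun x : ℤ => x ≠ 0), f x =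
      2 * ∑ i ∈ Finset.range n, f ((i : ℤ) + 1) := by
  rw [smallSum_set, Finset.sum_union, Finset.sum_image, Finset.sum_image]
  · simp only [hf]
    ring
  · intro i _ j _ h
    simp only at h
    omega
  · intro i _ j _ h
    simp only at h
    omega
  · rw [Finset.disjoint_left]
    intro x hx hy
    obtain ⟨i, _, rfl⟩ := Finset.mem_image.1 hx
    obtain ⟨j, _, h⟩ := Finset.mem_image.1 hy
    omega

theorem smallSum_card (n : ℕ) :
    (((Icc (-(n : ℤ)) n).filter (fun x : ℤ => x ≠ 0)).card : ℝ) = 2 * n := by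
  have h := smallSum_even n (fun _ => 1) (fun _ => rfl)
  rw [Finset.sum_const, Finset.sum_const, Finset.card_range] at h
  simpa using h

theorem smallSum_inv (n : ℕ) :
    ∑ x ∈ (Icc (-(n : ℤ)) n).filter (fun x : ℤ => x ≠ 0), 1 / |(x : ℝ)| ≤
      2 * (1 + Real.log n) := by
  rw [smallSum_even n (fun x => 1 / |(x : ℝ)|) (fun x => by push_cast; rw [abs_neg])]
  have h1 : ∑ i ∈ Finset.range n, 1 / |(((i : ℤ) + 1 : ℤ) : ℝ)| = ((harmonic n : ℚ) : ℝ) := by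
    unfold harmonic
    push_cast
    refine Finset.sum_congr rfl fun i _ => ?_
    have h2 : (0 : ℝ) < (i : ℝ) + 1 := by positivity
    rw [abs_of_pos h2, one_div]
  rw [h1]
  have h2 := harmonic_le_one_add_log n
  linarith

theorem smallSum_count (S T : ℤ) (hS : 1 ≤ S) (hT : 0 ≤ T) :
    (((Icc (-S) S).filter (fun a : ℤ => a ≠ 0 ∧ S * |a| ≤ T)).card : ℝ) ≤ 2 * (T / S) := by
  obtain ⟨k, hk⟩ : ∃ k : ℕ, T / S = k := ⟨(T / S).toNat, by
    rw [Int.toNat_of_nonneg (Int.ediv_nonneg hT (by omega))]⟩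
  have hsub : (Icc (-S) S).filter (fun a : ℤ => a ≠ 0 ∧ S * |a| ≤ T) ⊆
      (Icc (-(k : ℤ)) k).filter (fun x : ℤ => x ≠ 0) := by
    intro a ha
    obtain ⟨_, h1, h2⟩ := Finset.mem_filter.1 ha
    rw [Finset.mem_filter, Finset.mem_Icc, ← hk, ← abs_le]
    refine ⟨?_, h1⟩
    rw [Int.le_ediv_iff_mul_le (by omega), mul_comm]
    exact h2
  have hS' : (0 : ℝ) < S := by exact_mod_cast (by omega : 0 < S)
  calc (((Icc (-S) S).filter (fun a : ℤ => a ≠ 0 ∧ S * |a| ≤ T)).card : ℝ)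
      ≤ (((Icc (-(k : ℤ)) k).filter (fun x : ℤ => x ≠ 0)).card : ℝ) := by
        exact_mod_cast Finset.card_le_card hsub
    _ = 2 * k := smallSum_card k
    _ ≤ 2 * (T / S) := by
      have h1 : T / S * S ≤ T := Int.ediv_mul_le T (by omega)
      rw [hk] at h1
      have h2 : (k : ℝ) * S ≤ T := by exact_mod_cast h1
      have h3 : (k : ℝ) ≤ T / S := by
        rw [le_div_iff₀ hS']
        exact h2
      linarith

theorem small_sum (F : Fam) (hF : F.Ok) (C : ℤ) (hbC : F.b ≤ C) (hcC : F.c ≤ C) (heC : F.e ≤ C)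
    (Z S h h' τ : ℤ) (D : ℕ) (hZ : 1 ≤ Z) (hZS : Z ≤ S) (h0 : 0 ≤ h) (hS1 : h ≤ S)
    (h0' : 0 ≤ h') (hS1' : h' ≤ S) (hτ : 0 ≤ τ)
    (hτD : 2 * F.b * F.c * (D.factorial : ℤ) ∣ τ) :
    ∑ x ∈ Icc (-Z) Z, ∑ a ∈ (Icc (-S) S).filter (fun a : ℤ => a ≠ 0 ∧ Int.gcd x a ≤ D),
      (F.NN Z S h h' 0 x a : ℝ) ≤
    ∑ x ∈ Icc (-Z) Z, ∑ a ∈ Icc (-S) S, (F.NN Z S h h' τ x a : ℝ) +
      36 * C * Z ^ 3 / S + 2 * D * τ * (1 + Real.log Z) * (1 + Real.log S) := by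
  have hS : 1 ≤ S := hZ.trans hZS
  have hC1 : 1 ≤ C := hF.hc.trans hcC
  set T : ℤ := 3 * C * Z ^ 2 with hT
  have hT0 : 0 ≤ T := by positivity
  set G : ℤ → ℤ → ℝ := fun x a => if x ≠ 0 then
    (if S * |a| ≤ T then 3 else 0) + (D : ℝ) * τ / (2 * |(x : ℝ)| * |(a : ℝ)|) else 0 with hG
  have hτ' : (0 : ℝ) ≤ τ := by exact_mod_cast hτ
  have hG0 : ∀ x a, 0 ≤ G x a := by
    intro x a
    simp only [hG]
    split_ifs <;> positivity
  have key : ∀ x ∈ Icc (-Z) Z, ∀ a ∈ (Icc (-S) S).filter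
      (fun a : ℤ => a ≠ 0 ∧ Int.gcd x a ≤ D),
      (F.NN Z S h h' 0 x a : ℝ) ≤ (F.NN Z S h h' τ x a : ℝ) + G x a := by
    intro x hx a ha
    obtain ⟨_, ha0, hgcd⟩ := Finset.mem_filter.1 ha
    by_cases hne : F.NN Z S h h' 0 x a = 0
    · rw [hne, Nat.cast_zero]
      have := hG0 x a
      positivity
    · obtain ⟨hx0, hr, -⟩ := NN_range F hF Z S h h' x a hS h0 hS1 h0' hS1' ha0 hne
      have hxZ : |x| ≤ Z := abs_le.2 (Finset.mem_Icc.1 hx)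
      have hle : S * |a| ≤ T := by
        refine hr.trans ?_
        have h1 : 2 * F.c * Z + F.e ≤ 3 * C * Z := by
          have h2 : F.c * Z ≤ C * Z := mul_le_mul_of_nonneg_right hcC (by omega)
          have h3 : F.e ≤ C * Z := heC.trans (le_mul_of_one_le_right (by omega) hZ)
          linarith
        calc (2 * F.c * Z + F.e) * |x| ≤ (3 * C * Z) * |x| :=
              mul_le_mul_of_nonneg_right h1 (abs_nonneg x)
          _ ≤ (3 * C * Z) * Z := mul_le_mul_of_nonneg_left hxZ (by positivity)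
          _ = T := by rw [hT]; ring
      have h3 := NN_small F hF Z S h h' τ x a D hx0 ha0 hgcd hτ hτD
      simp only [hG]
      rw [if_pos hx0, if_pos hle]
      linarith
  have hsplit : ∑ x ∈ Icc (-Z) Z, ∑ a ∈ (Icc (-S) S).filter
      (fun a : ℤ => a ≠ 0 ∧ Int.gcd x a ≤ D), (F.NN Z S h h' 0 x a : ℝ) ≤
      ∑ x ∈ Icc (-Z) Z, ∑ a ∈ Icc (-S) S, (F.NN Z S h h' τ x a : ℝ) +
      ∑ x ∈ Icc (-Z) Z, ∑ a ∈ (Icc (-S) S).filter (fun a : ℤ => a ≠ 0), G x a := by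
    rw [← Finset.sum_add_distrib]
    refine Finset.sum_le_sum fun x hx => ?_
    calc _ ≤ ∑ a ∈ (Icc (-S) S).filter (fun a : ℤ => a ≠ 0 ∧ Int.gcd x a ≤ D),
          ((F.NN Z S h h' τ x a : ℝ) + G x a) := Finset.sum_le_sum (key x hx)
      _ = ∑ a ∈ (Icc (-S) S).filter (fun a : ℤ => a ≠ 0 ∧ Int.gcd x a ≤ D),
          (F.NN Z S h h' τ x a : ℝ) +
          ∑ a ∈ (Icc (-S) S).filter (fun a : ℤ => a ≠ 0 ∧ Int.gcd x a ≤ D), G x a :=
        Finset.sum_add_distrib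
      _ ≤ _ := by
        refine add_le_add ?_ ?_
        · exact Finset.sum_le_sum_of_subset_of_nonneg (Finset.filter_subset _ _)
            (fun _ _ _ => Nat.cast_nonneg _)
        · refine Finset.sum_le_sum_of_subset_of_nonneg ?_ (fun _ _ _ => hG0 _ _)
          intro a ha
          obtain ⟨h1, h2, _⟩ := Finset.mem_filter.1 ha
          exact Finset.mem_filter.2 ⟨h1, h2⟩
  obtain ⟨z, rfl⟩ : ∃ z : ℕ, Z = z := ⟨Z.toNat, by omega⟩
  obtain ⟨s, rfl⟩ : ∃ s : ℕ, S = s := ⟨S.toNat, by omega⟩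
  have hGs : ∑ x ∈ Icc (-(z : ℤ)) z, ∑ a ∈ (Icc (-(s : ℤ)) s).filter (fun a : ℤ => a ≠ 0), G x a =
      ((Icc (-(z : ℤ)) z).filter (fun x : ℤ => x ≠ 0)).card *
        (3 * ((Icc (-(s : ℤ)) s).filter (fun a : ℤ => a ≠ 0 ∧ s * |a| ≤ T)).card) +
      (D : ℝ) * τ / 2 * ((∑ x ∈ (Icc (-(z : ℤ)) z).filter (fun x : ℤ => x ≠ 0), 1 / |(x : ℝ)|) *
        ∑ a ∈ (Icc (-(s : ℤ)) s).filter (fun a : ℤ => a ≠ 0), 1 / |(a : ℝ)|) := by
    have e1 : ∑ x ∈ Icc (-(z : ℤ)) z, ∑ a ∈ (Icc (-(s : ℤ)) s).filter (fun a : ℤ => a ≠ 0),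
        G x a = ∑ x ∈ (Icc (-(z : ℤ)) z).filter (fun x : ℤ => x ≠ 0),
          ∑ a ∈ (Icc (-(s : ℤ)) s).filter (fun a : ℤ => a ≠ 0),
          ((if (s : ℤ) * |a| ≤ T then (3 : ℝ) else 0) +
            (D : ℝ) * τ / (2 * |(x : ℝ)| * |(a : ℝ)|)) := by
      rw [Finset.sum_filter]
      refine Finset.sum_congr rfl fun x _ => ?_
      by_cases hx : x = 0
      · simp [hG, hx]
      · simp [hG, hx]
    have e2 : ∀ x : ℤ, ∑ a ∈ (Icc (-(s : ℤ)) s).filter (fun a : ℤ => a ≠ 0),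
          ((if (s : ℤ) * |a| ≤ T then (3 : ℝ) else 0) +
            (D : ℝ) * τ / (2 * |(x : ℝ)| * |(a : ℝ)|)) =
        3 * ((Icc (-(s : ℤ)) s).filter (fun a : ℤ => a ≠ 0 ∧ s * |a| ≤ T)).card +
        (D : ℝ) * τ / 2 * (1 / |(x : ℝ)| *
          ∑ a ∈ (Icc (-(s : ℤ)) s).filter (fun a : ℤ => a ≠ 0), 1 / |(a : ℝ)|) := by
      intro x
      rw [Finset.sum_add_distrib]
      congr 1
      · rw [← Finset.sum_filter, Finset.filter_filter, Finset.sum_const, nsmul_eq_mul]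
        ring
      · rw [Finset.mul_sum, Finset.mul_sum]
        refine Finset.sum_congr rfl fun a _ => ?_
        rw [div_mul_div_comm, div_mul_div_comm]
        congr 1 <;> ring
    rw [e1, Finset.sum_congr rfl (fun x _ => e2 x), Finset.sum_add_distrib, Finset.sum_const,
      nsmul_eq_mul]
    congr 1
    rw [← Finset.mul_sum, ← Finset.sum_mul]
  have hc1 := smallSum_card z
  have hc2 := smallSum_count s T hS hT0
  have hi1 := smallSum_inv z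
  have hi2 := smallSum_inv s
  have hi20 : 0 ≤ ∑ a ∈ (Icc (-(s : ℤ)) s).filter (fun a : ℤ => a ≠ 0), 1 / |(a : ℝ)| :=
    Finset.sum_nonneg fun a _ => by positivity
  have hlz : 0 ≤ Real.log (z : ℝ) := Real.log_natCast_nonneg z
  have hls : 0 ≤ Real.log (s : ℝ) := Real.log_natCast_nonneg s
  have b1 : ((Icc (-(z : ℤ)) z).filter (fun x : ℤ => x ≠ 0)).card *
        (3 * (((Icc (-(s : ℤ)) s).filter (fun a : ℤ => a ≠ 0 ∧ s * |a| ≤ T)).card : ℝ)) ≤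
      36 * C * ((z : ℤ) : ℝ) ^ 3 / ((s : ℤ) : ℝ) := by
    rw [hc1]
    calc 2 * (z : ℝ) * (3 * (((Icc (-(s : ℤ)) s).filter
            (fun a : ℤ => a ≠ 0 ∧ s * |a| ≤ T)).card : ℝ))
        ≤ 2 * (z : ℝ) * (3 * (2 * ((T : ℝ) / ((s : ℤ) : ℝ)))) := by gcongr
      _ = 36 * C * ((z : ℤ) : ℝ) ^ 3 / ((s : ℤ) : ℝ) := by
        rw [hT]
        push_cast
        ring
  have b2 : (D : ℝ) * τ / 2 * ((∑ x ∈ (Icc (-(z : ℤ)) z).filter (fun x : ℤ => x ≠ 0),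
        1 / |(x : ℝ)|) * ∑ a ∈ (Icc (-(s : ℤ)) s).filter (fun a : ℤ => a ≠ 0), 1 / |(a : ℝ)|) ≤
      2 * D * τ * (1 + Real.log ((z : ℤ) : ℝ)) * (1 + Real.log ((s : ℤ) : ℝ)) := by
    have h1 : (∑ x ∈ (Icc (-(z : ℤ)) z).filter (fun x : ℤ => x ≠ 0),
        1 / |(x : ℝ)|) * ∑ a ∈ (Icc (-(s : ℤ)) s).filter (fun a : ℤ => a ≠ 0), 1 / |(a : ℝ)| ≤
        (2 * (1 + Real.log (z : ℝ))) * (2 * (1 + Real.log (s : ℝ))) :=
      mul_le_mul hi1 hi2 hi20 (by positivity)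
    calc _ ≤ (D : ℝ) * τ / 2 * ((2 * (1 + Real.log (z : ℝ))) * (2 * (1 + Real.log (s : ℝ)))) :=
          mul_le_mul_of_nonneg_left h1 (by positivity)
      _ = _ := by
        push_cast
        ring
  refine hsplit.trans ?_
  rw [hGs]
  linarith

end Pool.Agent.H33.AA
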