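import Pool.Agent.H33.AA.Tail
import Pool.Agent.H33.AA.SmallSum
import Pool.Agent.H33.AA.Axis

/-!
# Job AA-MAIN: the main inequality `S(0) ≤ S(τ) + errors` (~100 lines)

By `SS_eq` (cast to `ℝ`), `S(0) = ∑_{h,h'} ∑_x ∑_a NN(0)`.  Split `H ×ˢ H` into `h' = h` and
`h' ∈ H.erase h`, and the sum over `a ∈ [-S,S]` into `a = 0`, `a ≠ 0`.
* `h' = h`: `a = 0` gives `≤ Z S` (`axis_eq`); `a ≠ 0` is `tail_sum` with `D = 0` (`gcd x a > 0` always),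
  `≤ 24 C² Z² ∑_{d ≤ Z} 1/d ≤ 24 C² Z² (1 + log Z)`.
* `h' ≠ h`: `a = 0` gives `≤ 2 R S` (`axis_ne`); `a ≠ 0`, `gcd ≤ D` is `small_sum`; `a ≠ 0`, `gcd > D` is
  `tail_sum`.
The terms `∑_x ∑_a NN(τ)` over `h' ≠ h` add up to at most `S(τ)` (`SS_eq` again, nonnegative terms).
The number of pairs `h' ≠ h` is at most `(#H)²`.
-/

set_option autoImplicit false

namespace Pool.Agent.H33.AA

open Finset

theorem mi_split (S : ℤ) (hS : 0 ≤ S) (f : ℤ → ℝ) :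
    ∑ a ∈ Icc (-S) S, f a = f 0 + ∑ a ∈ (Icc (-S) S).filter (fun a : ℤ => a ≠ 0), f a := by
  have h0 : (0 : ℤ) ∈ Icc (-S) S := by
    rw [mem_Icc]
    constructor <;> linarith
  rw [← Finset.add_sum_erase _ _ h0]
  congr 1
  apply Finset.sum_congr _ (fun _ _ => rfl)
  ext a
  simp [mem_erase, mem_filter, and_comm]

theorem mi_harm (Z : ℤ) (hZ : 1 ≤ Z) :
    ∑ d ∈ Ioc 0 Z.toNat, (1 : ℝ) / d ≤ 1 + Real.log Z := by
  have h1 := harmonic_le_one_add_log Z.toNat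
  have h2 : ((Z.toNat : ℕ) : ℝ) = (Z : ℝ) := by
    have h3 : ((Z.toNat : ℕ) : ℤ) = Z := Int.toNat_of_nonneg (by linarith)
    exact_mod_cast congrArg (fun z : ℤ => (z : ℝ)) h3
  rw [h2] at h1
  refine le_trans (le_of_eq ?_) h1
  rw [harmonic_eq_sum_Icc]
  push_cast
  have h4 : Ioc 0 Z.toNat = Icc 1 Z.toNat := by
    ext d
    simp [mem_Ioc, mem_Icc, Nat.succ_le_iff]
  rw [h4]
  apply Finset.sum_congr rfl
  intro d _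
  rw [one_div]

theorem mi_diag (F : Fam) (hF : F.Ok) (C : ℤ) (hbC : F.b ≤ C) (hcC : F.c ≤ C) (heC : F.e ≤ C)
    (Z S h : ℤ) (hZ : 1 ≤ Z) (hZS : Z ≤ S) (h0 : 0 ≤ h) (hS1 : h ≤ S) :
    ∑ x ∈ Icc (-Z) Z, ∑ a ∈ Icc (-S) S, (F.NN Z S h h 0 x a : ℝ) ≤
      Z * S + 24 * (C : ℝ) ^ 2 * Z ^ 2 * (1 + Real.log Z) := by
  have hS : 1 ≤ S := hZ.trans hZS
  have h1 : ∑ x ∈ Icc (-Z) Z, ∑ a ∈ Icc (-S) S, (F.NN Z S h h 0 x a : ℝ) =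
      ∑ x ∈ Icc (-Z) Z, (F.NN Z S h h 0 x 0 : ℝ) +
      ∑ x ∈ Icc (-Z) Z, ∑ a ∈ (Icc (-S) S).filter (fun a : ℤ => a ≠ 0), (F.NN Z S h h 0 x a : ℝ) := by
    rw [← Finset.sum_add_distrib]
    exact Finset.sum_congr rfl fun x _ => mi_split S (by linarith) _
  have h2 := axis_eq F hF Z S h hZ hS
  have h3 := tail_sum F hF C hbC hcC heC Z S h h 0 hZ hZS h0 hS1 h0 hS1
  have h4 : ∑ x ∈ Icc (-Z) Z, ∑ a ∈ (Icc (-S) S).filter (fun a : ℤ => a ≠ 0 ∧ 0 < Int.gcd x a),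
      (F.NN Z S h h 0 x a : ℝ) =
      ∑ x ∈ Icc (-Z) Z, ∑ a ∈ (Icc (-S) S).filter (fun a : ℤ => a ≠ 0),
        (F.NN Z S h h 0 x a : ℝ) := by
    apply Finset.sum_congr rfl
    intro x _
    apply Finset.sum_congr _ (fun _ _ => rfl)
    apply Finset.filter_congr
    intro a _
    constructor
    · exact fun h => h.1
    · exact fun h => ⟨h, Int.gcd_pos_of_ne_zero_right x h⟩
  have h5 : (Ioc 0 Z.toNat).filter (fun d : ℕ => (d : ℤ) ∣ h - h) = Ioc 0 Z.toNat := by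
    apply Finset.filter_true_of_mem
    intro d _
    rw [sub_self]
    exact dvd_zero _
  rw [h4, h5] at h3
  have h6 : 24 * (C : ℝ) ^ 2 * Z ^ 2 * ∑ d ∈ Ioc 0 Z.toNat, (1 : ℝ) / d ≤
      24 * (C : ℝ) ^ 2 * Z ^ 2 * (1 + Real.log Z) :=
    mul_le_mul_of_nonneg_left (mi_harm Z hZ) (by positivity)
  rw [h1]
  linarith

theorem mi_off (F : Fam) (hF : F.Ok) (C : ℤ) (hbC : F.b ≤ C) (hcC : F.c ≤ C) (heC : F.e ≤ C)
    (Z S R τ h h' : ℤ) (D : ℕ) (hZ : 1 ≤ Z) (hZS : Z ≤ S) (h0 : 0 ≤ h) (hS1 : h ≤ S)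
    (h0' : 0 ≤ h') (hS1' : h' ≤ S) (hne : h ≠ h')
    (hR : 0 ≤ R) (hSR : S ≤ R ^ 2) (hτ : 0 ≤ τ)
    (hτD : 2 * F.b * F.c * (D.factorial : ℤ) ∣ τ) :
    ∑ x ∈ Icc (-Z) Z, ∑ a ∈ Icc (-S) S, (F.NN Z S h h' 0 x a : ℝ) ≤
      ∑ x ∈ Icc (-Z) Z, ∑ a ∈ Icc (-S) S, (F.NN Z S h h' τ x a : ℝ) +
      (2 * R * S + 36 * C * Z ^ 3 / S + 2 * D * τ * (1 + Real.log Z) * (1 + Real.log S)) +
      24 * (C : ℝ) ^ 2 * Z ^ 2 *
        ∑ d ∈ (Ioc D Z.toNat).filter (fun d : ℕ => (d : ℤ) ∣ h - h'), (1 : ℝ) / d := by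
  have hS : 1 ≤ S := hZ.trans hZS
  have h1 : ∑ x ∈ Icc (-Z) Z, ∑ a ∈ Icc (-S) S, (F.NN Z S h h' 0 x a : ℝ) =
      ∑ x ∈ Icc (-Z) Z, (F.NN Z S h h' 0 x 0 : ℝ) +
      (∑ x ∈ Icc (-Z) Z, ∑ a ∈ (Icc (-S) S).filter (fun a : ℤ => a ≠ 0 ∧ Int.gcd x a ≤ D),
        (F.NN Z S h h' 0 x a : ℝ) +
      ∑ x ∈ Icc (-Z) Z, ∑ a ∈ (Icc (-S) S).filter (fun a : ℤ => a ≠ 0 ∧ D < Int.gcd x a),
        (F.NN Z S h h' 0 x a : ℝ)) := by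
    rw [← Finset.sum_add_distrib, ← Finset.sum_add_distrib]
    apply Finset.sum_congr rfl
    intro x _
    rw [mi_split S (by linarith)]
    congr 1
    rw [← Finset.sum_filter_add_sum_filter_not _ (fun a : ℤ => Int.gcd x a ≤ D)]
    rw [Finset.filter_filter, Finset.filter_filter]
    simp only [not_le]
  have h2 := axis_ne F hF Z S R h h' hS hR hSR h0 hS1 h0' hS1' hne
  have h3 := small_sum F hF C hbC hcC heC Z S h h' τ D hZ hZS h0 hS1 h0' hS1' hτ hτD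
  have h4 := tail_sum F hF C hbC hcC heC Z S h h' D hZ hZS h0 hS1 h0' hS1'
  rw [h1]
  linarith

theorem main_ineq (F : Fam) (hF : F.Ok) (C : ℤ) (hbC : F.b ≤ C) (hcC : F.c ≤ C) (heC : F.e ≤ C)
    (H : Finset ℤ) (Z S R τ : ℤ) (D : ℕ) (hH : ∀ h ∈ H, 0 ≤ h ∧ h ≤ S) (hZ : 1 ≤ Z) (hZS : Z ≤ S)
    (hR : 0 ≤ R) (hSR : S ≤ R ^ 2) (hτ : 0 ≤ τ)
    (hτD : 2 * F.b * F.c * (D.factorial : ℤ) ∣ τ) :
    (F.SS H Z S 0 : ℝ) - (F.SS H Z S τ : ℝ) ≤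
      (#H : ℝ) * (Z * S + 24 * (C : ℝ) ^ 2 * Z ^ 2 * (1 + Real.log Z)) +
      (#H : ℝ) ^ 2 * (2 * R * S + 36 * C * Z ^ 3 / S +
        2 * D * τ * (1 + Real.log Z) * (1 + Real.log S)) +
      24 * (C : ℝ) ^ 2 * Z ^ 2 * ∑ h ∈ H, ∑ h' ∈ H.erase h,
        ∑ d ∈ (Ioc D Z.toNat).filter (fun d : ℕ => (d : ℤ) ∣ h - h'), (1 : ℝ) / d := by
  classical
  have hS : 1 ≤ S := hZ.trans hZS
  have hC : 1 ≤ C := hF.hb.trans hbC
  set g : ℤ → ℤ → ℤ → ℝ := fun t h h' =>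
    ∑ x ∈ Icc (-Z) Z, ∑ a ∈ Icc (-S) S, (F.NN Z S h h' t x a : ℝ) with hg
  set T : ℤ → ℤ → ℝ := fun h h' =>
    ∑ d ∈ (Ioc D Z.toNat).filter (fun d : ℕ => (d : ℤ) ∣ h - h'), (1 : ℝ) / d with hT
  set K : ℝ := 2 * R * S + 36 * C * Z ^ 3 / S +
    2 * D * τ * (1 + Real.log Z) * (1 + Real.log S) with hK
  have hSS : ∀ t, (F.SS H Z S t : ℝ) = ∑ h ∈ H, (g t h h + ∑ h' ∈ H.erase h, g t h h') := by
    intro t
    rw [SS_eq]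
    push_cast
    apply Finset.sum_congr rfl
    intro h hh
    exact (Finset.add_sum_erase H (fun h' => g t h h') hh).symm
  have hK0 : 0 ≤ K := by
    have hZr : (1 : ℝ) ≤ Z := by exact_mod_cast hZ
    have hSr : (1 : ℝ) ≤ S := by exact_mod_cast hS
    have hRr : (0 : ℝ) ≤ R := by exact_mod_cast hR
    have hCr : (1 : ℝ) ≤ C := by exact_mod_cast hC
    have hτr : (0 : ℝ) ≤ τ := by exact_mod_cast hτ
    have hlZ : 0 ≤ Real.log Z := Real.log_nonneg hZr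
    have hlS : 0 ≤ Real.log S := Real.log_nonneg hSr
    positivity
  have hg0 : ∀ t h h', 0 ≤ g t h h' := fun t h h' =>
    Finset.sum_nonneg fun x _ => Finset.sum_nonneg fun a _ => Nat.cast_nonneg _
  have hd : ∀ h ∈ H, g 0 h h ≤ Z * S + 24 * (C : ℝ) ^ 2 * Z ^ 2 * (1 + Real.log Z) := by
    intro h hh
    exact mi_diag F hF C hbC hcC heC Z S h hZ hZS (hH h hh).1 (hH h hh).2
  have ho : ∀ h ∈ H, ∀ h' ∈ H.erase h, g 0 h h' ≤ g τ h h' + K +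
      24 * (C : ℝ) ^ 2 * Z ^ 2 * T h h' := by
    intro h hh h' hh'
    obtain ⟨hne, hh2⟩ := Finset.mem_erase.1 hh'
    exact mi_off F hF C hbC hcC heC Z S R τ h h' D hZ hZS (hH h hh).1 (hH h hh).2 (hH h' hh2).1
      (hH h' hh2).2 (Ne.symm hne) hR hSR hτ hτD
  have hrow : ∀ h ∈ H, g 0 h h + ∑ h' ∈ H.erase h, g 0 h h' ≤
      (g τ h h + ∑ h' ∈ H.erase h, g τ h h') +
      ((Z * S + 24 * (C : ℝ) ^ 2 * Z ^ 2 * (1 + Real.log Z)) + (#H : ℝ) * K +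
      24 * (C : ℝ) ^ 2 * Z ^ 2 * ∑ h' ∈ H.erase h, T h h') := by
    intro h hh
    have e1 : ∑ h' ∈ H.erase h, g 0 h h' ≤
        ∑ h' ∈ H.erase h, (g τ h h' + K + 24 * (C : ℝ) ^ 2 * Z ^ 2 * T h h') :=
      Finset.sum_le_sum (ho h hh)
    rw [Finset.sum_add_distrib, Finset.sum_add_distrib, Finset.sum_const, nsmul_eq_mul,
      ← Finset.mul_sum] at e1
    have e2 : ((#(H.erase h) : ℕ) : ℝ) * K ≤ (#H : ℝ) * K := by
      apply mul_le_mul_of_nonneg_right _ hK0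
      exact_mod_cast Finset.card_le_card (Finset.erase_subset h H)
    have e3 := hd h hh
    have e4 := hg0 τ h h
    linarith
  have htot := Finset.sum_le_sum hrow
  rw [← hSS 0] at htot
  rw [Finset.sum_add_distrib, ← hSS τ, Finset.sum_add_distrib, Finset.sum_const, nsmul_eq_mul,
    ← Finset.mul_sum] at htot
  have e5 : (#H : ℝ) * (Z * S + 24 * (C : ℝ) ^ 2 * Z ^ 2 * (1 + Real.log Z) + (#H : ℝ) * K) =
      (#H : ℝ) * (Z * S + 24 * (C : ℝ) ^ 2 * Z ^ 2 * (1 + Real.log Z)) + (#H : ℝ) ^ 2 * K := by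
    ring
  rw [e5] at htot
  linarith

end Pool.Agent.H33.AA
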