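import Pool.Agent.H33.AA.Corr
import Pool.Agent.H33.AA.MainIneq
import Pool.Agent.H33.AA.Lower
import Pool.Agent.H33.AA.LocW

set_option autoImplicit false

namespace Pool.Agent.H33.AA

open Finset

/-- parameter choice -/
theorem choose_D (A : ℝ) (ε : ℝ) (hε : 0 < ε) :
    ∃ D : ℕ, A * ((D : ℝ) + 1) ^ (-(1 / 8) : ℝ) * (Real.log ((D : ℝ) + 3)) ^ 22 ≤ ε := by
  have h1 : Filter.Tendsto (fun x : ℝ => Real.log x ^ (22 : ℝ) / x ^ (1 / 8 : ℝ)) Filter.atTop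
      (nhds 0) :=
    (isLittleO_log_rpow_rpow_atTop (22 : ℝ) (by norm_num : (0 : ℝ) < 1 / 8)).tendsto_div_nhds_zero
  have h2 : Filter.Tendsto (fun D : ℕ => ((D : ℝ) + 3)) Filter.atTop Filter.atTop :=
    Filter.tendsto_atTop_add_const_right _ _ tendsto_natCast_atTop_atTop
  have h3 := (h1.comp h2).const_mul (2 * |A|)
  rw [mul_zero] at h3
  have h4 := (h3.eventually (gt_mem_nhds hε))
  obtain ⟨D, hD⟩ := h4.exists
  refine ⟨D, ?_⟩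
  simp only [Function.comp] at hD
  have hD0 : (0 : ℝ) ≤ D := Nat.cast_nonneg D
  have hlog : 0 ≤ Real.log ((D : ℝ) + 3) := Real.log_nonneg (by linarith)
  have h5 : ((D : ℝ) + 1) ^ (-(1 / 8) : ℝ) ≤ 2 * ((D : ℝ) + 3) ^ (-(1 / 8) : ℝ) := by
    have h6 : ((D : ℝ) + 3) / 3 ≤ (D : ℝ) + 1 := by linarith
    have h7 : ((D : ℝ) + 1) ^ (-(1 / 8) : ℝ) ≤ (((D : ℝ) + 3) / 3) ^ (-(1 / 8) : ℝ) :=
      Real.rpow_le_rpow_of_nonpos (by positivity) h6 (by norm_num)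
    refine h7.trans ?_
    rw [Real.div_rpow (by positivity) (by norm_num), div_eq_mul_inv, ← Real.rpow_neg (by norm_num),
      neg_neg, mul_comm]
    refine mul_le_mul_of_nonneg_right ?_ (by positivity)
    calc (3 : ℝ) ^ (1 / 8 : ℝ) ≤ (2 ^ 8 : ℝ) ^ (1 / 8 : ℝ) :=
          Real.rpow_le_rpow (by norm_num) (by norm_num) (by norm_num)
      _ = 2 := by
          rw [← Real.rpow_natCast, ← Real.rpow_mul (by norm_num)]
          norm_num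
  have h8 : Real.log ((D : ℝ) + 3) ^ (22 : ℝ) = Real.log ((D : ℝ) + 3) ^ 22 := by
    rw [← Real.rpow_natCast]
    norm_num
  rw [h8, div_eq_mul_inv, ← Real.rpow_neg (by positivity)] at hD
  have hp : 0 ≤ Real.log ((D : ℝ) + 3) ^ 22 := by positivity
  calc A * ((D : ℝ) + 1) ^ (-(1 / 8) : ℝ) * (Real.log ((D : ℝ) + 3)) ^ 22
      ≤ |A| * ((D : ℝ) + 1) ^ (-(1 / 8) : ℝ) * (Real.log ((D : ℝ) + 3)) ^ 22 := by
        refine mul_le_mul_of_nonneg_right ?_ hp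
        exact mul_le_mul_of_nonneg_right (le_abs_self A) (by positivity)
    _ ≤ |A| * (2 * ((D : ℝ) + 3) ^ (-(1 / 8) : ℝ)) * (Real.log ((D : ℝ) + 3)) ^ 22 := by
        refine mul_le_mul_of_nonneg_right ?_ hp
        exact mul_le_mul_of_nonneg_left h5 (abs_nonneg A)
    _ = 2 * |A| * (Real.log ((D : ℝ) + 3) ^ 22 * ((D : ℝ) + 3) ^ (-(1 / 8) : ℝ)) := by ring
    _ ≤ ε := hD.le

/-- the numerical form of the error bound -/
theorem err_bound (C C1 b x t n D δ s2 K : ℝ) (hC : 1 ≤ C) (hC1 : 0 < C1) (hb : 1 ≤ b)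
    (hx : 1 ≤ x) (hn : 0 ≤ n) (hD : 0 ≤ D) (_ht0 : 0 ≤ t) (ht : t ≤ 5 * b * n * C ^ 2 * x ^ 9)
    (hs2 : s2 ≤ C1 * x ^ 4 * (δ / (24 * C ^ 2 * C1) + 1 / x))
    (hK : K = 193 * C ^ 2 + 2 * C ^ 3 + 36 + 80 * D * b * n * C ^ 2 * (9 + 2 * C) +
      24 * C ^ 2 * C1) (hδ : 0 < δ) (hxK : K / δ ≤ x) :
    x ^ 2 * (x ^ 7 * (C ^ 2 * x ^ 8) + 24 * C ^ 2 * (x ^ 7) ^ 2 * (1 + Real.log (x ^ 7))) +
      (x ^ 2) ^ 2 * (2 * (C * x ^ 4) * (C ^ 2 * x ^ 8) + 36 * C * (x ^ 7) ^ 3 / (C ^ 2 * x ^ 8) +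
        2 * D * t * (1 + Real.log (x ^ 7)) * (1 + Real.log (C ^ 2 * x ^ 8))) +
      24 * C ^ 2 * (x ^ 7) ^ 2 * s2 ≤ 2 * δ * x ^ 18 := by
  have hx0 : 0 < x := by linarith
  have hC0 : 0 < C := by linarith
  have hl1 : Real.log (x ^ 7) ≤ 7 * x := by
    rw [Real.log_pow]
    have := Real.log_le_sub_one_of_pos hx0
    push_cast
    linarith
  have hl10 : 0 ≤ Real.log (x ^ 7) := Real.log_nonneg (one_le_pow₀ hx)
  have hl2 : Real.log (C ^ 2 * x ^ 8) ≤ 2 * C + 8 * x := by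
    rw [Real.log_mul (by positivity) (by positivity), Real.log_pow, Real.log_pow]
    have h1 := Real.log_le_sub_one_of_pos hx0
    have h2 := Real.log_le_sub_one_of_pos hC0
    push_cast
    linarith
  have hl20 : 0 ≤ Real.log (C ^ 2 * x ^ 8) := by
    refine Real.log_nonneg ?_
    have h1 : 1 ≤ C ^ 2 := one_le_pow₀ hC
    have h2 : 1 ≤ x ^ 8 := one_le_pow₀ hx
    nlinarith
  have a1 : 1 + Real.log (x ^ 7) ≤ 8 * x := by linarith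
  have a2 : 1 + Real.log (C ^ 2 * x ^ 8) ≤ (9 + 2 * C) * x := by nlinarith
  have t1 : x ^ 2 * (x ^ 7 * (C ^ 2 * x ^ 8) + 24 * C ^ 2 * (x ^ 7) ^ 2 * (1 + Real.log (x ^ 7)))
      ≤ 193 * C ^ 2 * x ^ 17 := by
    calc x ^ 2 * (x ^ 7 * (C ^ 2 * x ^ 8) + 24 * C ^ 2 * (x ^ 7) ^ 2 * (1 + Real.log (x ^ 7)))
        ≤ x ^ 2 * (x ^ 7 * (C ^ 2 * x ^ 8) + 24 * C ^ 2 * (x ^ 7) ^ 2 * (8 * x)) := by
          gcongr
      _ = 193 * C ^ 2 * x ^ 17 := by ring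
  have t2a : 2 * (C * x ^ 4) * (C ^ 2 * x ^ 8) ≤ 2 * C ^ 3 * x ^ 13 := by
    have : x ^ 12 ≤ x ^ 13 := pow_le_pow_right₀ hx (by norm_num)
    calc 2 * (C * x ^ 4) * (C ^ 2 * x ^ 8) = 2 * C ^ 3 * x ^ 12 := by ring
      _ ≤ _ := by gcongr
  have t2b : 36 * C * (x ^ 7) ^ 3 / (C ^ 2 * x ^ 8) ≤ 36 * x ^ 13 := by
    rw [div_le_iff₀ (by positivity)]
    have h1 : C ≤ C ^ 2 := by nlinarith
    calc 36 * C * (x ^ 7) ^ 3 = 36 * C * x ^ 21 := by ring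
      _ ≤ 36 * C ^ 2 * x ^ 21 := by gcongr
      _ = 36 * x ^ 13 * (C ^ 2 * x ^ 8) := by ring
  have t2c : 2 * D * t * (1 + Real.log (x ^ 7)) * (1 + Real.log (C ^ 2 * x ^ 8)) ≤
      80 * D * b * n * C ^ 2 * (9 + 2 * C) * x ^ 13 := by
    calc 2 * D * t * (1 + Real.log (x ^ 7)) * (1 + Real.log (C ^ 2 * x ^ 8))
        ≤ 2 * D * (5 * b * n * C ^ 2 * x ^ 9) * (8 * x) * ((9 + 2 * C) * x) := by
          gcongr
      _ = 80 * D * b * n * C ^ 2 * (9 + 2 * C) * x ^ 11 := by ring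
      _ ≤ 80 * D * b * n * C ^ 2 * (9 + 2 * C) * x ^ 13 := by
          have : x ^ 11 ≤ x ^ 13 := pow_le_pow_right₀ hx (by norm_num)
          gcongr
  have t2 : (x ^ 2) ^ 2 * (2 * (C * x ^ 4) * (C ^ 2 * x ^ 8) +
      36 * C * (x ^ 7) ^ 3 / (C ^ 2 * x ^ 8) +
        2 * D * t * (1 + Real.log (x ^ 7)) * (1 + Real.log (C ^ 2 * x ^ 8))) ≤
      (2 * C ^ 3 + 36 + 80 * D * b * n * C ^ 2 * (9 + 2 * C)) * x ^ 17 := by
    calc _ ≤ (x ^ 2) ^ 2 * (2 * C ^ 3 * x ^ 13 + 36 * x ^ 13 +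
          80 * D * b * n * C ^ 2 * (9 + 2 * C) * x ^ 13) := by
          gcongr
      _ = _ := by ring
  have t3 : 24 * C ^ 2 * (x ^ 7) ^ 2 * s2 ≤ δ * x ^ 18 + 24 * C ^ 2 * C1 * x ^ 17 := by
    calc 24 * C ^ 2 * (x ^ 7) ^ 2 * s2
        ≤ 24 * C ^ 2 * (x ^ 7) ^ 2 * (C1 * x ^ 4 * (δ / (24 * C ^ 2 * C1) + 1 / x)) := by
          gcongr
      _ = δ * x ^ 18 + 24 * C ^ 2 * C1 * x ^ 17 := by
          field_simp
  have hKx : K * x ^ 17 ≤ δ * x ^ 18 := by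
    have h1 : K ≤ δ * x := by
      rw [div_le_iff₀ hδ] at hxK
      linarith
    calc K * x ^ 17 ≤ (δ * x) * x ^ 17 := by gcongr
      _ = δ * x ^ 18 := by ring
  have : 193 * C ^ 2 * x ^ 17 + (2 * C ^ 3 + 36 + 80 * D * b * n * C ^ 2 * (9 + 2 * C)) * x ^ 17 +
      24 * C ^ 2 * C1 * x ^ 17 = K * x ^ 17 := by
    rw [hK]; ring
  linarith


open Classical in
theorem range_bad (F : Fam) (hF : F.Ok) (ε : ℝ) (hε : 0 < ε) :
    ∃ n X0 : ℕ, 1 ≤ n ∧ ∀ X : ℕ, X0 ≤ X → n ∣ X → ∀ S : ℤ, S = F.C ^ 2 * (X : ℤ) ^ 8 →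
      (#{v ∈ Icc (2 * F.b * S ^ 2) (3 * F.b * S ^ 2) | ¬ F.Rep v} : ℝ) ≤ ε * (S : ℝ) ^ 2 := by
  obtain ⟨⟨hh1, hh2, hh3, hh4⟩, hmono, hM, hHH, hcard⟩ := h_facts F hF
  obtain ⟨C1, hC1, hdiv⟩ := div_fam F hF
  obtain ⟨c0, hc0, hcnt⟩ := cnt_W F hF
  have hb := hF.hb
  have hc := hF.hc
  have he := hF.he
  have hu := hF.hu
  have hbC : F.b ≤ F.C := by unfold Fam.C; omega
  have hcC : F.c ≤ F.C := by unfold Fam.C; omega
  have heC : F.e ≤ F.C := by unfold Fam.C; omega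
  have huC : F.u + 1 ≤ F.C := by unfold Fam.C; omega
  have hC1' : 1 ≤ F.C := by omega
  have hbR : (1 : ℝ) ≤ (F.b : ℝ) := by exact_mod_cast hb
  have hCR : (1 : ℝ) ≤ (F.C : ℝ) := by exact_mod_cast hC1'
  set b : ℝ := (F.b : ℝ) with hbdef
  set C : ℝ := (F.C : ℝ) with hCdef
  obtain ⟨D, hD⟩ := choose_D (2400 * b ^ 2 * C ^ 2 * C1 / c0 ^ 2) ε hε
  set δ : ℝ := 24 * C ^ 2 * C1 * ((D : ℝ) + 1) ^ (-(1 / 8) : ℝ) with hδdef
  have hD0 : (0 : ℝ) ≤ D := Nat.cast_nonneg D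
  have hδ : 0 < δ := by positivity
  set n : ℕ := (2 * F.b * F.c).toNat * D.factorial with hndef
  have h2bc : 1 ≤ 2 * F.b * F.c := by nlinarith
  have hnZ : (n : ℤ) = 2 * F.b * F.c * (D.factorial : ℤ) := by
    rw [hndef]
    push_cast
    rw [Int.toNat_of_nonneg (by omega)]
  have hn1 : 1 ≤ n := by
    have h1 : 1 ≤ (2 * F.b * F.c).toNat := by omega
    have h2 : 1 ≤ D.factorial := Nat.factorial_pos D
    calc 1 = 1 * 1 := rfl
      _ ≤ _ := Nat.mul_le_mul h1 h2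
  have : NeZero n := ⟨by omega⟩
  set K : ℝ := 193 * C ^ 2 + 2 * C ^ 3 + 36 + 80 * D * b * n * C ^ 2 * (9 + 2 * C) +
      24 * C ^ 2 * C1 with hKdef
  refine ⟨n, max (max 2 (10 * n)) ⌈K / δ⌉₊, hn1, ?_⟩
  intro X hX hnX S hS
  have hX2 : 2 ≤ X := le_trans (le_trans (le_max_left _ _) (le_max_left _ _)) hX
  have hX10 : 10 * n ≤ X := le_trans (le_trans (le_max_right _ _) (le_max_left _ _)) hX
  have hXK : K / δ ≤ (X : ℝ) :=
    le_trans (Nat.le_ceil _) (by exact_mod_cast le_trans (le_max_right _ _) hX)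
  have hX1 : 1 ≤ X := by omega
  have hxR : (1 : ℝ) ≤ (X : ℝ) := by exact_mod_cast hX1
  have hXZ : (2 : ℤ) ≤ (X : ℤ) := by exact_mod_cast hX2
  set x : ℝ := (X : ℝ) with hxdef
  have hSR : (S : ℝ) = C ^ 2 * x ^ 8 := by rw [hS]; push_cast; rfl
  -- integer facts
  have hX8 : (X : ℤ) ^ 7 ≤ (X : ℤ) ^ 8 := pow_le_pow_right₀ (by omega) (by norm_num)
  have hX7 : (X : ℤ) * X ≤ (X : ℤ) ^ 8 := by
    calc (X : ℤ) * X = (X : ℤ) ^ 2 := by ring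
      _ ≤ _ := pow_le_pow_right₀ (by omega) (by norm_num)
  have hCsq : 1 ≤ F.C ^ 2 := one_le_pow₀ hC1'
  have hX8S : (X : ℤ) ^ 8 ≤ S := by
    rw [hS]
    have : 0 ≤ (X : ℤ) ^ 8 := by positivity
    nlinarith
  have hS1 : 1 ≤ S := by
    have : 1 ≤ (X : ℤ) ^ 8 := one_le_pow₀ (by omega)
    omega
  have hZ1 : 1 ≤ (X : ℤ) ^ 7 := one_le_pow₀ (by omega)
  have hYS : 10 * ((n : ℤ) * X) ≤ S := by
    have h1 : (10 * n : ℤ) ≤ X := by exact_mod_cast hX10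
    nlinarith
  -- `b S² + u S + S + c X^14 + e X^7 ≤ 2 b S²`
  have hSC : 4 * F.C ≤ S := by
    rw [hS]
    have h1 : (2 : ℤ) ^ 8 ≤ (X : ℤ) ^ 8 := pow_le_pow_left₀ (by norm_num) hXZ 8
    nlinarith
  have hv0 : F.b * S ^ 2 + F.u * S + S + (F.c * (X : ℤ) ^ 14 + F.e * (X : ℤ) ^ 7) ≤
      2 * F.b * S ^ 2 := by
    have h1 : F.u * S + S ≤ F.C * S := by nlinarith
    have h2 : 4 * (F.C * S) ≤ S ^ 2 := by nlinarith
    have h3 : (X : ℤ) ^ 7 ≤ (X : ℤ) ^ 14 := pow_le_pow_right₀ (by omega) (by norm_num)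
    have h4 : F.c * (X : ℤ) ^ 14 + F.e * (X : ℤ) ^ 7 ≤ 2 * F.C * (X : ℤ) ^ 14 := by
      have h5 : 0 ≤ (X : ℤ) ^ 7 := by positivity
      have h6 : 0 ≤ (X : ℤ) ^ 14 := by positivity
      nlinarith
    have h7 : 4 * (F.C * (X : ℤ) ^ 14) ≤ S ^ 2 := by
      have h8 : S ^ 2 = F.C ^ 4 * ((X : ℤ) ^ 2 * (X : ℤ) ^ 14) := by rw [hS]; ring
      rw [h8]
      have h9 : (4 : ℤ) ≤ (X : ℤ) ^ 2 := by nlinarith
      have h10 : F.C ≤ F.C ^ 4 := by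
        calc F.C = F.C ^ 1 := by ring
          _ ≤ F.C ^ 4 := pow_le_pow_right₀ hC1' (by norm_num)
      have h11 : 0 ≤ (X : ℤ) ^ 14 := by positivity
      calc 4 * (F.C * (X : ℤ) ^ 14) = F.C * (4 * (X : ℤ) ^ 14) := by ring
        _ ≤ F.C ^ 4 * ((X : ℤ) ^ 2 * (X : ℤ) ^ 14) := by
            refine mul_le_mul h10 (mul_le_mul_of_nonneg_right h9 h11) (by positivity)
              (by positivity)
    have h12 : S ^ 2 ≤ F.b * S ^ 2 := by nlinarith [sq_nonneg S]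
    nlinarith
  -- objects
  set H := F.HH X with hHdef
  set Z : ℤ := (X : ℤ) ^ 7 with hZdef
  have hZR : (Z : ℝ) = x ^ 7 := by rw [hZdef]; push_cast; rfl
  have hHcard : (#H : ℝ) = x ^ 2 := by rw [hHdef, hcard X]; push_cast; rfl
  set A : Finset ℤ := {v ∈ Icc (2 * F.b * S ^ 2) (3 * F.b * S ^ 2) | ¬ F.Rep v} with hA
  obtain ⟨J, hJ⟩ : ∃ J : ℕ, (J : ℤ) = 5 * F.b * S * X := by
    refine ⟨(5 * F.b * S * X).toNat, ?_⟩
    rw [Int.toNat_of_nonneg (by positivity)]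
  have hJR : (J : ℝ) = 5 * b * (C ^ 2 * x ^ 8) * x := by
    have : ((J : ℤ) : ℝ) = ((5 * F.b * S * X : ℤ) : ℝ) := by rw [hJ]
    push_cast at this
    rw [this, hSR]
  set lg : ℝ := Real.log ((D : ℝ) + 3) with hlg
  have hlgpos : 0 < lg := Real.log_pos (by linarith)
  set L : ℝ := x ^ 10 * (c0 / lg ^ 11) with hL
  have hLpos : 0 < L := by positivity
  have hkey : (#A : ℝ) * L ^ 2 ≤ 2 * (J : ℝ) ^ 2 * (2 * δ * x ^ 18) := by
    refine bad_count (Bx H Z S) F.val A (n : ℤ) J L (2 * δ * x ^ 18) hLpos.le ?_ ?_ ?_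
    · intro v hv t ht htv
      rw [hA, mem_filter] at hv
      apply hv.2
      unfold Bx at ht
      rw [mem_product, mem_product] at ht
      obtain ⟨ht1, ht2, ht3⟩ := ht
      rw [mem_Icc] at ht2
      rw [mem_Ioc] at ht3
      rw [hHdef] at ht1
      unfold Fam.HH at ht1
      rw [mem_image] at ht1
      obtain ⟨k, -, hk⟩ := ht1
      refine ⟨(k : ℤ), t.2.1, t.2.2, by positivity, ht2.1, by omega, ?_⟩
      rw [hk]
      exact htv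
    · intro v hv
      rw [hA, mem_filter, mem_Icc] at hv
      have h1 := lower F hF X n hX1 hnX S v hS hYS (hv0.trans hv.1.1) hv.1.2 J hJ
      have h2 := hcnt D n hnZ v
      have hnR : (0 : ℝ) < n := by exact_mod_cast hn1
      calc L = x ^ 10 * (c0 / lg ^ 11 * (n : ℝ) ^ 2) / (n : ℝ) ^ 2 := by
            rw [hL]; field_simp
        _ ≤ x ^ 10 * (F.cnt n (v : ZMod n) : ℝ) / (n : ℝ) ^ 2 := by gcongr
        _ ≤ _ := h1
    · intro j hj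
      rw [mem_Icc] at hj
      have hR0 : 0 ≤ F.C * (X : ℤ) ^ 4 := by positivity
      have hSR2 : S ≤ (F.C * (X : ℤ) ^ 4) ^ 2 := by rw [hS]; apply le_of_eq; ring
      have hτ0 : 0 ≤ (n : ℤ) * (j : ℤ) := by positivity
      have hτD : 2 * F.b * F.c * (D.factorial : ℤ) ∣ (n : ℤ) * (j : ℤ) := by
        rw [hnZ]; exact Dvd.intro _ rfl
      have hZS : Z ≤ S := by omega
      have h1 := main_ineq F hF F.C hbC hcC heC H Z S (F.C * (X : ℤ) ^ 4) ((n : ℤ) * (j : ℤ)) D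
        (by
          intro h hh
          have := hHH X hX1 h hh
          rw [hS]
          exact this) hZ1 hZS hR0 hSR2 hτ0 hτD
      have h2 := hdiv X D Z.toNat hX1
      rw [← hHdef] at h2
      have hSS0 : (#{q ∈ Bx H Z S ×ˢ Bx H Z S | F.val q.1 = F.val q.2} : ℝ) =
          (F.SS H Z S 0 : ℝ) := by
        unfold Fam.SS
        simp only [add_zero]
      have hSS1 : (#{q ∈ Bx H Z S ×ˢ Bx H Z S | F.val q.1 + (n : ℤ) * (j : ℤ) = F.val q.2} : ℝ) =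
          (F.SS H Z S ((n : ℤ) * (j : ℤ)) : ℝ) := rfl
      rw [hSS0, hSS1]
      refine h1.trans ?_
      have hjJ : (j : ℝ) ≤ 5 * b * (C ^ 2 * x ^ 8) * x := by
        rw [← hJR]; exact_mod_cast hj.2
      have h3 := err_bound C C1 b x ((n : ℝ) * j) n D δ
        (∑ h ∈ H, ∑ h' ∈ H.erase h,
          ∑ d ∈ (Ioc D Z.toNat).filter (fun d : ℕ => (d : ℤ) ∣ h - h'), (1 : ℝ) / d) K hCR hC1 hbR
        hxR (Nat.cast_nonneg n) hD0 (by positivity) (by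
          calc (n : ℝ) * j ≤ n * (5 * b * (C ^ 2 * x ^ 8) * x) := by gcongr
            _ = 5 * b * n * C ^ 2 * x ^ 9 := by ring) (by
          have : δ / (24 * C ^ 2 * C1) = ((D : ℝ) + 1) ^ (-(1 / 8) : ℝ) := by
            rw [hδdef]; field_simp
          rw [this]
          exact h2) rfl hδ hXK
      rw [hHcard, hZR, hSR]
      push_cast
      exact h3
  -- conclusion
  have hJ2 : 2 * (J : ℝ) ^ 2 * (2 * δ * x ^ 18) =
      (100 * b ^ 2 * δ * lg ^ 22 / c0 ^ 2) * (S : ℝ) ^ 2 * L ^ 2 := by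
    rw [hJR, hSR, hL]
    field_simp
    ring
  rw [hJ2] at hkey
  have hfin : (#A : ℝ) ≤ (100 * b ^ 2 * δ * lg ^ 22 / c0 ^ 2) * (S : ℝ) ^ 2 :=
    le_of_mul_le_mul_right hkey (by positivity)
  refine hfin.trans ?_
  refine mul_le_mul_of_nonneg_right ?_ (sq_nonneg _)
  refine le_trans (le_of_eq ?_) hD
  rw [hδdef]
  ring

end Pool.Agent.H33.AA
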