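import Mathlib

/-!
# Job AA-K: number of `k` with `A - B k⁴` a unit modulo `p^e` (~80 lines)

`A - B k⁴` is a unit of `ZMod (p^e)` iff its residue mod `p` is nonzero (`e ≥ 1`), and every class mod
`p` contains `p^{e-1}` elements of `ZMod (p^e)` (e.g. via `ZMod.castHom`, fibres of a surjective group
homomorphism, or write `k` as the cast of a number in `[0,p^e)`).  In `ZMod p`, with `B ≠ 0`:
* at most 4 elements `k` satisfy `B k⁴ = A` (roots of a nonzero polynomial of degree 4), so at least
  `p - 4` are good;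
* at least one of `k = 0`, `k = 1` is good (`A` and `A - B` are not both zero).
-/

set_option autoImplicit false

namespace Pool.Agent.H33.AA

open Finset

/-- units modulo a prime power are detected modulo the prime -/
theorem kCount_unit (n p e : ℕ) [NeZero n] (hp : p.Prime) (he : 1 ≤ e) (hn : n = p ^ e)
    (hd : p ∣ n) (x : ZMod n) : IsUnit x ↔ ZMod.castHom hd (ZMod p) x ≠ 0 := by
  have h1 : x = ((x.val : ℕ) : ZMod n) := (ZMod.natCast_zmod_val x).symm
  have h2 : ZMod.castHom hd (ZMod p) x = ((x.val : ℕ) : ZMod p) := by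
    conv_lhs => rw [h1]
    rw [map_natCast]
  have h3 : IsUnit x ↔ x.val.Coprime n := by
    conv_lhs => rw [h1]
    exact ZMod.isUnit_iff_coprime _ _
  have h4 : ∀ m : ℕ, m.Coprime n ↔ ¬ p ∣ m := by
    intro m
    rw [hn, Nat.coprime_pow_right_iff (by omega), Nat.coprime_comm,
      Nat.Prime.coprime_iff_not_dvd hp]
  rw [h2, h3, h4, Ne, ZMod.natCast_eq_zero_iff]

theorem kCount_good (p : ℕ) [Fact p.Prime] (a b : ZMod p) (hb : b ≠ 0) :
    max 1 (p - 4) ≤ #{j : ZMod p | a - b * j ^ 4 ≠ 0} := by
  apply max_le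
  · rw [Nat.succ_le_iff, Finset.card_pos]
    by_cases ha : a = 0
    · refine ⟨1, ?_⟩
      rw [Finset.mem_filter]
      refine ⟨Finset.mem_univ _, ?_⟩
      rw [ha, one_pow, mul_one, zero_sub]
      exact neg_ne_zero.2 hb
    · refine ⟨0, ?_⟩
      rw [Finset.mem_filter]
      refine ⟨Finset.mem_univ _, ?_⟩
      rw [zero_pow (by norm_num), mul_zero, sub_zero]
      exact ha
  · have h1 : #{j : ZMod p | ¬ (a - b * j ^ 4 ≠ 0)} ≤ 4 := by
      have h2 : ({j : ZMod p | ¬ (a - b * j ^ 4 ≠ 0)} : Finset (ZMod p)) ⊆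
          (Polynomial.nthRoots 4 (a / b)).toFinset := by
        intro j hj
        rw [Finset.mem_filter] at hj
        have h3 := not_not.1 hj.2
        rw [Multiset.mem_toFinset, Polynomial.mem_nthRoots (by norm_num), eq_div_iff hb]
        linear_combination -h3
      exact (Finset.card_le_card h2).trans ((Multiset.toFinset_card_le _).trans
        (Polynomial.card_nthRoots 4 _))
    have h4 := Finset.card_filter_add_card_filter_not
      (s := (Finset.univ : Finset (ZMod p))) (fun j : ZMod p => a - b * j ^ 4 ≠ 0)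
    rw [Finset.card_univ, ZMod.card] at h4
    omega

open Classical in
theorem k_count (n p e : ℕ) [NeZero n] (hp : p.Prime) (he : 1 ≤ e) (hn : n = p ^ e)
    (A B : ZMod n) (hB : IsUnit B) :
    p ^ (e - 1) * max 1 (p - 4) ≤ #{k : ZMod n | IsUnit (A - B * k ^ 4)} := by
  have : Fact p.Prime := ⟨hp⟩
  have hd : p ∣ n := by rw [hn]; exact dvd_pow_self p (by omega)
  set f := ZMod.castHom hd (ZMod p) with hf
  have hfs : Function.Surjective f := ZMod.castHom_surjective hd
  have hb : f B ≠ 0 := (kCount_unit n p e hp he hn hd B).1 hB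
  -- all fibres have the same size
  have hfib : ∀ j : ZMod p, #{k : ZMod n | f k = j} = p ^ (e - 1) := by
    have h1 : ∀ i j : ZMod p, #{k : ZMod n | f k = i} = #{k : ZMod n | f k = j} := fun i j =>
      AddMonoidHom.card_fiber_eq_of_mem_range f.toAddMonoidHom (hfs i) (hfs j)
    have h2 : ∑ j : ZMod p, #{k : ZMod n | f k = j} = n := by
      have h3 := Finset.card_eq_sum_card_fiberwise (s := (Finset.univ : Finset (ZMod n)))
        (t := (Finset.univ : Finset (ZMod p))) (f := f) (fun _ _ => Finset.mem_coe.2 (Finset.mem_univ _))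
      rw [Finset.card_univ, ZMod.card] at h3
      exact h3.symm
    intro j
    rw [Finset.sum_congr rfl fun i _ => h1 i j, Finset.sum_const, Finset.card_univ, ZMod.card,
      smul_eq_mul] at h2
    have h4 : p ^ e = p * p ^ (e - 1) := by
      rw [← pow_succ']
      congr 1
      omega
    have h5 : p * #{k : ZMod n | f k = j} = p * p ^ (e - 1) := by rw [h2, hn, h4]
    exact Nat.eq_of_mul_eq_mul_left hp.pos h5
  have h6 : #{k : ZMod n | IsUnit (A - B * k ^ 4)} =
      ∑ j ∈ ({j : ZMod p | f A - f B * j ^ 4 ≠ 0} : Finset (ZMod p)), #{k : ZMod n | f k = j} := by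
    rw [Finset.card_eq_sum_card_fiberwise (f := f)
      (t := ({j : ZMod p | f A - f B * j ^ 4 ≠ 0} : Finset (ZMod p)))]
    · refine Finset.sum_congr rfl fun j hj => ?_
      rw [Finset.mem_filter] at hj
      congr 1
      ext k
      rw [Finset.mem_filter, Finset.mem_filter, Finset.mem_filter]
      constructor
      · exact fun h => ⟨Finset.mem_univ _, h.2⟩
      · intro h
        refine ⟨⟨Finset.mem_univ _, ?_⟩, h.2⟩
        rw [kCount_unit n p e hp he hn hd, map_sub, map_mul, map_pow, ← hf, h.2]
        exact hj.2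
    · intro k hk
      rw [Finset.mem_coe, Finset.mem_filter] at hk ⊢
      refine ⟨Finset.mem_univ _, ?_⟩
      have h7 := (kCount_unit n p e hp he hn hd _).1 hk.2
      rw [map_sub, map_mul, map_pow] at h7
      exact h7
  rw [h6, Finset.sum_congr rfl fun j _ => hfib j, Finset.sum_const, smul_eq_mul, mul_comm]
  refine Nat.mul_le_mul_right _ ?_
  have h8 := kCount_good p (f A) (f B) hb
  convert h8 using 2

end Pool.Agent.H33.AA
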