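import Pool.Agent.H33.AA.Defs

/-!
# Job AA-BAD: primes where one quadratic polynomial is a bijection (~80 lines)

Case `p ∣ b`, `p ∤ u`.  In `R = ZMod n`, `n = p^e`: the map `ψ(s) = b s² + u s` is injective:
`ψ(s) - ψ(s') = (s - s')(b (s + s') + u)` and `b (s+s') + u` is a unit (its residue mod `p` is `u ≠ 0`;
an integer (cast) is a unit of `ZMod (p^e)` iff it is coprime to `p`, `ZMod.isUnit_iff_coprime` /
write elements as casts of integers).  `R` is finite, so `ψ` is bijective (`Finite.injective_iff_bijective`)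
and for every `(k,w)` there is exactly one `s` with `FR (k,w,s) = v`; hence `cnt = n · n = n²`.
Case `p ∣ c`, `p ∤ e`: the same with `w`.
-/

set_option autoImplicit false

namespace Pool.Agent.H33.AA

open Finset

theorem bad_unit (b u : ℤ) (n p e : ℕ) [NeZero n] (hp : p.Prime) (hn : n = p ^ e)
    (hb : (p : ℤ) ∣ b) (hu : ¬ (p : ℤ) ∣ u) (x : ZMod n) :
    IsUnit ((b : ZMod n) * x + (u : ZMod n)) := by
  have h1 : (b : ZMod n) * x + (u : ZMod n) = ((b * (x.val : ℤ) + u : ℤ) : ZMod n) := by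
    push_cast
    rw [ZMod.natCast_zmod_val]
  rw [h1, ZMod.coe_int_isUnit_iff_isCoprime]
  generalize x.val = y
  rw [hn, Nat.cast_pow]
  apply IsCoprime.pow_left
  rw [Prime.coprime_iff_not_dvd (Nat.prime_iff_prime_int.1 hp)]
  intro h2
  exact hu ((dvd_add_right (Dvd.dvd.mul_right hb _)).1 h2)

theorem bad_bij (b u : ℤ) (n p e : ℕ) [NeZero n] (hp : p.Prime) (hn : n = p ^ e)
    (hb : (p : ℤ) ∣ b) (hu : ¬ (p : ℤ) ∣ u) :
    Function.Bijective (fun s : ZMod n => (b : ZMod n) * s ^ 2 + (u : ZMod n) * s) := by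
  rw [← Finite.injective_iff_bijective]
  intro s s' h
  have h1 : (s - s') * ((b : ZMod n) * (s + s') + (u : ZMod n)) = 0 := by
    have h2 : (b : ZMod n) * s ^ 2 + (u : ZMod n) * s =
      (b : ZMod n) * s' ^ 2 + (u : ZMod n) * s' := h
    linear_combination h2
  exact sub_eq_zero.1 ((bad_unit b u n p e hp hn hb hu (s + s')).mul_left_eq_zero.1 h1)

theorem cnt_bad (F : Fam) (n p e : ℕ) [NeZero n] (hp : p.Prime) (he : 1 ≤ e) (hn : n = p ^ e)
    (h : ((p : ℤ) ∣ F.b ∧ ¬ (p : ℤ) ∣ F.u) ∨ ((p : ℤ) ∣ F.c ∧ ¬ (p : ℤ) ∣ F.e))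
    (v : ZMod n) : F.cnt n v = n ^ 2 := by
  classical
  have hcard : Fintype.card (ZMod n × ZMod n) = n ^ 2 := by
    rw [Fintype.card_prod, ZMod.card, sq]
  rcases h with ⟨hb, hu⟩ | ⟨hc, hee⟩
  · set E := Equiv.ofBijective _ (bad_bij F.b F.u n p e hp hn hb hu) with hE
    have hEa : ∀ s, E s = (F.b : ZMod n) * s ^ 2 + (F.u : ZMod n) * s := fun s => rfl
    set A : ZMod n × ZMod n → ZMod n := fun r =>
      ((F.h1 : ZMod n) * r.1 + (F.h2 : ZMod n) * r.1 ^ 2 + (F.h3 : ZMod n) * r.1 ^ 3 +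
        (F.h4 : ZMod n) * r.1 ^ 4) + ((F.c : ZMod n) * r.2 ^ 2 + (F.e : ZMod n) * r.2) with hA
    have hFR : ∀ k w s, F.FR (k, w, s) = A (k, w) + E s := fun k w s => rfl
    have h1 : (univ.filter (fun t : ZMod n × ZMod n × ZMod n => F.FR t = v)) =
        univ.image (fun r : ZMod n × ZMod n => (r.1, r.2, E.symm (v - A r))) := by
      ext ⟨k, w, s⟩
      simp only [mem_filter, mem_univ, true_and, mem_image, Prod.mk.injEq]
      rw [hFR]
      constructor
      · intro h2
        refine ⟨(k, w), rfl, rfl, ?_⟩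
        rw [← h2, add_sub_cancel_left, Equiv.symm_apply_apply]
      · rintro ⟨⟨k', w'⟩, h2, h3, h4⟩
        simp only at h2 h3
        rw [← h4, Equiv.apply_symm_apply, h2, h3]
        ring
    rw [Fam.cnt, h1, card_image_of_injective, card_univ, hcard]
    intro r r' hr
    simp only [Prod.mk.injEq] at hr
    exact Prod.ext hr.1 hr.2.1
  · set E := Equiv.ofBijective _ (bad_bij F.c F.e n p e hp hn hc hee) with hE
    set A : ZMod n × ZMod n → ZMod n := fun r =>
      ((F.h1 : ZMod n) * r.1 + (F.h2 : ZMod n) * r.1 ^ 2 + (F.h3 : ZMod n) * r.1 ^ 3 +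
        (F.h4 : ZMod n) * r.1 ^ 4) + ((F.b : ZMod n) * r.2 ^ 2 + (F.u : ZMod n) * r.2) with hA
    have hFR : ∀ k w s, F.FR (k, w, s) = A (k, s) + E w := by
      intro k w s
      have hEa : E w = (F.c : ZMod n) * w ^ 2 + (F.e : ZMod n) * w := rfl
      rw [hEa, hA]
      simp only [Fam.FR]
      ring
    have h1 : (univ.filter (fun t : ZMod n × ZMod n × ZMod n => F.FR t = v)) =
        univ.image (fun r : ZMod n × ZMod n => (r.1, E.symm (v - A r), r.2)) := by
      ext ⟨k, w, s⟩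
      simp only [mem_filter, mem_univ, true_and, mem_image, Prod.mk.injEq]
      rw [hFR]
      constructor
      · intro h2
        refine ⟨(k, s), rfl, ?_, rfl⟩
        rw [← h2, add_sub_cancel_left, Equiv.symm_apply_apply]
      · rintro ⟨⟨k', s'⟩, h2, h4, h3⟩
        simp only at h2 h3
        rw [← h4, Equiv.apply_symm_apply, h2, h3]
        ring
    rw [Fam.cnt, h1, card_image_of_injective, card_univ, hcard]
    intro r r' hr
    simp only [Prod.mk.injEq] at hr
    exact Prod.ext hr.1 hr.2.2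

end Pool.Agent.H33.AA
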