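import Pool.Agent.H33.AA.Defs
import Pool.Agent.H33.AA.Fib
import Pool.Agent.H33.AA.KCount

/-!
# Job AA-GOOD: good primes (~120 lines)

`p ∤ 2 b c nu m M`, so `p ≥ 3` and `2, b, c, nu, m, M` are units of `R = ZMod n`, `n = p^e`.
Put `k' = k0 + m k`, `z = 2 c w + e`, `y = 2 b s + u` (bijections of `R` in `k`, `w`, `s`).  Multiplying
`FR (k,w,s) = v` by the unit `4 b c M` and using `e1..e4` (cast to `R`):
`4 b c M v = 4 b c nu (k'⁴ - k0⁴) + M (b (z² - e²) + c (y² - u²))`, i.e.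
`(M b) z² + (M c) y² = A - B k'⁴` with `B = 4 b c nu` (a unit),
`A = 4 b c M v + 4 b c nu k0⁴ + M (b e² + c u²)`.
So `cnt = #{(k',z,y) : (M b) z² + (M c) y² = A - B k'⁴} ≥ ∑_{k' : A - B k'⁴ unit} (p-1) p^{e-1}`
(`fib_count`) `≥ p^{e-1} max(1,p-4) (p-1) p^{e-1}` (`k_count`) `= n² · max(1,p-4)(p-1)/p²`.
Numerics: `max(1,p-4)(p-1)/p² ≥ exp(-11/p)`: `p = 3`: `2/9 ≥ e^{-11/3}`; `p = 5`: `4/25 ≥ e^{-11/5}`;
`p ≥ 7`: `log(1-x) ≥ -x/(1-x)`, so `-log(1-4/p) ≤ (4/p)(7/3)`, `-log(1-1/p) ≤ (1/p)(7/6)`, sum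
`≤ 10.5/p`.
-/

set_option autoImplicit false

namespace Pool.Agent.H33.AA

open Finset

theorem num_exp_le {y : ℝ} (h1 : y < 1) : Real.exp (-(y / (1 - y))) ≤ 1 - y := by
  have h2 : 0 < 1 - y := by linarith
  have h3 := Real.add_one_le_exp (y / (1 - y))
  have h4 : y / (1 - y) + 1 = 1 / (1 - y) := by
    field_simp
    ring
  rw [h4] at h3
  rw [Real.exp_neg]
  have h5 : (1 / (1 - y))⁻¹ = 1 - y := by
    rw [one_div, inv_inv]
  exact (inv_anti₀ (by positivity) h3).trans h5.le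

theorem num_ineq (p : ℕ) (hp : p.Prime) (hp2 : p ≠ 2) :
    Real.exp (-(11 / (p : ℝ))) ≤ ((max 1 (p - 4) : ℕ) : ℝ) * ((p : ℝ) - 1) / (p : ℝ) ^ 2 := by
  have h2 := hp.two_le
  rcases Nat.lt_or_ge p 7 with h | h
  · have h35 : p = 3 ∨ p = 5 := by
      interval_cases p
      · exact absurd rfl hp2
      · exact Or.inl rfl
      · exact absurd hp (by norm_num)
      · exact Or.inr rfl
      · exact absurd hp (by norm_num)
    rcases h35 with rfl | rfl
    · have h3 := Real.add_one_le_exp (11 / 3 : ℝ)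
      rw [Real.exp_neg]
      have h4 : (Real.exp (11 / ((3 : ℕ) : ℝ)))⁻¹ ≤ (14 / 3 : ℝ)⁻¹ := by
        apply inv_anti₀ (by norm_num)
        push_cast
        linarith
      refine h4.trans ?_
      norm_num
    · have h3 := Real.add_one_le_exp (1 / 5 : ℝ)
      have h1 := Real.exp_one_gt_d9
      rw [Real.exp_neg]
      have h5 : Real.exp (11 / ((5 : ℕ) : ℝ)) = Real.exp 1 * Real.exp 1 * Real.exp (1 / 5) := by
        rw [← Real.exp_add, ← Real.exp_add]
        congr 1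
        norm_num
      have h6 : (25 / 4 : ℝ) ≤ Real.exp (11 / ((5 : ℕ) : ℝ)) := by
        rw [h5]
        have h7 : (2.7 : ℝ) * 2.7 ≤ Real.exp 1 * Real.exp 1 :=
          mul_le_mul (by linarith) (by linarith) (by norm_num) (by positivity)
        have h8 : (2.7 : ℝ) * 2.7 * (6 / 5) ≤ Real.exp 1 * Real.exp 1 * Real.exp (1 / 5) :=
          mul_le_mul h7 (by linarith) (by norm_num) (by positivity)
        linarith
      have h4 : (Real.exp (11 / ((5 : ℕ) : ℝ)))⁻¹ ≤ (25 / 4 : ℝ)⁻¹ :=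
        inv_anti₀ (by norm_num) h6
      refine h4.trans ?_
      norm_num
  · have hmax : max 1 (p - 4) = p - 4 := max_eq_right (by omega)
    have hpr : (7 : ℝ) ≤ p := by exact_mod_cast h
    have hp0 : (0 : ℝ) < p := by linarith
    rw [hmax, Nat.cast_sub (by omega)]
    push_cast
    have h4p : 4 / (p : ℝ) < 1 := by
      rw [div_lt_one hp0]
      linarith
    have h1p : 1 / (p : ℝ) < 1 := by
      rw [div_lt_one hp0]
      linarith
    have e1 := num_exp_le h4p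
    have e2 := num_exp_le h1p
    have e3 : 4 / (p : ℝ) / (1 - 4 / p) = 4 / (p - 4) := by
      have : (p : ℝ) - 4 ≠ 0 := by linarith
      have h5 : (1 : ℝ) - 4 / p ≠ 0 := by linarith
      field_simp
    have e4 : 1 / (p : ℝ) / (1 - 1 / p) = 1 / (p - 1) := by
      have : (p : ℝ) - 1 ≠ 0 := by linarith
      have h5 : (1 : ℝ) - 1 / p ≠ 0 := by linarith
      field_simp
    rw [e3] at e1
    rw [e4] at e2
    have e5 : ((p : ℝ) - 4) * (p - 1) / p ^ 2 = (1 - 4 / p) * (1 - 1 / p) := by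
      field_simp
    rw [e5]
    have e6 : Real.exp (-(4 / ((p : ℝ) - 4))) * Real.exp (-(1 / ((p : ℝ) - 1))) ≤
        (1 - 4 / p) * (1 - 1 / p) :=
      mul_le_mul e1 e2 (Real.exp_pos _).le (by linarith)
    refine le_trans ?_ e6
    rw [← Real.exp_add]
    apply Real.exp_le_exp.2
    have f1 : 4 / ((p : ℝ) - 4) ≤ (28 / 3) / p := by
      rw [div_le_div_iff₀ (by linarith) hp0]
      linarith
    have f2 : 1 / ((p : ℝ) - 1) ≤ (7 / 6) / p := by
      rw [div_le_div_iff₀ (by linarith) hp0]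
      linarith
    have f3 : (28 / 3) / (p : ℝ) + (7 / 6) / p ≤ 11 / p := by
      rw [← add_div]
      exact div_le_div_of_nonneg_right (by norm_num) hp0.le
    linarith

theorem isUnit_cast_of_not_dvd {n p e : ℕ} (hp : p.Prime) (hn : n = p ^ e) {a : ℤ}
    (ha : ¬ (p : ℤ) ∣ a) : IsUnit (a : ZMod n) := by
  rw [ZMod.coe_int_isUnit_iff_isCoprime, hn]
  push_cast
  exact IsCoprime.pow_left ((Nat.prime_iff_prime_int.1 hp).coprime_iff_not_dvd.2 ha)

theorem cnt_good (F : Fam) (hF : F.Ok) (n p e : ℕ) [NeZero n] (hp : p.Prime) (he : 1 ≤ e)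
    (hn : n = p ^ e) (hg : ¬ (p : ℤ) ∣ 2 * F.b * F.c * F.nu * F.m * F.M) (v : ZMod n) :
    (n : ℝ) ^ 2 * Real.exp (-(11 / (p : ℝ))) ≤ (F.cnt n v : ℝ) := by
  classical
  have hpi := Nat.prime_iff_prime_int.1 hp
  have g2 : ¬ (p : ℤ) ∣ 2 := fun h => hg (by
    have : 2 * F.b * F.c * F.nu * F.m * F.M = 2 * (F.b * F.c * F.nu * F.m * F.M) := by ring
    rw [this]
    exact Dvd.dvd.mul_right h _)
  have gb : ¬ (p : ℤ) ∣ F.b := fun h => hg (by
    have : 2 * F.b * F.c * F.nu * F.m * F.M = F.b * (2 * F.c * F.nu * F.m * F.M) := by ring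
    rw [this]
    exact Dvd.dvd.mul_right h _)
  have gc : ¬ (p : ℤ) ∣ F.c := fun h => hg (by
    have : 2 * F.b * F.c * F.nu * F.m * F.M = F.c * (2 * F.b * F.nu * F.m * F.M) := by ring
    rw [this]
    exact Dvd.dvd.mul_right h _)
  have gn : ¬ (p : ℤ) ∣ F.nu := fun h => hg (by
    have : 2 * F.b * F.c * F.nu * F.m * F.M = F.nu * (2 * F.b * F.c * F.m * F.M) := by ring
    rw [this]
    exact Dvd.dvd.mul_right h _)
  have gm : ¬ (p : ℤ) ∣ F.m := fun h => hg (by
    have : 2 * F.b * F.c * F.nu * F.m * F.M = F.m * (2 * F.b * F.c * F.nu * F.M) := by ring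
    rw [this]
    exact Dvd.dvd.mul_right h _)
  have gM : ¬ (p : ℤ) ∣ F.M := fun h => hg (by
    rw [mul_comm]
    exact Dvd.dvd.mul_right h _)
  have hp2 : p ≠ 2 := by
    rintro rfl
    exact g2 (by norm_num)
  have u2 : IsUnit (2 : ZMod n) := by
    have := isUnit_cast_of_not_dvd hp hn g2
    simpa using this
  have ub := isUnit_cast_of_not_dvd hp hn gb
  have uc := isUnit_cast_of_not_dvd hp hn gc
  have un := isUnit_cast_of_not_dvd hp hn gn
  have um := isUnit_cast_of_not_dvd hp hn gm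
  have uM := isUnit_cast_of_not_dvd hp hn gM
  have u4 : IsUnit (4 : ZMod n) := by
    have : (4 : ZMod n) = 2 * 2 := by norm_num
    rw [this]
    exact u2.mul u2
  have E1 : (F.M : ZMod n) * (F.h1 : ZMod n) =
      4 * (F.nu : ZMod n) * (F.k0 : ZMod n) ^ 3 * (F.m : ZMod n) := by
    have := congrArg (Int.cast : ℤ → ZMod n) hF.e1
    push_cast at this
    exact this
  have E2 : (F.M : ZMod n) * (F.h2 : ZMod n) =
      6 * (F.nu : ZMod n) * (F.k0 : ZMod n) ^ 2 * (F.m : ZMod n) ^ 2 := by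
    have := congrArg (Int.cast : ℤ → ZMod n) hF.e2
    push_cast at this
    exact this
  have E3 : (F.M : ZMod n) * (F.h3 : ZMod n) =
      4 * (F.nu : ZMod n) * (F.k0 : ZMod n) * (F.m : ZMod n) ^ 3 := by
    have := congrArg (Int.cast : ℤ → ZMod n) hF.e3
    push_cast at this
    exact this
  have E4 : (F.M : ZMod n) * (F.h4 : ZMod n) = (F.nu : ZMod n) * (F.m : ZMod n) ^ 4 := by
    have := congrArg (Int.cast : ℤ → ZMod n) hF.e4
    push_cast at this
    exact this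
  set b : ZMod n := (F.b : ZMod n) with hb
  set c : ZMod n := (F.c : ZMod n) with hc
  set nu : ZMod n := (F.nu : ZMod n) with hnu
  set m : ZMod n := (F.m : ZMod n) with hm
  set M : ZMod n := (F.M : ZMod n) with hM
  set B : ZMod n := 4 * b * c * nu with hB
  set A : ZMod n := 4 * b * c * M * v + 4 * b * c * nu * (F.k0 : ZMod n) ^ 4 +
    M * (b * (F.e : ZMod n) ^ 2 + c * (F.u : ZMod n) ^ 2) with hA
  have uB : IsUnit B := ((u4.mul ub).mul uc).mul un
  -- the bijection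
  let φ : ZMod n × ZMod n × ZMod n → ZMod n × ZMod n × ZMod n := fun t =>
    ((F.k0 : ZMod n) + m * t.1, 2 * c * t.2.1 + (F.e : ZMod n), 2 * b * t.2.2 + (F.u : ZMod n))
  have hφ : Function.Injective φ := by
    rintro ⟨k, w, s⟩ ⟨k', w', s'⟩ h
    simp only [φ, Prod.mk.injEq] at h
    obtain ⟨h1, h2, h3⟩ := h
    have i1 : k = k' := um.mul_left_cancel (add_left_cancel h1)
    have i2 : w = w' := (u2.mul uc).mul_left_cancel (add_right_cancel h2)
    have i3 : s = s' := (u2.mul ub).mul_left_cancel (add_right_cancel h3)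
    rw [i1, i2, i3]
  have hφb : Function.Bijective φ := Finite.injective_iff_bijective.1 hφ
  have key : ∀ t : ZMod n × ZMod n × ZMod n, F.FR t = v ↔
      (M * b) * (φ t).2.1 ^ 2 + (M * c) * (φ t).2.2 ^ 2 = A - B * (φ t).1 ^ 4 := by
    rintro ⟨k, w, s⟩
    have hU : IsUnit (4 * b * c * M) := ((u4.mul ub).mul uc).mul uM
    rw [← hU.mul_right_inj]
    have hid : (M * b) * (2 * c * w + (F.e : ZMod n)) ^ 2 + (M * c) * (2 * b * s + (F.u : ZMod n)) ^ 2 +
        B * ((F.k0 : ZMod n) + m * k) ^ 4 - (4 * b * c * nu * (F.k0 : ZMod n) ^ 4 +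
          M * (b * (F.e : ZMod n) ^ 2 + c * (F.u : ZMod n) ^ 2)) = 4 * b * c * M * F.FR (k, w, s) := by
      simp only [Fam.FR, hB]
      linear_combination (-(4 * b * c) * k) * E1 - (4 * b * c * k ^ 2) * E2 -
        (4 * b * c * k ^ 3) * E3 - (4 * b * c * k ^ 4) * E4
    simp only [φ, hA]
    constructor
    · intro h
      linear_combination hid + h
    · intro h
      linear_combination h - hid
  have hcard : F.cnt n v =
      #{t : ZMod n × ZMod n × ZMod n | (M * b) * t.2.1 ^ 2 + (M * c) * t.2.2 ^ 2 = A - B * t.1 ^ 4} := by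
    unfold Fam.cnt
    refine Finset.card_bij (fun t _ => φ t) ?_ ?_ ?_
    · intro t ht
      simp only [Finset.mem_filter, Finset.mem_univ, true_and] at ht ⊢
      exact (key t).1 ht
    · intro t _ t' _ h
      exact hφ h
    · intro y hy
      obtain ⟨t, rfl⟩ := hφb.2 y
      refine ⟨t, ?_, rfl⟩
      simp only [Finset.mem_filter, Finset.mem_univ, true_and] at hy ⊢
      exact (key t).2 hy
  have hsum : #{t : ZMod n × ZMod n × ZMod n | (M * b) * t.2.1 ^ 2 + (M * c) * t.2.2 ^ 2 = A - B * t.1 ^ 4} =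
      ∑ k : ZMod n, #{r : ZMod n × ZMod n | (M * b) * r.1 ^ 2 + (M * c) * r.2 ^ 2 = A - B * k ^ 4} := by
    simp only [Finset.card_filter]
    rw [Fintype.sum_prod_type]
  have hlow : p ^ (e - 1) * max 1 (p - 4) * ((p - 1) * p ^ (e - 1)) ≤ F.cnt n v := by
    rw [hcard, hsum]
    have h1 := k_count n p e hp he hn A B uB
    calc p ^ (e - 1) * max 1 (p - 4) * ((p - 1) * p ^ (e - 1))
        ≤ #{k : ZMod n | IsUnit (A - B * k ^ 4)} * ((p - 1) * p ^ (e - 1)) :=
          Nat.mul_le_mul_right _ h1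
      _ = ∑ k ∈ ({k : ZMod n | IsUnit (A - B * k ^ 4)} : Finset (ZMod n)),
            ((p - 1) * p ^ (e - 1)) := by
          rw [Finset.sum_const, smul_eq_mul]
      _ ≤ ∑ k ∈ ({k : ZMod n | IsUnit (A - B * k ^ 4)} : Finset (ZMod n)),
            #{r : ZMod n × ZMod n | (M * b) * r.1 ^ 2 + (M * c) * r.2 ^ 2 = A - B * k ^ 4} := by
          refine Finset.sum_le_sum fun k hk => ?_
          simp only [Finset.mem_filter, Finset.mem_univ, true_and] at hk
          exact fib_count n p e hp hp2 he hn (M * b) (M * c) (A - B * k ^ 4) (uM.mul ub)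
            (uM.mul uc) hk
      _ ≤ _ := Finset.sum_le_sum_of_subset (Finset.filter_subset _ _)
  have hnum := num_ineq p hp hp2
  have hpos : (0 : ℝ) < p := by exact_mod_cast hp.pos
  have hnr : (n : ℝ) = p ^ (e - 1) * p := by
    rw [hn]
    push_cast
    rw [← pow_succ]
    congr 1
    omega
  have hlow' : ((p : ℝ) ^ (e - 1) * ((max 1 (p - 4) : ℕ) : ℝ) *
      (((p : ℝ) - 1) * (p : ℝ) ^ (e - 1))) ≤ (F.cnt n v : ℝ) := by
    have h1 : ((p ^ (e - 1) * max 1 (p - 4) * ((p - 1) * p ^ (e - 1)) : ℕ) : ℝ) ≤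
        (F.cnt n v : ℝ) := by exact_mod_cast hlow
    have h2 : ((p - 1 : ℕ) : ℝ) = (p : ℝ) - 1 := by
      rw [Nat.cast_sub hp.one_le]
      norm_num
    rw [Nat.cast_mul, Nat.cast_mul, Nat.cast_mul, h2, Nat.cast_pow] at h1
    exact h1
  refine le_trans ?_ hlow'
  calc (n : ℝ) ^ 2 * Real.exp (-(11 / (p : ℝ)))
      ≤ (n : ℝ) ^ 2 * (((max 1 (p - 4) : ℕ) : ℝ) * ((p : ℝ) - 1) / (p : ℝ) ^ 2) :=
        mul_le_mul_of_nonneg_left hnum (by positivity)
    _ = _ := by
        rw [hnr]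
        field_simp

end Pool.Agent.H33.AA
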