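import Pool.Agent.H33.AA.LocCRT
import Pool.Agent.H33.AA.LocBad
import Pool.Agent.H33.AA.LocGood

/-!
# Job AA-ALL: all moduli (~60 lines)

Induction over coprime factorisations (`Nat.recOnPosPrimePosCoprime` or `Nat.recOnPrimeCoprime`):
* `n = 1`: `cnt = 1`, empty sum;
* `n = p^e`: if `p ∣ 2 b c nu m M` use `hF.loc` and `cnt_bad` (`exp(…) ≤ 1`), else `cnt_good`;
* coprime product: `cnt_mul`, `Nat.Coprime.primeFactors_mul`-type lemma (`Nat.Coprime.primeFactors_mul`,
  `Finset.sum_union` with disjointness `Nat.Coprime.disjoint_primeFactors`), `Real.exp_add`.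
The `NeZero` instances: generalise the statement to `∀ n, ∀ _ : NeZero n, …`, `NeZero n` is a `Prop`
(subsingleton), so instance mismatches are harmless.
-/

set_option autoImplicit false

namespace Pool.Agent.H33.AA

open Finset

theorem cnt_all_aux (F : Fam) (hF : F.Ok) (v : ℤ) : ∀ (n : ℕ) (_ : NeZero n),
    (n : ℝ) ^ 2 * Real.exp (-(11 * ∑ p ∈ n.primeFactors, (1 : ℝ) / p)) ≤
      (F.cnt n (v : ZMod n) : ℝ) := by
  intro n
  induction n using Nat.recOnPosPrimePosCoprime with
  | prime_pow p e hp he =>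
    intro _
    rw [Nat.primeFactors_prime_pow (by omega) hp, sum_singleton]
    have hp0 : (0 : ℝ) < p := by exact_mod_cast hp.pos
    by_cases hg : (p : ℤ) ∣ 2 * F.b * F.c * F.nu * F.m * F.M
    · rw [cnt_bad F (p ^ e) p e hp (by omega) rfl (hF.loc p hp hg)]
      have h1 : Real.exp (-(11 * ((1 : ℝ) / p))) ≤ 1 := by
        apply Real.exp_le_one_iff.2
        have : (0 : ℝ) ≤ (1 : ℝ) / p := by positivity
        linarith
      have h2 : (0 : ℝ) ≤ ((p ^ e : ℕ) : ℝ) ^ 2 := by positivity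
      calc ((p ^ e : ℕ) : ℝ) ^ 2 * Real.exp (-(11 * ((1 : ℝ) / p)))
          ≤ ((p ^ e : ℕ) : ℝ) ^ 2 * 1 := by gcongr
        _ = (((p ^ e) ^ 2 : ℕ) : ℝ) := by push_cast; ring
    · have h1 := cnt_good F hF (p ^ e) p e hp (by omega) rfl hg (v : ZMod (p ^ e))
      have h2 : (11 : ℝ) * ((1 : ℝ) / p) = 11 / p := by ring
      rw [h2]
      exact h1
  | zero => intro h; exact absurd rfl h.out
  | one =>
    intro _
    have h1 : F.cnt 1 (v : ZMod 1) = 1 := by
      unfold Fam.cnt
      rw [card_eq_one]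
      refine ⟨(0, 0, 0), ?_⟩
      ext t
      simp only [mem_filter, mem_univ, true_and, mem_singleton]
      constructor
      · intro _
        exact Subsingleton.elim _ _
      · intro _
        exact Subsingleton.elim _ _
    rw [h1]
    simp
  | coprime a b ha hb hab iha ihb =>
    intro _
    haveI : NeZero a := ⟨by omega⟩
    haveI : NeZero b := ⟨by omega⟩
    have h1 := iha inferInstance
    have h2 := ihb inferInstance
    rw [cnt_mul F a b hab v, hab.primeFactors_mul, sum_union hab.disjoint_primeFactors]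
    have h3 : Real.exp (-(11 * (∑ p ∈ a.primeFactors, (1 : ℝ) / p + ∑ p ∈ b.primeFactors, (1 : ℝ) / p)))
        = Real.exp (-(11 * ∑ p ∈ a.primeFactors, (1 : ℝ) / p)) *
          Real.exp (-(11 * ∑ p ∈ b.primeFactors, (1 : ℝ) / p)) := by
      rw [← Real.exp_add]
      congr 1
      ring
    rw [h3]
    push_cast
    calc ((a : ℝ) * b) ^ 2 * (Real.exp (-(11 * ∑ p ∈ a.primeFactors, (1 : ℝ) / p)) *
          Real.exp (-(11 * ∑ p ∈ b.primeFactors, (1 : ℝ) / p)))
        = ((a : ℝ) ^ 2 * Real.exp (-(11 * ∑ p ∈ a.primeFactors, (1 : ℝ) / p))) *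
          ((b : ℝ) ^ 2 * Real.exp (-(11 * ∑ p ∈ b.primeFactors, (1 : ℝ) / p))) := by ring
      _ ≤ (F.cnt a (v : ZMod a) : ℝ) * (F.cnt b (v : ZMod b) : ℝ) := by
          apply mul_le_mul h1 h2
          · positivity
          · positivity

theorem cnt_all (F : Fam) (hF : F.Ok) (n : ℕ) [NeZero n] (v : ℤ) :
    (n : ℝ) ^ 2 * Real.exp (-(11 * ∑ p ∈ n.primeFactors, (1 : ℝ) / p)) ≤
      (F.cnt n (v : ZMod n) : ℝ) :=
  cnt_all_aux F hF v n inferInstance

end Pool.Agent.H33.AA
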