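import Pool.Agent.H33.AA.Defs

/-!
# Job AA-CRT: multiplicativity of the number of solutions (~60 lines)

`ZMod.chineseRemainder hmn : ZMod (m*n) ≃+* ZMod m × ZMod n`.  A triple over `ZMod (m*n)` corresponds to
a pair of triples, and `FR` commutes with ring homomorphisms (`map_add`, `map_mul`, `map_intCast`):
`FR` of the triple is `v` iff both components are `v`.  Use `Finset.card_bij` / `Fintype.card_congr`
with an explicit equivalence `(A×A×A) ≃ (R×R×R) × (R'×R'×R')`.
-/

set_option autoImplicit false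

namespace Pool.Agent.H33.AA

open Finset

theorem FR_map (F : Fam) {R S : Type*} [CommRing R] [CommRing S] (f : R →+* S) (t : R × R × R) :
    f (F.FR t) = F.FR (f t.1, f t.2.1, f t.2.2) := by
  simp only [Fam.FR, map_add, map_mul, map_pow, map_intCast]

theorem cnt_mul (F : Fam) (m n : ℕ) [NeZero m] [NeZero n] [NeZero (m * n)] (hmn : m.Coprime n)
    (v : ℤ) :
    F.cnt (m * n) (v : ZMod (m * n)) = F.cnt m (v : ZMod m) * F.cnt n (v : ZMod n) := by
  classical
  let φ : ZMod (m * n) ≃+* ZMod m × ZMod n := ZMod.chineseRemainder hmn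
  have key : ∀ t : ZMod (m * n) × ZMod (m * n) × ZMod (m * n),
      F.FR t = (v : ZMod (m * n)) ↔
        F.FR ((φ t.1).1, (φ t.2.1).1, (φ t.2.2).1) = (v : ZMod m) ∧
        F.FR ((φ t.1).2, (φ t.2.1).2, (φ t.2.2).2) = (v : ZMod n) := by
    intro t
    have h1 := FR_map F ((RingHom.fst (ZMod m) (ZMod n)).comp (φ : ZMod (m * n) →+* ZMod m × ZMod n)) t
    have h2 := FR_map F ((RingHom.snd (ZMod m) (ZMod n)).comp (φ : ZMod (m * n) →+* ZMod m × ZMod n)) t
    simp only [RingHom.comp_apply, RingHom.coe_fst, RingHom.coe_snd, RingHom.coe_coe] at h1 h2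
    rw [← h1, ← h2]
    have hv : φ (v : ZMod (m * n)) = ((v : ZMod m), (v : ZMod n)) := by
      rw [map_intCast]
      rfl
    constructor
    · intro h
      rw [h, hv]
      exact ⟨rfl, rfl⟩
    · rintro ⟨ha, hb⟩
      apply φ.injective
      rw [hv]
      exact Prod.ext ha hb
  unfold Fam.cnt
  rw [← Finset.card_product]
  refine Finset.card_bij'
    (fun t _ => (((φ t.1).1, (φ t.2.1).1, (φ t.2.2).1), ((φ t.1).2, (φ t.2.1).2, (φ t.2.2).2)))
    (fun p _ => (φ.symm (p.1.1, p.2.1), φ.symm (p.1.2.1, p.2.2.1), φ.symm (p.1.2.2, p.2.2.2)))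
    ?_ ?_ ?_ ?_
  · intro t ht
    rw [Finset.mem_product]
    simp only [Finset.mem_filter, Finset.mem_univ, true_and] at ht ⊢
    exact (key t).1 ht
  · intro p hp
    rw [Finset.mem_product] at hp
    simp only [Finset.mem_filter, Finset.mem_univ, true_and] at hp ⊢
    rw [key]
    simp only [RingEquiv.apply_symm_apply]
    exact hp
  · intro t _
    simp only [Prod.mk.eta, RingEquiv.symm_apply_apply]
  · intro p _
    simp only [RingEquiv.apply_symm_apply]

end Pool.Agent.H33.AA
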