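import Pool.Agent.H33.AA.Final1
import Pool.Agent.H33.AA.Cover

/-!
# Almost all natural numbers are represented by an admissible family
-/

set_option autoImplicit false

namespace Pool.Agent.H33.AA

open Finset

open Classical in
theorem almost_all (F : Fam) (hF : F.Ok) (ε : ℝ) (hε : 0 < ε) :
    ∃ N0 : ℕ, ∀ N : ℕ, N0 ≤ N → (#((range N).filter (fun v : ℕ => ¬ F.Rep (v : ℤ))) : ℝ) ≤ ε * N := by
  have hC : 1 ≤ F.C ^ 2 := by
    have h1 : 1 ≤ F.C := by
      have hh := (h_facts F hF).1
      unfold Fam.C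
      have := hF.hb
      have := hF.hc
      have := hF.he
      have := hF.hu
      omega
    nlinarith
  obtain ⟨N0, h⟩ := cover (fun v => ¬ F.Rep v) F.b (F.C ^ 2) hF.hb hC (fun ε hε => by
    obtain ⟨n, X0, h1, h2⟩ := range_bad F hF ε hε
    refine ⟨n, X0, h1, fun X hX hd S hS => ?_⟩
    have h3 := h2 X hX hd S hS
    convert h3) ε hε
  refine ⟨N0, fun N hN => ?_⟩
  have h3 := h N hN
  convert h3

end Pool.Agent.H33.AA
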