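import Pool.Agent.H33.AA.Defs

/-!
# Job AA-PARAM: parametrisation of the correlation sum (~80 lines)

`SS_eq`: a pair `((h,w,s),(h',w',s')) ∈ Bx ×ˢ Bx` with `val + τ = val'` corresponds to
`h, h' ∈ H`, `x = w - w' ∈ [-Z,Z]`, `a = s' - s ∈ [-S,S]` and `r = (w', s)`; this is a bijection
between the filtered product and the disjoint union (`Finset.card_sigma` / `Finset.card_bij` /
fibrewise counting `Finset.card_eq_sum_card_fiberwise`) of the filtered sets defining `NN`.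
Everything is empty if `Z < 1` or `S < 1`.

`NN_eq_LN`: `ph (w'+x) - ph w' = 2 c x w' + ph x`, `ps (s+a) - ps s = 2 b a s + ps a`; the conditions
`w', w'+x ∈ [1,Z]`, `s, s+a ∈ (S,2S]` are interval conditions.
-/

set_option autoImplicit false

namespace Pool.Agent.H33.AA

open Finset

theorem SS_eq (F : Fam) (H : Finset ℤ) (Z S τ : ℤ) :
    F.SS H Z S τ = ∑ h ∈ H, ∑ h' ∈ H, ∑ x ∈ Icc (-Z) Z, ∑ a ∈ Icc (-S) S,
      F.NN Z S h h' τ x a := by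
  classical
  unfold Fam.SS
  rw [card_eq_sum_card_fiberwise
    (f := fun q : (ℤ × ℤ × ℤ) × (ℤ × ℤ × ℤ) =>
      (q.1.1, q.2.1, q.1.2.1 - q.2.2.1, q.2.2.2 - q.1.2.2))
    (t := H ×ˢ (H ×ˢ (Icc (-Z) Z ×ˢ Icc (-S) S)))]
  · rw [sum_product]
    refine sum_congr rfl fun h hh => ?_
    rw [sum_product]
    refine sum_congr rfl fun h' hh' => ?_
    rw [sum_product]
    refine sum_congr rfl fun x hx => ?_
    refine sum_congr rfl fun a ha => ?_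
    unfold Fam.NN
    refine card_nbij' (fun q => (q.2.2.1, q.1.2.2))
      (fun r => ((h, r.1 + x, r.2), (h', r.1, r.2 + a))) ?_ ?_ ?_ ?_
    · rintro ⟨⟨k, w, s⟩, ⟨k', w', s'⟩⟩ hq
      simp only [mem_coe, mem_filter] at hq ⊢
      simp only [Bx, Fam.val, mem_product, mem_Icc, mem_Ioc, Prod.mk.injEq] at hq ⊢
      obtain ⟨⟨⟨⟨h1, h2, h3⟩, h4, h5, h6⟩, h7⟩, rfl, rfl, rfl, rfl⟩ := hq
      refine ⟨⟨h5, h3⟩, ⟨⟨?_, ?_⟩, ?_⟩⟩
      · rw [show w' + (w - w') = w by ring]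
        exact h2
      · rw [show s + (s' - s) = s' by ring]
        exact h6
      · rw [show w' + (w - w') = w by ring, show s + (s' - s) = s' by ring]
        exact h7
    · rintro ⟨w', s⟩ hq
      simp only [mem_coe, mem_filter] at hq ⊢
      simp only [Bx, Fam.val, mem_product, mem_Icc, mem_Ioc, Prod.mk.injEq] at hq ⊢
      obtain ⟨⟨h1, h2⟩, ⟨h3, h4⟩, h5⟩ := hq
      refine ⟨⟨⟨⟨hh, h3, h2⟩, hh', h1, h4⟩, h5⟩, trivial, trivial, ?_, ?_⟩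
      · ring
      · ring
    · rintro ⟨⟨k, w, s⟩, ⟨k', w', s'⟩⟩ hq
      simp only [mem_coe, mem_filter, Prod.mk.injEq] at hq
      obtain ⟨-, rfl, rfl, rfl, rfl⟩ := hq
      simp only [Prod.mk.injEq]
      refine ⟨⟨trivial, ?_, trivial⟩, trivial, trivial, ?_⟩
      · ring
      · ring
    · rintro ⟨w', s⟩ _
      rfl
  · rintro ⟨⟨k, w, s⟩, ⟨k', w', s'⟩⟩ hq
    simp only [mem_coe, mem_filter] at hq ⊢
    simp only [Bx, mem_product, mem_Icc, mem_Ioc] at hq ⊢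
    obtain ⟨⟨⟨h1, h2, h3⟩, h4, h5, h6⟩, -⟩ := hq
    refine ⟨h1, h4, ?_, ?_⟩
    · constructor <;> omega
    · constructor <;> omega

theorem NN_eq_LN (F : Fam) (Z S h h' τ x a : ℤ) :
    F.NN Z S h h' τ x a = LN (2 * F.b * a) (2 * F.c * x) (h - h' + τ + F.ph x - F.ps a)
      (max 1 (1 - x)) (min Z (Z - x)) (max (S + 1) (S + 1 - a)) (min (2 * S) (2 * S - a)) := by
  classical
  unfold Fam.NN LN
  congr 1
  ext ⟨w, s⟩
  simp only [mem_filter, mem_product, mem_Icc, mem_Ioc, max_le_iff, le_min_iff]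
  have he : (h + F.ph (w + x) + F.ps s + τ = h' + F.ph w + F.ps (s + a)) ↔
      (2 * F.b * a * s - 2 * F.c * x * w = h - h' + τ + F.ph x - F.ps a) := by
    unfold Fam.ph Fam.ps
    constructor
    · intro h1
      linear_combination (-1 : ℤ) * h1
    · intro h1
      linear_combination (-1 : ℤ) * h1
  rw [he]
  constructor
  · rintro ⟨⟨⟨h1, h2⟩, h3, h4⟩, ⟨⟨h5, h6⟩, h7, h8⟩, h9⟩
    refine ⟨⟨⟨⟨h1, ?_⟩, h2, ?_⟩, ⟨?_, ?_⟩, h4, ?_⟩, h9⟩ <;> omega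
  · rintro ⟨⟨⟨⟨h1, h2⟩, h3, h4⟩, ⟨h5, h6⟩, h7, h8⟩, h9⟩
    refine ⟨⟨⟨h1, h3⟩, ?_, h7⟩, ⟨⟨?_, ?_⟩, ?_, ?_⟩, h9⟩ <;> omega

end Pool.Agent.H33.AA
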