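import Mathlib

/-!
# Job AA-PER: sums of a periodic function over full periods (~40 lines)

Induction on `L`; for `L = 1`, `Ico a (a + n)` is a complete residue system mod `n`: the map
`i ↦ (i : ZMod n)` is a bijection from `Ico a (a+n)` to `Finset.univ` (injective because
`(i : ZMod n) = j ↔ n ∣ i - j`, `ZMod.intCast_eq_intCast_iff_dvd_sub`, and cardinalities agree).
-/

set_option autoImplicit false

namespace Pool.Agent.H33.AA

open Finset

theorem sum_period_one (n : ℕ) [NeZero n] (a : ℤ) (g : ZMod n → ℝ) :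
    ∑ i ∈ Ico a (a + n), g (i : ZMod n) = ∑ z : ZMod n, g z := by
  have hinj : Set.InjOn (fun i : ℤ => (i : ZMod n)) (Ico a (a + n) : Finset ℤ) := by
    intro i hi j hj hij
    rw [coe_Ico, Set.mem_Ico] at hi hj
    have h1 : (n : ℤ) ∣ j - i := (ZMod.intCast_eq_intCast_iff_dvd_sub i j n).1 hij
    have h2 : j - i = 0 := by
      apply Int.eq_zero_of_abs_lt_dvd h1
      rw [abs_lt]
      constructor <;> linarith [hi.1, hi.2, hj.1, hj.2]
    linarith
  have himg : (Ico a (a + n)).image (fun i : ℤ => (i : ZMod n)) = Finset.univ := by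
    apply Finset.eq_univ_of_card
    rw [Finset.card_image_of_injOn hinj, Int.card_Ico, ZMod.card]
    simp
  rw [← himg, Finset.sum_image hinj]

theorem sum_period (n : ℕ) [NeZero n] (L : ℕ) (a : ℤ) (g : ZMod n → ℝ) :
    ∑ i ∈ Ico a (a + n * L), g (i : ZMod n) = L * ∑ z : ZMod n, g z := by
  induction L with
  | zero => simp
  | succ L ih =>
    have h1 : a ≤ a + n * (L : ℤ) := by
      have : (0 : ℤ) ≤ n * (L : ℤ) := by positivity
      linarith
    have h2 : a + n * (L : ℤ) ≤ a + n * ((L + 1 : ℕ) : ℤ) := by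
      push_cast
      have : (0 : ℤ) ≤ n := by positivity
      nlinarith
    have h3 := Finset.sum_union (Finset.Ico_disjoint_Ico_consecutive a (a + n * (L : ℤ))
      (a + n * ((L + 1 : ℕ) : ℤ))) (f := fun i : ℤ => g (i : ZMod n))
    rw [Finset.Ico_union_Ico_eq_Ico h1 h2] at h3
    rw [h3, ih]
    have h4 : a + n * ((L + 1 : ℕ) : ℤ) = (a + n * (L : ℤ)) + n := by
      push_cast
      ring
    rw [h4, sum_period_one]
    push_cast
    ring

end Pool.Agent.H33.AA
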