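import Mathlib

/-!
# Job AA-ROOT: roots of `k² ≡ c` and `k⁴ ≡ l⁴` (elementary, ~120 lines)

`root2`: if there is no root the count is `0`.  Otherwise fix a root `k₀`.  For a root `k`:
`m ∣ (k - k₀)(k + k₀)`; put `d₁ = gcd(m, k - k₀)` (a divisor of `m`) and `d₂ = m/d₁`; then `d₂ ∣ k + k₀`
(`m/d₁` is coprime to `(k-k₀)/d₁`).  For fixed `d₁ ∣ m`, the `k ∈ [0,m)` with `d₁ ∣ k - k₀`,
`d₂ ∣ k + k₀` lie in one class modulo `lcm(d₁,d₂) = m/gcd(d₁,d₂)` (a divisor of `m`), so there are at most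
`gcd(d₁,d₂) ≤ √m` of them (`gcd² ∣ d₁ d₂ = m`).  Sum over the `τ(m)` divisors `d₁`.

`root4`: for a root `k` put `d₁ = gcd(d, k² - l²)`, `d₂ = d/d₁`; then `d₂ ∣ k² + l²`.  For fixed
`d₁ d₂ = d` the number of `k ∈ [0,d)` with `d₁ ∣ k² - l²` is `(d/d₁) · #{k ∈ [0,d₁) : d₁ ∣ k² - l²} ≤
(d/d₁) τ(d₁) √d₁ ≤ d τ(d)/√d₁`, and similarly `≤ d τ(d)/√d₂` (use `root2` with `c = -l²`).
As `max(d₁,d₂) ≥ √d` the smaller one is `≤ τ(d) d^{3/4}`.  Sum over the `τ(d)` divisors `d₁`.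
-/

set_option autoImplicit false

namespace Pool.Agent.H33.AA

open Finset

private theorem aux_cls (S : Finset ℕ) (L g : ℕ) (hS : ∀ x ∈ S, x < L * g)
    (h : ∀ x ∈ S, ∀ y ∈ S, x % L = y % L) : #S ≤ g := by
  have h1 : #S ≤ #(range g) := by
    refine Finset.card_le_card_of_injOn (fun k => k / L) ?_ ?_
    · intro x hx
      have := Nat.div_lt_of_lt_mul (hS x hx)
      simpa using this
    · intro x hx y hy hxy
      have h2 := h x hx y hy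
      have h3 : x / L = y / L := hxy
      rw [← Nat.div_add_mod x L, ← Nat.div_add_mod y L, h2, h3]
  simpa using h1

private theorem aux_mod (x y a : ℤ) (d : ℕ) (hx : (d : ℤ) ∣ x - a) (hy : (d : ℤ) ∣ y - a) :
    (d : ℤ) ∣ x - y := by
  have := dvd_sub hx hy
  have h : x - a - (y - a) = x - y := by ring
  rwa [h] at this

private theorem aux_fiber (m d₁ d₂ : ℕ) (hm : 0 < m) (hd : d₁ * d₂ = m) (a b : ℤ) (S : Finset ℕ)
    (hS : ∀ x ∈ S, x < m) (h1 : ∀ x ∈ S, (d₁ : ℤ) ∣ (x : ℤ) - a) (h2 : ∀ x ∈ S, (d₂ : ℤ) ∣ (x : ℤ) - b) :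
    (#S : ℝ) ≤ Real.sqrt m := by
  have hg : #S ≤ Nat.gcd d₁ d₂ := by
    refine aux_cls S (Nat.lcm d₁ d₂) (Nat.gcd d₁ d₂) ?_ ?_
    · intro x hx
      rw [mul_comm, Nat.gcd_mul_lcm, hd]
      exact hS x hx
    · intro x hx y hy
      have e1 : (d₁ : ℤ) ∣ (x : ℤ) - y := aux_mod _ _ a d₁ (h1 x hx) (h1 y hy)
      have e2 : (d₂ : ℤ) ∣ (x : ℤ) - y := aux_mod _ _ b d₂ (h2 x hx) (h2 y hy)
      have m1 : y ≡ x [MOD d₁] := (Nat.modEq_iff_dvd).2 e1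
      have m2 : y ≡ x [MOD d₂] := (Nat.modEq_iff_dvd).2 e2
      have m3 : y ≡ x [MOD Nat.lcm d₁ d₂] := by
        rw [Nat.modEq_iff_dvd]
        have : ((Nat.lcm d₁ d₂ : ℕ) : ℤ) = lcm (d₁ : ℤ) (d₂ : ℤ) := by
          rw [← Int.coe_lcm]
          simp
        rw [this]
        exact lcm_dvd e1 e2
      exact m3.symm
  have hpos1 : 0 < d₁ := by
    rcases Nat.eq_zero_or_pos d₁ with h | h
    · subst h; simp at hd; omega
    · exact h
  have hpos2 : 0 < d₂ := by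
    rcases Nat.eq_zero_or_pos d₂ with h | h
    · subst h; simp at hd; omega
    · exact h
  have hg2 : Nat.gcd d₁ d₂ * Nat.gcd d₁ d₂ ≤ m := by
    rw [← hd]
    exact Nat.mul_le_mul (Nat.gcd_le_left _ hpos1) (Nat.gcd_le_right _ hpos2)
  apply Real.le_sqrt_of_sq_le
  have h3 : #S * #S ≤ m := le_trans (Nat.mul_le_mul hg hg) hg2
  rw [sq]
  exact_mod_cast h3

private theorem aux_split (m : ℕ) (hm : 0 < m) (u v : ℤ) (h : (m : ℤ) ∣ u * v) :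
    ∃ d₁ d₂ : ℕ, d₁ * d₂ = m ∧ d₁ = Int.gcd m u ∧ (d₁ : ℤ) ∣ u ∧ (d₂ : ℤ) ∣ v := by
  have hd1 : Int.gcd m u ∣ m := by
    have : ((Int.gcd m u : ℕ) : ℤ) ∣ (m : ℤ) := Int.gcd_dvd_left _ _
    exact_mod_cast this
  obtain ⟨d₂, hd2⟩ := hd1
  refine ⟨Int.gcd m u, d₂, hd2.symm, rfl, Int.gcd_dvd_right _ _, ?_⟩
  have hgpos : 0 < Int.gcd m u := by
    rcases Nat.eq_zero_or_pos (Int.gcd m u) with h0 | h0
    · rw [h0] at hd2; omega
    · exact h0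
  obtain ⟨w, hw⟩ : ((Int.gcd m u : ℕ) : ℤ) ∣ u := Int.gcd_dvd_right _ _
  have hm' : (m : ℤ) = ((Int.gcd m u : ℕ) : ℤ) * (d₂ : ℤ) := by exact_mod_cast hd2
  have hg' : ((Int.gcd m u : ℕ) : ℤ) ≠ 0 := by exact_mod_cast hgpos.ne'
  -- coprimality of d₂ and w
  have hcop : IsCoprime (d₂ : ℤ) w := by
    rw [Int.isCoprime_iff_gcd_eq_one]
    have h1 : Int.gcd (((Int.gcd m u : ℕ) : ℤ) * (d₂ : ℤ)) (((Int.gcd m u : ℕ) : ℤ) * w) =
        Int.gcd m u := by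
      rw [← hm', ← hw]
    rw [Int.gcd_mul_left] at h1
    simp only [Int.natAbs_natCast] at h1
    have h2 : Int.gcd m u * Int.gcd (d₂ : ℤ) w = Int.gcd m u * 1 := by rw [h1, mul_one]
    exact Nat.eq_of_mul_eq_mul_left hgpos h2
  have h4 : ((Int.gcd m u : ℕ) : ℤ) * (d₂ : ℤ) ∣ ((Int.gcd m u : ℕ) : ℤ) * (w * v) := by
    rw [← hm', ← mul_assoc, ← hw]
    exact h
  have h5 : (d₂ : ℤ) ∣ w * v := (mul_dvd_mul_iff_left hg').1 h4
  exact hcop.dvd_of_dvd_mul_left h5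

theorem root2 (m : ℕ) (hm : 0 < m) (c : ℤ) :
    (#((range m).filter (fun k : ℕ => (m : ℤ) ∣ (k : ℤ) ^ 2 - c)) : ℝ) ≤ m.divisors.card * Real.sqrt m := by
  rcases ((range m).filter (fun k : ℕ => (m : ℤ) ∣ (k : ℤ) ^ 2 - c)).eq_empty_or_nonempty with he | ⟨k₀, hk₀⟩
  · rw [he]
    simp only [card_empty, Nat.cast_zero]
    positivity
  · set R := (range m).filter (fun k : ℕ => (m : ℤ) ∣ (k : ℤ) ^ 2 - c) with hR
    have hk0 := (mem_filter.1 hk₀).2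
    have hprod : ∀ k ∈ R, (m : ℤ) ∣ ((k : ℤ) - k₀) * ((k : ℤ) + k₀) := by
      intro k hk
      have h1 := (mem_filter.1 hk).2
      have h2 := dvd_sub h1 hk0
      have h3 : (k : ℤ) ^ 2 - c - ((k₀ : ℤ) ^ 2 - c) = ((k : ℤ) - k₀) * ((k : ℤ) + k₀) := by ring
      rwa [h3] at h2
    have hmaps : ∀ k ∈ R, Int.gcd m ((k : ℤ) - k₀) ∈ m.divisors := by
      intro k _
      rw [Nat.mem_divisors]
      refine ⟨?_, hm.ne'⟩
      have : ((Int.gcd m ((k : ℤ) - k₀) : ℕ) : ℤ) ∣ (m : ℤ) := Int.gcd_dvd_left _ _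
      exact_mod_cast this
    rw [Finset.card_eq_sum_card_fiberwise hmaps]
    push_cast
    have hb : ∀ b ∈ m.divisors,
        ((#(R.filter (fun k : ℕ => Int.gcd m ((k : ℤ) - k₀) = b)) : ℕ) : ℝ) ≤ Real.sqrt m := by
      intro b hb
      have hbm : b * (m / b) = m := Nat.mul_div_cancel' (Nat.dvd_of_mem_divisors hb)
      refine aux_fiber m b (m / b) hm hbm k₀ (-k₀) _ ?_ ?_ ?_
      · intro x hx
        exact mem_range.1 (mem_filter.1 (mem_filter.1 hx).1).1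
      · intro x hx
        have := (mem_filter.1 hx).2
        rw [← this]
        exact Int.gcd_dvd_right _ _
      · intro x hx
        obtain ⟨d₁, d₂, e1, e2, e3, e4⟩ := aux_split m hm _ _ (hprod x (mem_filter.1 hx).1)
        have hb' := (mem_filter.1 hx).2
        rw [hb'] at e2
        subst e2
        have hpos : 0 < d₁ := Nat.pos_of_mem_divisors hb
        have : m / d₁ = d₂ := by
          rw [← e1]; exact Nat.mul_div_cancel_left _ hpos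
        rw [this, sub_neg_eq_add]
        exact e4
    calc (∑ b ∈ m.divisors, ((#(R.filter (fun k : ℕ => Int.gcd m ((k : ℤ) - k₀) = b)) : ℕ) : ℝ))
        ≤ ∑ _b ∈ m.divisors, Real.sqrt m := Finset.sum_le_sum hb
      _ = m.divisors.card * Real.sqrt m := by simp

private theorem aux_cnt (d₁ e : ℕ) (c : ℤ) (S : Finset ℕ) (hS : ∀ x ∈ S, x < d₁ * e)
    (h : ∀ x ∈ S, (d₁ : ℤ) ∣ (x : ℤ) ^ 2 - c) (hd : 0 < d₁) :
    #S ≤ #((range d₁).filter (fun k : ℕ => (d₁ : ℤ) ∣ (k : ℤ) ^ 2 - c)) * e := by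
  have h1 : #S ≤ #(((range d₁).filter (fun k : ℕ => (d₁ : ℤ) ∣ (k : ℤ) ^ 2 - c)) ×ˢ range e) := by
    refine Finset.card_le_card_of_injOn (fun k => (k % d₁, k / d₁)) ?_ ?_
    · intro x hx
      have hx' := hS x hx
      simp only [coe_product, Set.mem_prod, mem_coe, mem_filter, mem_range]
      refine ⟨⟨Nat.mod_lt _ hd, ?_⟩, Nat.div_lt_of_lt_mul hx'⟩
      have h2 := h x hx
      have h3 : (d₁ : ℤ) ∣ (x : ℤ) - ((x % d₁ : ℕ) : ℤ) := by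
        have h4 : (x : ℤ) - ((x % d₁ : ℕ) : ℤ) = (d₁ : ℤ) * ((x / d₁ : ℕ) : ℤ) := by
          have := Nat.div_add_mod x d₁
          have h5 : (d₁ : ℤ) * ((x / d₁ : ℕ) : ℤ) + ((x % d₁ : ℕ) : ℤ) = (x : ℤ) := by exact_mod_cast this
          linarith
        rw [h4]
        exact dvd_mul_right _ _
      have h6 : ((x % d₁ : ℕ) : ℤ) ^ 2 - c = ((x : ℤ) ^ 2 - c) -
          ((x : ℤ) - ((x % d₁ : ℕ) : ℤ)) * ((x : ℤ) + ((x % d₁ : ℕ) : ℤ)) := by ring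
      rw [h6]
      exact dvd_sub h2 (Dvd.dvd.mul_right h3 _)
    · intro x _ y _ hxy
      have hxy' := Prod.mk.inj hxy
      rw [← Nat.div_add_mod x d₁, ← Nat.div_add_mod y d₁, hxy'.1, hxy'.2]
  rwa [card_product, card_range] at h1

private theorem aux_big (d d₁ e : ℕ) (hd : 0 < d) (hde : d₁ * e = d) (hbig : d ≤ d₁ * d₁) (c : ℤ) (S : Finset ℕ)
    (hS : ∀ x ∈ S, x < d) (h : ∀ x ∈ S, (d₁ : ℤ) ∣ (x : ℤ) ^ 2 - c) :
    (#S : ℝ) ≤ d.divisors.card * (d : ℝ) ^ (3 / 4 : ℝ) := by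
  have hd1 : 0 < d₁ := by
    rcases Nat.eq_zero_or_pos d₁ with h0 | h0
    · subst h0; simp at hde; omega
    · exact h0
  have h1 := aux_cnt d₁ e c S (by intro x hx; rw [hde]; exact hS x hx) h hd1
  have h2 := root2 d₁ hd1 c
  have h3 : (#S : ℝ) ≤ (d₁.divisors.card * Real.sqrt d₁) * e := by
    have h1' : (#S : ℝ) ≤ (#((range d₁).filter (fun k : ℕ => (d₁ : ℤ) ∣ (k : ℤ) ^ 2 - c)) : ℝ) * e := by
      exact_mod_cast h1
    exact le_trans h1' (mul_le_mul_of_nonneg_right h2 (Nat.cast_nonneg _))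
  have h4 : (d₁.divisors.card : ℝ) ≤ d.divisors.card := by
    have : d₁.divisors ⊆ d.divisors := Nat.divisors_subset_of_dvd hd.ne' ⟨e, hde.symm⟩
    exact_mod_cast Finset.card_le_card this
  have h5 : Real.sqrt d₁ * e ≤ (d : ℝ) ^ (3 / 4 : ℝ) := by
    have hdR : (0 : ℝ) < d := by exact_mod_cast hd
    have hd1R : (0 : ℝ) < d₁ := by exact_mod_cast hd1
    have e1 : (d₁ : ℝ) * e = d := by exact_mod_cast hde
    have e2 : (d : ℝ) ≤ (d₁ : ℝ) ^ 2 := by rw [sq]; exact_mod_cast hbig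
    have e3 : (d : ℝ) ^ (1 / 4 : ℝ) ≤ Real.sqrt d₁ := by
      have : Real.sqrt d₁ = ((d₁ : ℝ) ^ 2) ^ (1 / 4 : ℝ) := by
        rw [Real.sqrt_eq_rpow, ← Real.rpow_natCast, ← Real.rpow_mul hd1R.le]
        norm_num
      rw [this]
      exact Real.rpow_le_rpow hdR.le e2 (by norm_num)
    have e4 : (0 : ℝ) < Real.sqrt d₁ := Real.sqrt_pos.2 hd1R
    have e5 : Real.sqrt d₁ * Real.sqrt d₁ = d₁ := Real.mul_self_sqrt hd1R.le
    have e6 : (d : ℝ) ^ (3 / 4 : ℝ) * (d : ℝ) ^ (1 / 4 : ℝ) = d := by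
      rw [← Real.rpow_add hdR]
      norm_num
    have e7 : (0 : ℝ) < (d : ℝ) ^ (3 / 4 : ℝ) := Real.rpow_pos_of_pos hdR _
    -- sqrt d1 * e * sqrt d1 = d = d^(3/4) * d^(1/4) <= d^(3/4) * sqrt d1
    have e8 : (Real.sqrt d₁ * e) * Real.sqrt d₁ ≤ (d : ℝ) ^ (3 / 4 : ℝ) * Real.sqrt d₁ := by
      calc (Real.sqrt d₁ * e) * Real.sqrt d₁ = (Real.sqrt d₁ * Real.sqrt d₁) * e := by ring
        _ = d := by rw [e5, e1]
        _ = (d : ℝ) ^ (3 / 4 : ℝ) * (d : ℝ) ^ (1 / 4 : ℝ) := e6.symm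
        _ ≤ (d : ℝ) ^ (3 / 4 : ℝ) * Real.sqrt d₁ := mul_le_mul_of_nonneg_left e3 e7.le
    exact le_of_mul_le_mul_right e8 e4
  calc (#S : ℝ) ≤ (d₁.divisors.card * Real.sqrt d₁) * e := h3
    _ = d₁.divisors.card * (Real.sqrt d₁ * e) := by ring
    _ ≤ d₁.divisors.card * (d : ℝ) ^ (3 / 4 : ℝ) := mul_le_mul_of_nonneg_left h5 (Nat.cast_nonneg _)
    _ ≤ d.divisors.card * (d : ℝ) ^ (3 / 4 : ℝ) := mul_le_mul_of_nonneg_right h4 (by positivity)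

theorem root4 (d : ℕ) (hd : 0 < d) (l : ℤ) :
    (#((range d).filter (fun k : ℕ => (d : ℤ) ∣ (k : ℤ) ^ 4 - l ^ 4)) : ℝ) ≤
      (d.divisors.card : ℝ) ^ 2 * (d : ℝ) ^ (3 / 4 : ℝ) := by
  set R := (range d).filter (fun k : ℕ => (d : ℤ) ∣ (k : ℤ) ^ 4 - l ^ 4) with hR
  have hprod : ∀ k ∈ R, (d : ℤ) ∣ ((k : ℤ) ^ 2 - l ^ 2) * ((k : ℤ) ^ 2 + l ^ 2) := by
    intro k hk
    have h1 := (mem_filter.1 hk).2
    have h3 : (k : ℤ) ^ 4 - l ^ 4 = ((k : ℤ) ^ 2 - l ^ 2) * ((k : ℤ) ^ 2 + l ^ 2) := by ring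
    rwa [h3] at h1
  have hmaps : ∀ k ∈ R, Int.gcd d ((k : ℤ) ^ 2 - l ^ 2) ∈ d.divisors := by
    intro k _
    rw [Nat.mem_divisors]
    refine ⟨?_, hd.ne'⟩
    have : ((Int.gcd d ((k : ℤ) ^ 2 - l ^ 2) : ℕ) : ℤ) ∣ (d : ℤ) := Int.gcd_dvd_left _ _
    exact_mod_cast this
  rw [Finset.card_eq_sum_card_fiberwise hmaps]
  push_cast
  have hb : ∀ b ∈ d.divisors,
      ((#(R.filter (fun k : ℕ => Int.gcd d ((k : ℤ) ^ 2 - l ^ 2) = b)) : ℕ) : ℝ) ≤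
        d.divisors.card * (d : ℝ) ^ (3 / 4 : ℝ) := by
    intro b hb
    have hbpos : 0 < b := Nat.pos_of_mem_divisors hb
    have hbm : b * (d / b) = d := Nat.mul_div_cancel' (Nat.dvd_of_mem_divisors hb)
    have hlt : ∀ x ∈ R.filter (fun k : ℕ => Int.gcd d ((k : ℤ) ^ 2 - l ^ 2) = b), x < d := by
      intro x hx
      exact mem_range.1 (mem_filter.1 (mem_filter.1 hx).1).1
    rcases le_total (d / b) b with hle | hle
    · refine aux_big d b (d / b) hd hbm ?_ (l ^ 2) _ hlt ?_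
      · calc d = b * (d / b) := hbm.symm
          _ ≤ b * b := Nat.mul_le_mul_left _ hle
      · intro x hx
        have := (mem_filter.1 hx).2
        rw [← this]
        exact Int.gcd_dvd_right _ _
    · refine aux_big d (d / b) b hd (by rw [mul_comm]; exact hbm) ?_ (-l ^ 2) _ hlt ?_
      · calc d = b * (d / b) := hbm.symm
          _ ≤ (d / b) * (d / b) := Nat.mul_le_mul_right _ hle
      · intro x hx
        obtain ⟨d₁, d₂, e1, e2, e3, e4⟩ := aux_split d hd _ _ (hprod x (mem_filter.1 hx).1)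
        have hb' := (mem_filter.1 hx).2
        rw [hb'] at e2
        subst e2
        have : d / d₁ = d₂ := by
          rw [← e1]; exact Nat.mul_div_cancel_left _ hbpos
        rw [this]
        have h7 : (x : ℤ) ^ 2 - (-l ^ 2) = (x : ℤ) ^ 2 + l ^ 2 := by ring
        rw [h7]
        exact e4
  calc (∑ b ∈ d.divisors, ((#(R.filter (fun k : ℕ => Int.gcd d ((k : ℤ) ^ 2 - l ^ 2) = b)) : ℕ) : ℝ))
      ≤ ∑ _b ∈ d.divisors, (d.divisors.card * (d : ℝ) ^ (3 / 4 : ℝ)) := Finset.sum_le_sum hb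
    _ = (d.divisors.card : ℝ) ^ 2 * (d : ℝ) ^ (3 / 4 : ℝ) := by
      rw [Finset.sum_const, nsmul_eq_mul]
      ring

end Pool.Agent.H33.AA
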