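import Pool.Agent.H33.AA.Dioph
import Pool.Agent.H33.AA.Param

/-!
# Job AA-NN: consequences of the linear Diophantine lemma (~80 lines)

Use `NN_eq_LN` with `p = 2 b a`, `q = 2 c x` and `g = gcd p q`.  Always
`gcd (2 b a) (2 c x) ∣ gcd (2 b c a) (2 b c x) = 2 b c gcd(a,x)`.

`NN_small`: `g ∣ 2 b c g₀` with `g₀ = gcd x a ≤ D` (`g₀ > 0` as `x ≠ 0`), `g₀ ∣ D!`, so
`g ∣ 2 b c D! ∣ τ`; apply `LN_shift` (the parameter `t` of `NN … 0 …` is `t`, that of `NN … τ …` is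
`t + τ`).  The error is `g τ/(|p||q|) ≤ 2 b c g₀ τ/(4 b c |a||x|) ≤ D τ/(2 |x||a|)`.

`NN_large`: `LN_le` gives `NN ≤ (s2 - s1 + 1) g/|q| + 1` with `s2 - s1 + 1 ≤ S` (if `s1 > s2` the count
is `0`), and `g/|q| ≤ 2 b c g₀/(2 c |x|) = b g₀/|x|`; finally `1 ≤ b S g₀/|x|` because `|x| ≤ S`.

`NN_range`: take `r = (w',s)` in the filtered set, `w = r.1 + x`, `s' = r.2 + a`.  The equation reads
`h - h' + x (c (w + w') + e) = a (b (s + s') + u)`.  Here `b (s+s') + u ≥ 2 S + 2 > 0`,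
`0 ≤ c (w+w') + e ≤ 2 c Z + e`, `|h - h'| ≤ S`.  If `x = 0`: `|h-h'| ≥ 2S+2 > S`, contradiction.
`2 S |a| ≤ S + (2cZ+e)|x|` and `|a| ≥ 1` give `S |a| ≤ (2cZ+e) |x|`.
`gcd x a` divides `x` and `a`, hence `h - h'`.
-/

set_option autoImplicit false

namespace Pool.Agent.H33.AA

open Finset

theorem small_gcd (b c x a : ℤ) :
    ((Int.gcd (2 * b * a) (2 * c * x) : ℕ) : ℤ) ∣ 2 * b * c * (Int.gcd x a : ℤ) := by
  rw [Int.gcd_eq_gcd_ab x a]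
  have h1 : ((Int.gcd (2 * b * a) (2 * c * x) : ℕ) : ℤ) ∣ 2 * b * a := Int.gcd_dvd_left _ _
  have h2 : ((Int.gcd (2 * b * a) (2 * c * x) : ℕ) : ℤ) ∣ 2 * c * x := Int.gcd_dvd_right _ _
  have e : 2 * b * c * (x * Int.gcdA x a + a * Int.gcdB x a) =
      (2 * b * a) * (c * Int.gcdB x a) + (2 * c * x) * (b * Int.gcdA x a) := by ring
  rw [e]
  exact dvd_add (h1.mul_right _) (h2.mul_right _)

theorem small_le (F : Fam) (hF : F.Ok) (x a : ℤ) (hx : x ≠ 0) :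
    (Int.gcd (2 * F.b * a) (2 * F.c * x) : ℝ) ≤ 2 * (F.b : ℝ) * F.c * (Int.gcd x a : ℝ) := by
  have hb := hF.hb
  have hc := hF.hc
  have hg : 0 < Int.gcd x a := Int.gcd_pos_of_ne_zero_left a hx
  have hg' : (0 : ℤ) < (Int.gcd x a : ℤ) := by exact_mod_cast hg
  have h1 : ((Int.gcd (2 * F.b * a) (2 * F.c * x) : ℕ) : ℤ) ≤ 2 * F.b * F.c * (Int.gcd x a : ℤ) :=
    Int.le_of_dvd (by positivity) (small_gcd F.b F.c x a)
  exact_mod_cast h1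

theorem NN_small (F : Fam) (hF : F.Ok) (Z S h h' τ x a : ℤ) (D : ℕ) (hx : x ≠ 0) (ha : a ≠ 0)
    (hD : Int.gcd x a ≤ D) (hτ : 0 ≤ τ) (hτD : 2 * F.b * F.c * (D.factorial : ℤ) ∣ τ) :
    (F.NN Z S h h' 0 x a : ℝ) ≤ (F.NN Z S h h' τ x a : ℝ) + 3 +
      (D : ℝ) * τ / (2 * |(x : ℝ)| * |(a : ℝ)|) := by
  have hb := hF.hb
  have hc := hF.hc
  have hg : 0 < Int.gcd x a := Int.gcd_pos_of_ne_zero_left a hx
  have hb' : (1 : ℝ) ≤ F.b := by exact_mod_cast hb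
  have hc' : (1 : ℝ) ≤ F.c := by exact_mod_cast hc
  have hx' : (0 : ℝ) < |(x : ℝ)| := abs_pos.2 (by exact_mod_cast hx)
  have ha' : (0 : ℝ) < |(a : ℝ)| := abs_pos.2 (by exact_mod_cast ha)
  have hτ' : (0 : ℝ) ≤ τ := by exact_mod_cast hτ
  have hdvd : (Int.gcd (2 * F.b * a) (2 * F.c * x) : ℤ) ∣ τ := by
    refine (small_gcd F.b F.c x a).trans (Dvd.dvd.trans ?_ hτD)
    apply mul_dvd_mul_left
    exact_mod_cast Nat.dvd_factorial hg hD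
  have h1 := LN_shift (2 * F.b * a) (2 * F.c * x) (h - h' + 0 + F.ph x - F.ps a) τ
    (max 1 (1 - x)) (min Z (Z - x)) (max (S + 1) (S + 1 - a)) (min (2 * S) (2 * S - a))
    (by simp; exact ⟨by omega, ha⟩) (by simp; exact ⟨by omega, hx⟩) hτ hdvd
  have e1 : h - h' + 0 + F.ph x - F.ps a + τ = h - h' + τ + F.ph x - F.ps a := by ring
  rw [e1] at h1
  rw [NN_eq_LN, NN_eq_LN]
  refine h1.trans ?_
  have h2 := small_le F hF x a hx
  have hD' : (Int.gcd x a : ℝ) ≤ D := by exact_mod_cast hD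
  have h3 : (Int.gcd (2 * F.b * a) (2 * F.c * x) : ℝ) ≤ 2 * (F.b : ℝ) * F.c * D :=
    h2.trans (by gcongr)
  have h4 : (Int.gcd (2 * F.b * a) (2 * F.c * x) : ℝ) * τ /
      (|((2 * F.b * a : ℤ) : ℝ)| * |((2 * F.c * x : ℤ) : ℝ)|) ≤
      (D : ℝ) * τ / (2 * |(x : ℝ)| * |(a : ℝ)|) := by
    have e2 : |((2 * F.b * a : ℤ) : ℝ)| = 2 * F.b * |(a : ℝ)| := by
      push_cast
      rw [abs_mul, abs_of_pos (by positivity : (0 : ℝ) < 2 * F.b)]
    have e3 : |((2 * F.c * x : ℤ) : ℝ)| = 2 * F.c * |(x : ℝ)| := by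
      push_cast
      rw [abs_mul, abs_of_pos (by positivity : (0 : ℝ) < 2 * F.c)]
    rw [e2, e3, div_le_div_iff₀ (by positivity) (by positivity)]
    calc (Int.gcd (2 * F.b * a) (2 * F.c * x) : ℝ) * τ * (2 * |(x : ℝ)| * |(a : ℝ)|)
        ≤ (2 * (F.b : ℝ) * F.c * D) * τ * (2 * |(x : ℝ)| * |(a : ℝ)|) := by gcongr
      _ = D * τ * (2 * F.b * |(a : ℝ)| * (2 * F.c * |(x : ℝ)|)) := by ring
  linarith

theorem NN_large (F : Fam) (hF : F.Ok) (Z S h h' τ x a : ℤ) (hx : x ≠ 0) (ha : a ≠ 0)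
    (hS : 1 ≤ S) (hxS : |x| ≤ S) :
    (F.NN Z S h h' τ x a : ℝ) ≤ 2 * (F.b : ℝ) * S * (Int.gcd x a : ℝ) / |(x : ℝ)| := by
  have hb := hF.hb
  have hc := hF.hc
  have hg : 0 < Int.gcd x a := Int.gcd_pos_of_ne_zero_left a hx
  have hg' : (1 : ℝ) ≤ (Int.gcd x a : ℝ) := by exact_mod_cast hg
  have hb' : (1 : ℝ) ≤ F.b := by exact_mod_cast hb
  have hc' : (1 : ℝ) ≤ F.c := by exact_mod_cast hc
  have hS' : (1 : ℝ) ≤ S := by exact_mod_cast hS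
  have hx' : (0 : ℝ) < |(x : ℝ)| := abs_pos.2 (by exact_mod_cast hx)
  have hxS' : |(x : ℝ)| ≤ S := by exact_mod_cast hxS
  rw [NN_eq_LN]
  by_cases hs : max (S + 1) (S + 1 - a) ≤ min (2 * S) (2 * S - a) + 1
  · have h1 := LN_le (2 * F.b * a) (2 * F.c * x) (h - h' + τ + F.ph x - F.ps a)
      (max 1 (1 - x)) (min Z (Z - x)) (max (S + 1) (S + 1 - a)) (min (2 * S) (2 * S - a))
      (by simp; exact ⟨by omega, ha⟩) (by simp; exact ⟨by omega, hx⟩) hs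
    refine h1.trans ?_
    have e3 : |((2 * F.c * x : ℤ) : ℝ)| = 2 * F.c * |(x : ℝ)| := by
      push_cast
      rw [abs_mul, abs_of_pos (by positivity : (0 : ℝ) < 2 * F.c)]
    have h2 := small_le F hF x a hx
    have h5 : ((min (2 * S) (2 * S - a) : ℤ) : ℝ) - (max (S + 1) (S + 1 - a) : ℤ) + 1 ≤ S := by
      have : min (2 * S) (2 * S - a) - max (S + 1) (S + 1 - a) + 1 ≤ S := by omega
      exact_mod_cast this
    have h6 : (((min (2 * S) (2 * S - a) : ℤ) : ℝ) - (max (S + 1) (S + 1 - a) : ℤ) + 1) *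
        (Int.gcd (2 * F.b * a) (2 * F.c * x) : ℝ) / |((2 * F.c * x : ℤ) : ℝ)| ≤
        F.b * S * (Int.gcd x a : ℝ) / |(x : ℝ)| := by
      rw [e3, div_le_div_iff₀ (by positivity) (by positivity)]
      calc (((min (2 * S) (2 * S - a) : ℤ) : ℝ) - (max (S + 1) (S + 1 - a) : ℤ) + 1) *
            (Int.gcd (2 * F.b * a) (2 * F.c * x) : ℝ) * |(x : ℝ)|
          ≤ (S : ℝ) * (2 * (F.b : ℝ) * F.c * (Int.gcd x a : ℝ)) * |(x : ℝ)| := by
            gcongr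
        _ = F.b * S * (Int.gcd x a : ℝ) * (2 * F.c * |(x : ℝ)|) := by ring
    have h7 : (1 : ℝ) ≤ F.b * S * (Int.gcd x a : ℝ) / |(x : ℝ)| := by
      rw [le_div_iff₀ hx', one_mul]
      calc |(x : ℝ)| ≤ S := hxS'
        _ = 1 * S * 1 := by ring
        _ ≤ F.b * S * (Int.gcd x a : ℝ) := by gcongr
    have h8 : 2 * (F.b : ℝ) * S * (Int.gcd x a : ℝ) / |(x : ℝ)| =
        F.b * S * (Int.gcd x a : ℝ) / |(x : ℝ)| + F.b * S * (Int.gcd x a : ℝ) / |(x : ℝ)| := by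
      ring
    rw [h8]
    exact add_le_add h6 h7
  · have h0 : LN (2 * F.b * a) (2 * F.c * x) (h - h' + τ + F.ph x - F.ps a)
        (max 1 (1 - x)) (min Z (Z - x)) (max (S + 1) (S + 1 - a)) (min (2 * S) (2 * S - a)) = 0 := by
      unfold LN
      rw [Finset.card_eq_zero, Finset.Icc_eq_empty (a := max (S + 1) (S + 1 - a)) (by omega)]
      simp
    rw [h0, Nat.cast_zero]
    positivity

theorem NN_range (F : Fam) (hF : F.Ok) (Z S h h' x a : ℤ) (hS : 1 ≤ S) (h0 : 0 ≤ h) (hS1 : h ≤ S)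
    (h0' : 0 ≤ h') (hS1' : h' ≤ S) (ha : a ≠ 0) (hne : F.NN Z S h h' 0 x a ≠ 0) :
    x ≠ 0 ∧ S * |a| ≤ (2 * F.c * Z + F.e) * |x| ∧ (Int.gcd x a : ℤ) ∣ h - h' := by
  have hb := hF.hb
  have hc := hF.hc
  have he := hF.he
  have hu := hF.hu
  obtain ⟨r, hr⟩ := Finset.card_ne_zero.1 hne
  obtain ⟨w, s⟩ := r
  simp only [Finset.mem_filter, Finset.mem_product, Finset.mem_Icc, Finset.mem_Ioc, Fam.ph,
    Fam.ps] at hr
  obtain ⟨⟨⟨hw1, hw2⟩, hs1, hs2⟩, ⟨⟨hw3, hw4⟩, hs3, hs4⟩, heq⟩ := hr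
  obtain ⟨X, hX⟩ : ∃ X, X = F.c * ((w + x) + w) + F.e := ⟨_, rfl⟩
  obtain ⟨Y, hY⟩ : ∃ Y, Y = F.b * (s + (s + a)) + F.u := ⟨_, rfl⟩
  have key : h - h' = a * Y - x * X := by
    rw [hX, hY]
    linear_combination heq
  have hX0 : 0 ≤ X := by
    rw [hX]
    have : 0 ≤ F.c * ((w + x) + w) := mul_nonneg (by omega) (by omega)
    omega
  have hX1 : X ≤ 2 * F.c * Z + F.e := by
    rw [hX]
    have : F.c * ((w + x) + w) ≤ F.c * (2 * Z) := mul_le_mul_of_nonneg_left (by omega) (by omega)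
    linarith
  have hY1 : 2 * S + 2 ≤ Y := by
    rw [hY]
    have : 1 * (s + (s + a)) ≤ F.b * (s + (s + a)) := mul_le_mul_of_nonneg_right hb (by omega)
    omega
  have hhh : |h - h'| ≤ S := abs_le.2 ⟨by omega, by omega⟩
  have ha1 : 1 ≤ |a| := Int.one_le_abs ha
  have hY0 : |Y| = Y := abs_of_nonneg (by omega)
  have hX2 : |X| = X := abs_of_nonneg hX0
  have hmain : |a| * Y ≤ S + |x| * X := by
    have e1 : a * Y = (h - h') + x * X := by linarith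
    calc |a| * Y = |a * Y| := by rw [abs_mul, hY0]
      _ = |(h - h') + x * X| := by rw [e1]
      _ ≤ |h - h'| + |x * X| := abs_add_le _ _
      _ ≤ S + |x| * X := by rw [abs_mul x X, hX2]; linarith
  have h2 : |a| * (2 * S + 2) ≤ |a| * Y := mul_le_mul_of_nonneg_left hY1 (abs_nonneg a)
  refine ⟨?_, ?_, ?_⟩
  · rintro rfl
    rw [abs_zero, zero_mul, add_zero] at hmain
    nlinarith
  · have h3 : |x| * X ≤ |x| * (2 * F.c * Z + F.e) := mul_le_mul_of_nonneg_left hX1 (abs_nonneg x)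
    nlinarith
  · rw [key]
    exact dvd_sub ((Int.gcd_dvd_right x a).mul_right _) ((Int.gcd_dvd_left x a).mul_right _)

end Pool.Agent.H33.AA
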