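import Pool.Agent.H33.AA.Small

/-!
# Job AA-TAIL: pairs `(x,a)` with large gcd (~120 lines)

Let `d = gcd(x,a) > D`, `a ≠ 0`, and suppose `NN … 0 x a ≠ 0`.  By `NN_range`: `x ≠ 0`, `d ∣ h - h'`,
`S |a| ≤ (2 c Z + e) |x|`; also `d ≤ |x| ≤ Z`.  By `NN_large`: `NN ≤ 2 b S d/|x|`.
So the sum is at most
`∑_{d ∈ (D,Z], d ∣ h-h'} ∑_{x ≠ 0, |x| ≤ Z, d ∣ x} ∑_{a ≠ 0, d ∣ a, S|a| ≤ (2cZ+e)|x|} 2 b S d/|x|`.
For fixed `d, x` the number of nonzero `a = d a'` with `|a'| ≤ (2cZ+e)|x|/(S d)` is at most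
`2 (2cZ+e)|x|/(S d)`; hence the inner sum is `≤ 4 b (2cZ+e)`.  The number of nonzero multiples
`x` of `d` with `|x| ≤ Z` is at most `2 Z/d`.  Total `≤ ∑_d 8 b Z (2cZ+e)/d ≤ 24 C² Z² ∑_d 1/d`
(as `b, c, e ≤ C`, `1 ≤ Z`, so `2cZ+e ≤ 3 C Z`).
Remark: regroup the double sum over `(x,a)` by the value of `gcd x a` (`Finset.sum_fiberwise_of_maps_to`),
or bound `NN ≤ ∑_{d ∈ (D,Z], d ∣ h-h'} [d = gcd x a] NN` and exchange sums.
-/

set_option autoImplicit false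

namespace Pool.Agent.H33.AA

open Finset

theorem Tail_count (A : Finset ℤ) (d : ℕ) (hd : 1 ≤ d) (y : ℝ) (hy : 0 ≤ y)
    (hA : ∀ a ∈ A, a ≠ 0 ∧ (d : ℤ) ∣ a ∧ |(a : ℝ)| ≤ y) : (#A : ℝ) ≤ 2 * y / d := by
  have hd0 : (0 : ℝ) < d := by exact_mod_cast hd
  set m : ℕ := ⌊y / d⌋₊ with hm
  have hinj : Set.InjOn (fun a : ℤ => a / (d : ℤ)) A := by
    intro a ha b hb hab
    obtain ⟨a', rfl⟩ := (hA a ha).2.1
    obtain ⟨b', rfl⟩ := (hA b hb).2.1
    have hdz : (d : ℤ) ≠ 0 := by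
      have : (1 : ℤ) ≤ d := by exact_mod_cast hd
      omega
    simp only [Int.mul_ediv_cancel_left _ hdz] at hab
    rw [hab]
  have hsub : A.image (fun a : ℤ => a / (d : ℤ)) ⊆ (Icc (-(m : ℤ)) m).erase 0 := by
    intro t ht
    obtain ⟨a, ha, rfl⟩ := mem_image.1 ht
    obtain ⟨h1, ⟨a', rfl⟩, h3⟩ := hA a ha
    have hdz : (d : ℤ) ≠ 0 := by
      have : (1 : ℤ) ≤ d := by exact_mod_cast hd
      omega
    rw [Int.mul_ediv_cancel_left _ hdz]
    have h4 : a' ≠ 0 := by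
      rintro rfl
      exact h1 (mul_zero _)
    have h5 : |(a' : ℝ)| ≤ y / d := by
      rw [le_div_iff₀ hd0]
      push_cast at h3
      rw [abs_mul, abs_of_pos hd0] at h3
      linarith
    have h6 : ((a'.natAbs : ℕ) : ℝ) ≤ y / d := by
      rw [Nat.cast_natAbs]
      exact_mod_cast h5
    have h7 : a'.natAbs ≤ m := Nat.le_floor h6
    rw [mem_erase, mem_Icc]
    refine ⟨h4, ?_, ?_⟩ <;> omega
  have h8 : #A ≤ 2 * m := by
    rw [← card_image_of_injOn hinj]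
    refine (card_le_card hsub).trans ?_
    rw [card_erase_of_mem (by rw [mem_Icc]; omega), Int.card_Icc]
    omega
  have h9 : (m : ℝ) ≤ y / d := Nat.floor_le (div_nonneg hy hd0.le)
  calc (#A : ℝ) ≤ ((2 * m : ℕ) : ℝ) := by exact_mod_cast h8
    _ = 2 * (m : ℝ) := by push_cast; ring
    _ ≤ 2 * (y / d) := by linarith
    _ = 2 * y / d := by ring

/-- the condition on the pair `(x,a)` for a given divisor `d` -/
def Tail_P (S K : ℤ) (d : ℕ) (x a : ℤ) : Prop :=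
  x ≠ 0 ∧ (d : ℤ) ∣ x ∧ (d : ℤ) ∣ a ∧ S * |a| ≤ K * |x|

instance (S K : ℤ) (d : ℕ) (x a : ℤ) : Decidable (Tail_P S K d x a) := by
  unfold Tail_P
  infer_instance

theorem Tail_term (F : Fam) (hF : F.Ok) (Z S h h' : ℤ) (D : ℕ) (hZ : 1 ≤ Z) (hZS : Z ≤ S)
    (h0 : 0 ≤ h) (hS1 : h ≤ S) (h0' : 0 ≤ h') (hS1' : h' ≤ S) (x a : ℤ) (hx : x ∈ Icc (-Z) Z)
    (ha : a ≠ 0) (hD : D < Int.gcd x a) :
    (F.NN Z S h h' 0 x a : ℝ) ≤ ∑ d ∈ (Ioc D Z.toNat).filter (fun d : ℕ => (d : ℤ) ∣ h - h'),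
      (if Tail_P S (2 * F.c * Z + F.e) d x a then 2 * (F.b : ℝ) * S * (d : ℝ) / |(x : ℝ)|
        else 0) := by
  have hb : (1 : ℝ) ≤ F.b := by exact_mod_cast hF.hb
  have hS : (1 : ℤ) ≤ S := hZ.trans hZS
  have hS' : (1 : ℝ) ≤ S := by exact_mod_cast hS
  have hnn : ∀ d ∈ (Ioc D Z.toNat).filter (fun d : ℕ => (d : ℤ) ∣ h - h'),
      0 ≤ (if Tail_P S (2 * F.c * Z + F.e) d x a then 2 * (F.b : ℝ) * S * (d : ℝ) / |(x : ℝ)|
        else 0) := by
    intro d _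
    split_ifs
    · positivity
    · exact le_rfl
  by_cases hne : F.NN Z S h h' 0 x a = 0
  · rw [hne, Nat.cast_zero]
    exact sum_nonneg hnn
  · obtain ⟨h1, h2, h3⟩ := NN_range F hF Z S h h' x a hS h0 hS1 h0' hS1' ha hne
    rw [mem_Icc] at hx
    have hxZ : |x| ≤ Z := abs_le.2 hx
    have h4 := NN_large F hF Z S h h' 0 x a h1 ha hS (hxZ.trans hZS)
    have hgx : ((Int.gcd x a : ℕ) : ℤ) ≤ |x| := by
      apply Int.le_of_dvd (abs_pos.2 h1)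
      rw [dvd_abs]
      exact Int.gcd_dvd_left x a
    have hmem : Int.gcd x a ∈ (Ioc D Z.toNat).filter (fun d : ℕ => (d : ℤ) ∣ h - h') := by
      rw [mem_filter, mem_Ioc]
      refine ⟨⟨hD, ?_⟩, h3⟩
      omega
    refine h4.trans ?_
    refine le_trans ?_ (single_le_sum hnn hmem)
    have hP : Tail_P S (2 * F.c * Z + F.e) (Int.gcd x a) x a :=
      ⟨h1, Int.gcd_dvd_left x a, Int.gcd_dvd_right x a, h2⟩
    rw [if_pos hP]

theorem Tail_fixed (F : Fam) (hF : F.Ok) (Z S K : ℤ) (hZ : 1 ≤ Z) (hZS : Z ≤ S) (hK : 0 ≤ K)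
    (d : ℕ) (hd : 1 ≤ d) :
    ∑ x ∈ Icc (-Z) Z, ∑ a ∈ (Icc (-S) S).filter (fun a : ℤ => a ≠ 0),
      (if Tail_P S K d x a then 2 * (F.b : ℝ) * S * (d : ℝ) / |(x : ℝ)| else 0) ≤
    8 * F.b * K * Z * (1 / (d : ℝ)) := by
  have hd0 : (0 : ℝ) < d := by exact_mod_cast hd
  have hb : (1 : ℝ) ≤ F.b := by exact_mod_cast hF.hb
  have hS : (1 : ℤ) ≤ S := hZ.trans hZS
  have hS' : (1 : ℝ) ≤ S := by exact_mod_cast hS
  have hK' : (0 : ℝ) ≤ K := by exact_mod_cast hK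
  have hZ' : (1 : ℝ) ≤ Z := by exact_mod_cast hZ
  have h1 : ∀ x ∈ Icc (-Z) Z, ∑ a ∈ (Icc (-S) S).filter (fun a : ℤ => a ≠ 0),
      (if Tail_P S K d x a then 2 * (F.b : ℝ) * S * (d : ℝ) / |(x : ℝ)| else 0) ≤
      (if x ≠ 0 ∧ (d : ℤ) ∣ x then 4 * (F.b : ℝ) * K else 0) := by
    intro x _
    by_cases hx : x ≠ 0 ∧ (d : ℤ) ∣ x
    · rw [if_pos hx, ← sum_filter, sum_const, nsmul_eq_mul]
      have hx0 : 0 < |(x : ℝ)| := abs_pos.2 (by exact_mod_cast hx.1)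
      have h2 := Tail_count
        (((Icc (-S) S).filter (fun a : ℤ => a ≠ 0)).filter (fun a => Tail_P S K d x a)) d hd
        (K * |(x : ℝ)| / S) (by positivity) (by
          intro a ha
          rw [mem_filter, mem_filter] at ha
          obtain ⟨⟨_, ha0⟩, _, _, hda, hSa⟩ := ha
          refine ⟨ha0, hda, ?_⟩
          rw [le_div_iff₀ (by linarith)]
          have : ((S * |a| : ℤ) : ℝ) ≤ ((K * |x| : ℤ) : ℝ) := by exact_mod_cast hSa
          push_cast at this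
          linarith)
      calc _ ≤ (2 * (K * |(x : ℝ)| / S) / d) * (2 * (F.b : ℝ) * S * (d : ℝ) / |(x : ℝ)|) :=
            mul_le_mul_of_nonneg_right h2 (by positivity)
        _ = 4 * (F.b : ℝ) * K := by
            have : (S : ℝ) ≠ 0 := by linarith
            field_simp
            ring
    · rw [if_neg hx]
      apply le_of_eq
      apply sum_eq_zero
      intro a _
      rw [if_neg]
      rintro ⟨h3, h4, _⟩
      exact hx ⟨h3, h4⟩
  refine (sum_le_sum h1).trans ?_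
  rw [← sum_filter, sum_const, nsmul_eq_mul]
  have h2 := Tail_count ((Icc (-Z) Z).filter (fun x : ℤ => x ≠ 0 ∧ (d : ℤ) ∣ x)) d hd
    (Z : ℝ) (by linarith) (by
      intro x hx
      rw [mem_filter, mem_Icc] at hx
      refine ⟨hx.2.1, hx.2.2, ?_⟩
      rw [abs_le]
      constructor
      · exact_mod_cast hx.1.1
      · exact_mod_cast hx.1.2)
  calc _ ≤ (2 * (Z : ℝ) / d) * (4 * (F.b : ℝ) * K) :=
        mul_le_mul_of_nonneg_right h2 (by positivity)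
    _ = 8 * F.b * K * Z * (1 / (d : ℝ)) := by ring

theorem tail_sum (F : Fam) (hF : F.Ok) (C : ℤ) (hbC : F.b ≤ C) (hcC : F.c ≤ C) (heC : F.e ≤ C)
    (Z S h h' : ℤ) (D : ℕ) (hZ : 1 ≤ Z) (hZS : Z ≤ S) (h0 : 0 ≤ h) (hS1 : h ≤ S)
    (h0' : 0 ≤ h') (hS1' : h' ≤ S) :
    ∑ x ∈ Icc (-Z) Z, ∑ a ∈ (Icc (-S) S).filter (fun a : ℤ => a ≠ 0 ∧ D < Int.gcd x a),
      (F.NN Z S h h' 0 x a : ℝ) ≤
    24 * (C : ℝ) ^ 2 * Z ^ 2 *
      ∑ d ∈ (Ioc D Z.toNat).filter (fun d : ℕ => (d : ℤ) ∣ h - h'), (1 : ℝ) / d := by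
  have hb1 : (1 : ℤ) ≤ F.b := hF.hb
  have hc1 : (1 : ℤ) ≤ F.c := hF.hc
  have he0 : (0 : ℤ) ≤ F.e := hF.he
  have hK : 0 ≤ 2 * F.c * Z + F.e := by
    have : 0 ≤ F.c * Z := mul_nonneg (by omega) (by omega)
    linarith
  calc ∑ x ∈ Icc (-Z) Z, ∑ a ∈ (Icc (-S) S).filter (fun a : ℤ => a ≠ 0 ∧ D < Int.gcd x a),
        (F.NN Z S h h' 0 x a : ℝ)
      ≤ ∑ x ∈ Icc (-Z) Z, ∑ a ∈ (Icc (-S) S).filter (fun a : ℤ => a ≠ 0),
        ∑ d ∈ (Ioc D Z.toNat).filter (fun d : ℕ => (d : ℤ) ∣ h - h'),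
        (if Tail_P S (2 * F.c * Z + F.e) d x a then 2 * (F.b : ℝ) * S * (d : ℝ) / |(x : ℝ)|
          else 0) := by
        refine sum_le_sum fun x hx => ?_
        refine (sum_le_sum (g := fun a => ∑ d ∈ (Ioc D Z.toNat).filter
          (fun d : ℕ => (d : ℤ) ∣ h - h'), (if Tail_P S (2 * F.c * Z + F.e) d x a then
            2 * (F.b : ℝ) * S * (d : ℝ) / |(x : ℝ)| else 0)) fun a ha => ?_).trans ?_
        · rw [mem_filter] at ha
          exact Tail_term F hF Z S h h' D hZ hZS h0 hS1 h0' hS1' x a hx ha.2.1 ha.2.2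
        · apply sum_le_sum_of_subset_of_nonneg
          · intro a ha
            rw [mem_filter] at ha ⊢
            exact ⟨ha.1, ha.2.1⟩
          · intro a _ _
            apply sum_nonneg
            intro d _
            split_ifs
            · have hb : (1 : ℝ) ≤ F.b := by exact_mod_cast hF.hb
              have hS' : (1 : ℝ) ≤ S := by exact_mod_cast hZ.trans hZS
              positivity
            · exact le_rfl
    _ = ∑ d ∈ (Ioc D Z.toNat).filter (fun d : ℕ => (d : ℤ) ∣ h - h'),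
        ∑ x ∈ Icc (-Z) Z, ∑ a ∈ (Icc (-S) S).filter (fun a : ℤ => a ≠ 0),
        (if Tail_P S (2 * F.c * Z + F.e) d x a then 2 * (F.b : ℝ) * S * (d : ℝ) / |(x : ℝ)|
          else 0) := by
        rw [sum_congr rfl fun x _ => sum_comm]
        rw [sum_comm]
    _ ≤ ∑ d ∈ (Ioc D Z.toNat).filter (fun d : ℕ => (d : ℤ) ∣ h - h'),
        24 * (C : ℝ) ^ 2 * Z ^ 2 * ((1 : ℝ) / d) := by
        refine sum_le_sum fun d hd => ?_
        rw [mem_filter, mem_Ioc] at hd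
        refine (Tail_fixed F hF Z S (2 * F.c * Z + F.e) hZ hZS hK d (by omega)).trans ?_
        refine mul_le_mul_of_nonneg_right ?_ (by positivity)
        have hb1' : (1 : ℝ) ≤ F.b := by exact_mod_cast hb1
        have hc1' : (1 : ℝ) ≤ F.c := by exact_mod_cast hc1
        have he0' : (0 : ℝ) ≤ F.e := by exact_mod_cast he0
        have hbC' : (F.b : ℝ) ≤ C := by exact_mod_cast hbC
        have hcC' : (F.c : ℝ) ≤ C := by exact_mod_cast hcC
        have heC' : (F.e : ℝ) ≤ C := by exact_mod_cast heC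
        have hZ' : (1 : ℝ) ≤ Z := by exact_mod_cast hZ
        push_cast
        have h1 : (2 * (F.c : ℝ) * Z + F.e) ≤ 3 * C * Z := by nlinarith
        have h2 : (F.b : ℝ) * (2 * (F.c : ℝ) * Z + F.e) ≤ C * (3 * C * Z) :=
          mul_le_mul hbC' h1 (by positivity) (by linarith)
        nlinarith
    _ = _ := by rw [← mul_sum]

end Pool.Agent.H33.AA
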