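import Pool.Agent.H33.AA.Main

/-!
# Job AA-TR: transfer lemmas (~100 lines)

`class_bad`: if `n < N`, `n ≡ n0 [MOD G]`, `¬ P n` and `n ≥ n0` then `n = n0 + G v` with `v < N` and
`¬ F.Rep v`; `v ↦ n` is injective, so the count is `≤ #{v < N | ¬ Rep v} + n0`; use `almost_all` with
`ε/2`.

`scale_bad`: let `a N = #{n < N | Bad n}` and `a' N = #{n < N | Bad n ∧ ¬ q ∣ n}`.  The `n < N` with
`q ∣ n`, `n = q m`: `Bad (q m) → Bad m` (`m ≥ 1`; `m = 0` contributes at most 1), `m < N/q + 1`.  So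
`a N ≤ a' N + a (N/q + 1) + 1 ≤ a' N + a (N/2 + 1) + 1`.
With `a' N ≤ δ N` for `N ≥ N1` strong induction gives `a N ≤ K + 3 δ N + …`, e.g. show
`a N ≤ K + 4 δ N + 3 log₂`-type term, or simply: for `N ≥ N2`, `N/2 + 1 ≤ 2N/3` and `1 ≤ δ N`, so
`a N ≤ 2 δ N + a (⌈2N/3⌉)`, `a N ≤ N2 + 6 δ N` by strong induction, `≤ 7 δ N` for `N` large.
-/

set_option autoImplicit false

namespace Pool.Agent.H33.AA

open Finset

open Classical in
theorem class_bad (F : Fam) (hF : F.Ok) (G n0 : ℕ) (hG : 1 ≤ G) (P : ℕ → Prop)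
    (hP : ∀ v : ℕ, F.Rep (v : ℤ) → P (n0 + G * v)) (ε : ℝ) (hε : 0 < ε) :
    ∃ N0 : ℕ, ∀ N : ℕ, N0 ≤ N →
      (#((range N).filter (fun n : ℕ => n % G = n0 % G ∧ ¬ P n)) : ℝ) ≤ ε * N := by
  obtain ⟨N1, h1⟩ := almost_all F hF (ε / 2) (by positivity)
  obtain ⟨N2, h2⟩ := exists_nat_ge ((n0 : ℝ) / (ε / 2))
  refine ⟨max N1 N2, fun N hN => ?_⟩
  have hsub : (range N).filter (fun n : ℕ => n % G = n0 % G ∧ ¬ P n) ⊆
      range n0 ∪ ((range N).filter (fun v : ℕ => ¬ F.Rep (v : ℤ))).image (fun v => n0 + G * v) := by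
    intro n hn
    rw [Finset.mem_filter, Finset.mem_range] at hn
    obtain ⟨hn1, hn2, hn3⟩ := hn
    rw [Finset.mem_union]
    rcases Nat.lt_or_ge n n0 with h | h
    · exact Or.inl (Finset.mem_range.2 h)
    · right
      have hd : G ∣ n - n0 := (Nat.modEq_iff_dvd' h).1 hn2.symm
      obtain ⟨v, hv⟩ := hd
      have hnv : n = n0 + G * v := by omega
      rw [Finset.mem_image]
      refine ⟨v, Finset.mem_filter.2 ⟨Finset.mem_range.2 ?_, ?_⟩, hnv.symm⟩
      · have : v ≤ G * v := Nat.le_mul_of_pos_left v hG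
        omega
      · intro hv'
        apply hn3
        rw [hnv]
        exact hP v hv'
  have hcard : #((range N).filter (fun n : ℕ => n % G = n0 % G ∧ ¬ P n)) ≤
      n0 + #((range N).filter (fun v : ℕ => ¬ F.Rep (v : ℤ))) := by
    refine (Finset.card_le_card hsub).trans ((Finset.card_union_le _ _).trans ?_)
    rw [Finset.card_range]
    exact Nat.add_le_add_left Finset.card_image_le _
  have h3 := h1 N (le_of_max_le_left hN)
  have h4 : (n0 : ℝ) ≤ ε / 2 * N := by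
    have h5 : (N2 : ℝ) ≤ N := by exact_mod_cast le_of_max_le_right hN
    have h6 := h2.trans h5
    rw [div_le_iff₀ (by positivity)] at h6
    linarith
  have h7 : (#((range N).filter (fun n : ℕ => n % G = n0 % G ∧ ¬ P n)) : ℝ) ≤
      (n0 : ℝ) + #((range N).filter (fun v : ℕ => ¬ F.Rep (v : ℤ))) := by
    exact_mod_cast hcard
  linarith

open Classical in
theorem tr_step (q : ℕ) (hq : 2 ≤ q) (Bad : ℕ → Prop) (hB : ∀ m, 1 ≤ m → Bad (q * m) → Bad m)
    (N : ℕ) : #((range N).filter (fun n : ℕ => Bad n)) ≤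
      #((range N).filter (fun n : ℕ => Bad n ∧ ¬ q ∣ n)) + 1 +
        #((range (N / 2 + 1)).filter (fun n : ℕ => Bad n)) := by
  have hsub : (range N).filter (fun n : ℕ => Bad n) ⊆
      ((range N).filter (fun n : ℕ => Bad n ∧ ¬ q ∣ n) ∪ {0}) ∪
        ((range (N / 2 + 1)).filter (fun n : ℕ => Bad n)).image (fun m => q * m) := by
    intro n hn
    rw [Finset.mem_filter, Finset.mem_range] at hn
    obtain ⟨hn1, hn2⟩ := hn
    rw [Finset.mem_union, Finset.mem_union]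
    by_cases hd : q ∣ n
    · obtain ⟨m, rfl⟩ := hd
      rcases Nat.eq_zero_or_pos m with h0 | h0
      · left; right
        rw [h0, mul_zero]
        exact Finset.mem_singleton_self 0
      · right
        rw [Finset.mem_image]
        refine ⟨m, Finset.mem_filter.2 ⟨Finset.mem_range.2 ?_, hB m h0 hn2⟩, rfl⟩
        have h1 : 2 * m ≤ q * m := Nat.mul_le_mul_right m hq
        omega
    · left; left
      exact Finset.mem_filter.2 ⟨Finset.mem_range.2 hn1, hn2, hd⟩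
  refine (Finset.card_le_card hsub).trans ((Finset.card_union_le _ _).trans ?_)
  refine Nat.add_le_add ((Finset.card_union_le _ _).trans ?_) Finset.card_image_le
  rw [Finset.card_singleton]

open Classical in
theorem scale_bad (q : ℕ) (hq : 2 ≤ q) (Bad : ℕ → Prop) (hB : ∀ m, 1 ≤ m → Bad (q * m) → Bad m)
    (h : ∀ ε : ℝ, 0 < ε → ∃ N0 : ℕ, ∀ N : ℕ, N0 ≤ N →
      (#((range N).filter (fun n : ℕ => Bad n ∧ ¬ q ∣ n)) : ℝ) ≤ ε * N)
    (ε : ℝ) (hε : 0 < ε) :
    ∃ N0 : ℕ, ∀ N : ℕ, N0 ≤ N → (#((range N).filter (fun n : ℕ => Bad n)) : ℝ) ≤ ε * N := by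
  obtain ⟨δ, hδ⟩ : ∃ δ : ℝ, δ = ε / 7 := ⟨_, rfl⟩
  have hδ0 : 0 < δ := by rw [hδ]; positivity
  obtain ⟨N1, h1⟩ := h δ hδ0
  obtain ⟨K, hK⟩ := exists_nat_ge (1 / δ)
  obtain ⟨N2, hN2⟩ : ∃ N2 : ℕ, N2 = max N1 (max K 6) := ⟨_, rfl⟩
  have h21 : N1 ≤ N2 := by omega
  have h22 : K ≤ N2 := by omega
  have h23 : 6 ≤ N2 := by omega
  have key : ∀ N : ℕ, (#((range N).filter (fun n : ℕ => Bad n)) : ℝ) ≤ N2 + 6 * δ * N := by
    intro N
    induction N using Nat.strong_induction_on with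
    | _ N ih =>
      rcases Nat.lt_or_ge N N2 with hN | hN
      · have h3 : #((range N).filter (fun n : ℕ => Bad n)) ≤ N :=
          (Finset.card_filter_le _ _).trans (Finset.card_range N).le
        have h4 : (#((range N).filter (fun n : ℕ => Bad n)) : ℝ) ≤ N2 := by
          exact_mod_cast h3.trans hN.le
        have h5 : (0 : ℝ) ≤ 6 * δ * N := by positivity
        linarith
      · have h3 := ih (N / 2 + 1) (by omega)
        have h4 : (#((range N).filter (fun n : ℕ => Bad n)) : ℝ) ≤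
            #((range N).filter (fun n : ℕ => Bad n ∧ ¬ q ∣ n)) + 1 +
              #((range (N / 2 + 1)).filter (fun n : ℕ => Bad n)) := by
          exact_mod_cast tr_step q hq Bad hB N
        have h5 := h1 N (by omega)
        have h6 : (1 : ℝ) ≤ δ * N := by
          have h7 : (K : ℝ) ≤ N := by exact_mod_cast h22.trans hN
          have h8 := hK.trans h7
          rw [div_le_iff₀ hδ0] at h8
          linarith
        have h7 : (((N / 2 + 1 : ℕ) : ℕ) : ℝ) ≤ 2 * (N : ℝ) / 3 := by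
          have h8 : 3 * (N / 2 + 1) ≤ 2 * N := by omega
          have h9 : (3 : ℝ) * ((N / 2 + 1 : ℕ) : ℝ) ≤ 2 * N := by exact_mod_cast h8
          linarith
        have h8 : 6 * δ * (((N / 2 + 1 : ℕ) : ℕ) : ℝ) ≤ 6 * δ * (2 * (N : ℝ) / 3) :=
          mul_le_mul_of_nonneg_left h7 (by positivity)
        have h9 : 6 * δ * (2 * (N : ℝ) / 3) = 4 * (δ * N) := by ring
        have h10 : 6 * δ * (N : ℝ) = 6 * (δ * N) := by ring
        rw [h9] at h8
        rw [h10]
        linarith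
  obtain ⟨N3, h3⟩ := exists_nat_ge ((N2 : ℝ) / δ)
  refine ⟨N3, fun N hN => ?_⟩
  have h4 : (N2 : ℝ) ≤ δ * N := by
    have h5 : (N3 : ℝ) ≤ N := by exact_mod_cast hN
    have h6 := h3.trans h5
    rw [div_le_iff₀ hδ0] at h6
    linarith
  have h5 := key N
  have h6 : ε = 7 * δ := by rw [hδ]; ring
  rw [h6]
  linarith

end Pool.Agent.H33.AA
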